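import Pool.Agent.ZOL.St
import Pool.Agent.CPR.AvB

set_option autoImplicit false

/-!
# ZOL: the average of `bad` over a period
-/

namespace Pool.Agent.ZOL

open Finset Filter
open Pool.Agent.Helper86.CollatzChain (s0 s1 u w vv sum_affine)
open Pool.Agent.Helper14 (T)
open Pool.Agent.CPR (Dp tt zz Ob Wi Ev bad Dens St_Cross St_Per cr wc pc pc_le abs_iter_le AvB_sum
  AvB_unit AvB_log)

theorem thm_AvB (hC : St_Cross) (hP : St_Per) (hA : St_Par) : St_AvB := by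
  intro B hB δ hδ
  obtain ⟨ε, hε, m₀, hcr⟩ := hC (δ / 3) (by positivity)
  refine ⟨max (40 * B) ⌈120 * B / ε⌉₊, le_max_left _ _, ?_⟩
  intro J hJ K hK
  have hJ3 : 40 * B ≤ J := (le_max_left _ _).trans hJ
  have hJε : 120 * B / ε ≤ J :=
    (Nat.le_ceil _).trans (by exact_mod_cast (le_max_right _ _).trans hJ)
  filter_upwards [hA B K J 100 hB hK hJ3, eventually_ge_atTop (2 ^ (2 * B * (m₀ + 1)))] with X hX hX2
  intro k₁ k hk₁ hRel r σ o hσ hr ho
  obtain ⟨hk, -, hDp, hJk, -, -⟩ := hX k₁ k hk₁ hRel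
  have hN : 2 * B * (m₀ + 1) ≤ Nat.log 2 X :=
    Nat.le_log_of_pow_le (by norm_num) hX2
  have hm1 : m₀ + 1 ≤ mm B X := by
    unfold mm
    rw [Nat.le_div_iff_mul_le (by omega)]
    rw [mul_comm]
    exact hN
  have hm2 : Nat.log 2 X < 2 * B * (mm B X + 1) := by
    unfold mm
    exact Nat.lt_mul_div_succ _ (by omega)
  set N := Nat.log 2 X with hNdef
  set n := nn B X with hn
  set m := mm B X with hm
  set D := 2 * Dp K J k with hD
  have hD50 : 50 * D ≤ k := by omega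
  have hm0 : m₀ ≤ m := by omega
  have hB2 : (2 : ℝ) ≤ B := by exact_mod_cast hB
  -- the logarithm
  have hlog : ∀ e : ℤ, |e| ≤ 3 ^ D * (2 ^ D * (2 ^ (8 * k) + 1)) →
      Real.log (1 + |(e : ℝ)|) ≤ ε * m := by
    intro e he
    refine (AvB_log D k e hD50 hk he).trans ?_
    have hJpos : (0 : ℝ) < J := by
      have : (1 : ℕ) ≤ J := by omega
      have : (1 : ℝ) ≤ J := by exact_mod_cast this
      linarith
    have h1 : 2 * ((J : ℝ) * k) ≤ 5 * (N + 1) := by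
      have : 2 * (J * k) ≤ 5 * (N + 1) := by omega
      exact_mod_cast this
    have h3 : (1 : ℝ) ≤ m := by
      have : 1 ≤ m := by omega
      exact_mod_cast this
    have h2 : (N : ℝ) + 1 ≤ 6 * (B * m) := by
      have h2' : (N : ℝ) + 1 ≤ 2 * B * (m + 1) := by exact_mod_cast hm2
      nlinarith
    have h4 : 120 * B ≤ ε * J := by
      rw [div_le_iff₀ hε] at hJε
      linarith
    have h5 : J * (8 * (k : ℝ)) ≤ J * (ε * m) := by
      have h6 : (120 * B : ℝ) * m ≤ ε * J * m := mul_le_mul_of_nonneg_right h4 (by positivity)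
      nlinarith
    exact le_of_mul_le_mul_left h5 hJpos
  -- the iterate
  have hT : |T^[r] (σ * o)| ≤ 2 ^ D * (2 ^ (8 * k) + 1) := by
    refine (abs_iter_le r (σ * o)).trans ?_
    have h1 : |σ * o| = |o| := by
      rw [abs_mul]
      rcases hσ with rfl | rfl <;> simp
    rw [h1]
    have h2 : (2 : ℤ) ^ r ≤ 2 ^ D := pow_le_pow_right₀ (by norm_num) hr
    have h3 : |o| + 1 ≤ 2 ^ (8 * k) + 1 := by linarith
    have h4 := abs_nonneg o
    exact mul_le_mul h2 h3 (by linarith) (by positivity)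
  have h3D : ∀ j : ℕ, j ≤ D → (3 : ℤ) ^ j ≤ 3 ^ D := fun j hj =>
    pow_le_pow_right₀ (by norm_num) hj
  have hc1 : cr n m (pc r (σ * o), T^[r] (σ * o)) ≤ δ / 3 := by
    apply hcr n m _ hm0
    apply hlog
    have h1 : (1 : ℤ) ≤ 3 ^ D := one_le_pow₀ (by norm_num)
    have h2 : (0 : ℤ) ≤ 2 ^ D * (2 ^ (8 * k) + 1) := by positivity
    calc |T^[r] (σ * o)| ≤ 1 * (2 ^ D * (2 ^ (8 * k) + 1)) := by rw [one_mul]; exact hT
      _ ≤ 3 ^ D * (2 ^ D * (2 ^ (8 * k) + 1)) := mul_le_mul_of_nonneg_right h1 h2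
  have hc2 : cr n m (D - pc r (σ * o), -3 ^ (D - pc r (σ * o)) * T^[r] (σ * o)) ≤ δ / 3 := by
    apply hcr n m _ hm0
    apply hlog
    rw [abs_mul, abs_neg, abs_pow]
    have h1 : |(3 : ℤ)| = 3 := by norm_num
    rw [h1]
    exact mul_le_mul (h3D _ (Nat.sub_le _ _)) hT (abs_nonneg _) (by positivity)
  have hc3 : cr n m (D, 0) ≤ δ / 3 := by
    apply hcr n m _ hm0
    apply hlog
    rw [abs_zero]
    positivity
  -- the sums
  have e1 : ∑ i ∈ range (2 ^ (n + m)), wc n m (pc r (σ * o), T^[r] (σ * o)) (σ * (i : ℤ)) =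
      2 ^ (n + m) * cr n m (pc r (σ * o), T^[r] (σ * o)) := by
    rw [← AvB_sum hP n m _ (3 ^ 0 * σ) 0 (AvB_unit _ 0 σ hσ)]
    apply sum_congr rfl
    intro i _
    rw [pow_zero, one_mul, add_zero]
  have e2 : ∑ i ∈ range (2 ^ (n + m)),
      wc n m (D - pc r (σ * o), -3 ^ (D - pc r (σ * o)) * T^[r] (σ * o))
        (3 ^ pc r (σ * o) * (σ * (i : ℤ)) + T^[r] (σ * o)) =
      2 ^ (n + m) * cr n m (D - pc r (σ * o), -3 ^ (D - pc r (σ * o)) * T^[r] (σ * o)) := by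
    rw [← AvB_sum hP n m _ (3 ^ pc r (σ * o) * σ) (T^[r] (σ * o)) (AvB_unit _ _ σ hσ)]
    apply sum_congr rfl
    intro i _
    rw [mul_assoc]
  have e3 : ∑ i ∈ range (2 ^ (n + m)), wc n m (D, 0) (σ * (i : ℤ)) =
      2 ^ (n + m) * cr n m (D, 0) := by
    rw [← AvB_sum hP n m _ (3 ^ 0 * σ) 0 (AvB_unit _ 0 σ hσ)]
    apply sum_congr rfl
    intro i _
    rw [pow_zero, one_mul, add_zero]
  unfold bad
  rw [sum_add_distrib, sum_add_distrib, e1, e2, e3]
  have hp : (0 : ℝ) < 2 ^ (n + m) := by positivity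
  nlinarith

end Pool.Agent.ZOL
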