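import Mathlib
import Pool.Agent.CPR.Defs

set_option autoImplicit false

/-!
# ZOL: long intervals of almost full density. Definitions

`θ = 1 - 1/B`, `B ≥ 2` an integer.  Everything is as in `CPR` (there `θ = 3/10`).
-/

namespace Pool.Agent.ZOL

open Finset
open Pool.Agent.CPR (Dp tt zz)

/-- `ℓ = X ^ (1 - 1/B)`. -/
noncomputable def ll (B X : ℕ) : ℝ := (X : ℝ) ^ (1 - 1 / (B : ℝ))

/-- `X ^ (1/B) = X / ℓ`. -/
noncomputable def aa (B X : ℕ) : ℝ := (X : ℝ) ^ (1 / (B : ℝ))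

/-- The time of the crossing. -/
def nn (B X : ℕ) : ℕ := Nat.log 2 X / (10000 * B)

/-- The time of the merging after the crossing. -/
def mm (B X : ℕ) : ℕ := Nat.log 2 X / (2 * B)

/-- The number `k` of letters of a block: the window `ℓ / 4 ^ k₁` shrinks to about `2 ^ (5 k)` after
`J` blocks. -/
def Rel (B J k k₁ X : ℕ) : Prop :=
  ((4 / 3 : ℝ) ^ J * 64) ^ k * 4 ^ k₁ ≤ ll B X ∧ ll B X < ((4 / 3 : ℝ) ^ J * 64) ^ (k + 1) * 4 ^ k₁

theorem ll_pow {B : ℕ} (hB : 1 ≤ B) (X : ℕ) : (ll B X) ^ B = (X : ℝ) ^ (B - 1) := by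
  unfold ll
  rw [← Real.rpow_natCast, ← Real.rpow_mul (Nat.cast_nonneg X), ← Real.rpow_natCast]
  congr 1
  have hB0 : (B : ℝ) ≠ 0 := by
    have : (1 : ℝ) ≤ B := by exact_mod_cast hB
    linarith
  rw [Nat.cast_sub hB, Nat.cast_one]
  field_simp

theorem aa_pow {B : ℕ} (hB : 1 ≤ B) (X : ℕ) : (aa B X) ^ B = (X : ℝ) := by
  unfold aa
  rw [← Real.rpow_natCast, ← Real.rpow_mul (Nat.cast_nonneg X)]
  have hB0 : (B : ℝ) ≠ 0 := by
    have : (1 : ℝ) ≤ B := by exact_mod_cast hB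
    linarith
  rw [one_div, inv_mul_cancel₀ hB0, Real.rpow_one]

theorem ll_mul_aa (B : ℕ) {X : ℕ} (hX : 1 ≤ X) : ll B X * aa B X = X := by
  unfold ll aa
  have h0 : (0 : ℝ) < X := by exact_mod_cast hX
  rw [← Real.rpow_add h0, sub_add_cancel, Real.rpow_one]

theorem ll_one {B : ℕ} (hB : 1 ≤ B) {X : ℕ} (hX : 1 ≤ X) : 1 ≤ ll B X := by
  unfold ll
  refine Real.one_le_rpow (by exact_mod_cast hX) ?_
  have h1 : (1 : ℝ) ≤ B := by exact_mod_cast hB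
  have h2 : 1 / (B : ℝ) ≤ 1 := by
    rw [div_le_one (by linarith)]
    exact h1
  linarith

theorem aa_one (B : ℕ) {X : ℕ} (hX : 1 ≤ X) : 1 ≤ aa B X :=
  Real.one_le_rpow (by exact_mod_cast hX) (by positivity)

/-- Comparison with `X ^ (1/B)`. -/
theorem le_aa {B : ℕ} (hB : 1 ≤ B) {X a : ℕ} (h : B * a ≤ Nat.log 2 X) (hX : X ≠ 0) :
    (2 : ℝ) ^ a ≤ aa B X := by
  have h0 : (0 : ℝ) ≤ aa B X := Real.rpow_nonneg (Nat.cast_nonneg X) _
  have h1 : ((2 : ℝ) ^ a) ^ B ≤ (aa B X) ^ B := by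
    rw [aa_pow hB, ← pow_mul, mul_comm a B]
    have h2 : 2 ^ (B * a) ≤ X :=
      (Nat.pow_le_pow_right (by norm_num) h).trans (Nat.pow_log_le_self 2 hX)
    exact_mod_cast h2
  exact (pow_le_pow_iff_left₀ (by positivity) h0 (by omega)).1 h1

theorem B_nn (B X : ℕ) : 10000 * (B * nn B X) ≤ Nat.log 2 X := by
  unfold nn
  have := Nat.mul_div_le (Nat.log 2 X) (10000 * B)
  calc 10000 * (B * (Nat.log 2 X / (10000 * B))) = 10000 * B * (Nat.log 2 X / (10000 * B)) := by ring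
    _ ≤ _ := this

theorem B_mm (B X : ℕ) : 2 * (B * mm B X) ≤ Nat.log 2 X := by
  unfold mm
  have := Nat.mul_div_le (Nat.log 2 X) (2 * B)
  calc 2 * (B * (Nat.log 2 X / (2 * B))) = 2 * B * (Nat.log 2 X / (2 * B)) := by ring
    _ ≤ _ := this

theorem B_nm (B X : ℕ) : 10 * (B * (nn B X + mm B X)) ≤ 6 * Nat.log 2 X := by
  have h1 := B_nn B X
  have h2 := B_mm B X
  rw [mul_add]
  omega

end Pool.Agent.ZOL
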