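import Mathlib
import Pool.Agent.ZOL.Defs
import Pool.Agent.CPR.St

set_option autoImplicit false

/-!
# ZOL: statements of the parts, with proofs on paper

THEOREM (0-1 law in long intervals).  `θ = 1 - 1/B`.  For all `B ≥ 2`, `δ > 0` there is `c > 0`: if `A` is
invariant under `T` outside a finite set, of density `d > 0` (sign `σ`), then for all large `X` at least
`c d X` of the `x ∈ [X, 2X)` are such that all but `δ X^θ` of the `n ∈ (x, x + X^θ]` have `σ n ∈ A`.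

All statements are those of `CPR/St.lean` with `X ^ (3/10)`, `X ^ (7/10)`, `N / 10000`, `N / 2` replaced by
`ll B X = X ^ (1 - 1/B)`, `aa B X = X ^ (1/B)`, `nn B X = N / (10000 B)`, `mm B X = N / (2B)`,
`N = log₂ X`; `J ≥ 40 B` everywhere.  The proofs are those of `CPR`, with the changes below.
The modules `Win, Hit, Cross, Per, Extr, Mix2, Sum1, Gs, GJ, Inv, NonHit, Mass, Exc, Cov, Blk, V1, V2,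
L1x, Dodd, D` of `CPR` do not contain the four numbers and are used as they are.
-/

namespace Pool.Agent.ZOL

open Finset Filter
open Pool.Agent.Collatz3 (cw)
open Pool.Agent.Collatz3.Mix (words)
open Pool.Agent.Collatz3.PD (rd en Fw P)
open Pool.Agent.Collatz3.DN (EvInv)
open Pool.Agent.Helper14 (T)
open Pool.Agent.CPR (Dp tt zz Ob Wi Ev bad Dens)

/-- [Par] Sizes of the parameters, `N = log₂ X`.  Upper bound for `k`: `((4/3)^J 64)^k ≤ ll B X ≤ X` and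
`(4/3)^5 ≥ 4` give `2 (J k) + 30 k ≤ 5 (N + 1)`; with `J ≥ 40 B`: `80 B k ≤ 5 (N + 1)`, so `B (7 k) ≤ N` and
`2^(7k) ≤ aa B X` (`le_aa`).  Lower bound for `k` (`Par_core`): `(ll B X)^B = X^(B-1) ≥ 2^((B-1) N) ≥ 2^N`,
so `N < B ((J + 6)(k + 1) + 2 k₁)`.  `zz ≥ 16^k aa B X` (as `Par_zz`, `ll_mul_aa`).
`B (nn + mm) ≤ N` (`B_nm`), so `2^(nn + mm) ≤ aa B X`. -/
def St_Par : Prop := ∀ B K J M : ℕ, 2 ≤ B → 1 ≤ K → 40 * B ≤ J → ∀ᶠ X : ℕ in atTop, ∀ k₁ k : ℕ,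
  k₁ ^ 4 ≤ Nat.log 2 X → Rel B J k k₁ X →
  M ≤ k ∧ M * k₁ ^ 2 ≤ k ∧ M * Dp K J k ≤ k ∧ 2 * (J * k) + 30 * k ≤ 5 * (Nat.log 2 X + 1) ∧
  (∀ x : ℕ, X ≤ x → M * 2 ^ (nn B X + mm B X) ≤ zz K J k k₁ x ∧
    M * 2 ^ (10 * k) ≤ zz K J k k₁ x ∧ aa B X ≤ (zz K J k k₁ x : ℝ)) ∧
  ∀ s' : ℕ, k₁ ≤ s' → s' ≤ 3 * k₁ →
    (2 : ℝ) ^ ((2 * J + 6) * k) ≤ 3 ^ (J * k) * (3 ^ k₁ * ll B X / 2 ^ s') ∧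
    ∀ s : ℕ, (2 * J - 1) * k ≤ s → s ≤ (2 * J + 1) * k →
      (2 : ℝ) ^ (5 * k) ≤ 3 ^ (J * k) * (3 ^ k₁ * ll B X / 2 ^ s') / 2 ^ s ∧
      4 * (3 ^ (J * k) * (3 ^ k₁ * ll B X / 2 ^ s') / 2 ^ s) ≤ (2 : ℝ) ^ (8 * k) ∧
      ∀ x : ℕ, X ≤ x → (M : ℝ) * 2 ^ (4 * k) ≤ 3 ^ (J * k) * (3 ^ k₁ * (x : ℝ) / 2 ^ s') / 2 ^ s

/-- [Ptw] As in `CPR`; `n + m` is now `nn + mm`, `z ≥ M 2^(nn + mm)` by `St_Par`. -/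
def St_Ptw : Prop := ∀ B K J : ℕ, 2 ≤ B → 1 ≤ K → 40 * B ≤ J → ∀ (C : ℕ) (A : Set ℤ) (σ : ℤ),
  (σ = 1 ∨ σ = -1) →
  EvInv C A → ∀ᶠ X : ℕ in atTop, ∀ k₁ k s s' x : ℕ, k₁ ^ 4 ≤ Nat.log 2 X → Rel B J k k₁ X →
  k₁ ≤ s' → s' ≤ 3 * k₁ → (2 * J - 1) * k ≤ s → s ≤ (2 * J + 1) * k →
  2 * (J * k + k₁) ≤ s + s' + Dp K J k → s + s' ≤ 2 * (J * k + k₁) + Dp K J k →
  X ≤ x → x < 2 * X → Ev σ A (nn B X) (2 * Dp K J k) (zz K J k k₁ x) →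
  ∀ b ∈ Wi σ (3 ^ k₁ * x / 2 ^ s') (3 ^ k₁ * ll B X / 2 ^ s') k J s, b ∉ A →
    |σ * b - 2 ^ (tt K J k k₁ - s - s') * (zz K J k k₁ x : ℤ)| ≤ 2 ^ (8 * k) ∧
    1 ≤ bad (nn B X) (mm B X) (2 * Dp K J k) (tt K J k k₁ - s - s') σ
      (σ * b - 2 ^ (tt K J k k₁ - s - s') * (zz K J k k₁ x : ℤ)) (zz K J k k₁ x)

/-- [AvB] As in `CPR`: `log (1 + |e'|) ≤ 8 k ≤ 20 (N + 1) / J ≤ ε mm` for `J ≥ J₀(ε, B)`. -/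
def St_AvB : Prop := ∀ B : ℕ, 2 ≤ B → ∀ δ : ℝ, 0 < δ → ∃ J₀ : ℕ, 40 * B ≤ J₀ ∧ ∀ J : ℕ, J₀ ≤ J →
  ∀ K : ℕ, 1 ≤ K →
  ∀ᶠ X : ℕ in atTop, ∀ k₁ k : ℕ, k₁ ^ 4 ≤ Nat.log 2 X → Rel B J k k₁ X →
  ∀ (r : ℕ) (σ o : ℤ), (σ = 1 ∨ σ = -1) → r ≤ 2 * Dp K J k → |o| ≤ 2 ^ (8 * k) →
  ∑ i ∈ range (2 ^ (nn B X + mm B X)),
    bad (nn B X) (mm B X) (2 * Dp K J k) r σ o (i : ℤ) ≤
    δ * 2 ^ (nn B X + mm B X)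

open Classical in
/-- [Est] As in `CPR`; the only place with numbers is `2^(n+m) 3^k ≤ L`:
`B (nn + mm + 2 k) ≤ 6N/10 + N/8 + 1 ≤ N`, so `2^(nn + mm) 3^k ≤ aa B X ≤ zz`. -/
def St_Est : Prop := ∃ C₀ : ℝ, 0 < C₀ ∧ ∀ B : ℕ, 2 ≤ B → ∀ K : ℕ, 1 ≤ K → ∀ δ : ℝ, 0 < δ →
  ∃ J₀ : ℕ, 40 * B ≤ J₀ ∧ ∀ J : ℕ, J₀ ≤ J →
  ∀ (C : ℕ) (A : Set ℤ) (σ : ℤ), (σ = 1 ∨ σ = -1) → EvInv C A → ∀ᶠ X : ℕ in atTop, ∀ k₁ k s' : ℕ,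
  k₁ ^ 4 ≤ Nat.log 2 X → Rel B J k k₁ X → k₁ ≤ s' → s' ≤ 3 * k₁ →
  ∑ x ∈ (Ico X (2 * X)).filter (fun x => Ev σ A (nn B X) (2 * Dp K J k) (zz K J k k₁ x)),
    (((Ob σ (3 ^ k₁ * x / 2 ^ s') (3 ^ k₁ * x / 2 ^ s' + 3 ^ k₁ * ll B X / 2 ^ s')).filter
      fun n => n ∉ A).card : ℝ) ≤
    3 ^ k₁ * ll B X / 2 ^ s' * (C₀ * Real.exp (-(K / 4)) *
      ((Ico X (2 * X)).filter (fun x =>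
        Ev σ A (nn B X) (2 * Dp K J k) (zz K J k k₁ x))).card + δ * X)

open Classical in
/-- [Evt] As in `CPR`: `D² = 4 K² (√(Jk) + 1)² ≤ 8 K² (J k + 1) ≤ 20 K² (N + 1) + 8 K² ≤ 10^6 B K² nn` for large
`X`; `Z ≥ aa B X ≥ 2^(6000 nn)` (`le_aa`, `B_nn`); `c` depends on `B` and `K` only. -/
def St_Evt : Prop := ∀ B : ℕ, 2 ≤ B → ∀ K : ℕ, 1 ≤ K → ∃ c : ℝ, 0 < c ∧ ∀ J : ℕ, 40 * B ≤ J →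
  ∀ (C : ℕ) (A : Set ℤ) (σ : ℤ)
  (d : ℝ), (σ = 1 ∨ σ = -1) → EvInv C A → Dens σ A d → ∀ ε : ℝ, 0 < ε → ∀ᶠ X : ℕ in atTop,
  ∀ k₁ k : ℕ, k₁ ^ 4 ≤ Nat.log 2 X → Rel B J k k₁ X →
  c * (d - ε) * X ≤ (((Ico X (2 * X)).filter (fun x =>
    Ev σ A (nn B X) (2 * Dp K J k) (zz K J k k₁ x))).card : ℝ)

open Classical in
/-- [Pers] From `St_Est`, `St_Evt` as in `CPR`. -/
def St_Pers : Prop := ∀ B : ℕ, 2 ≤ B → ∀ δ : ℝ, 0 < δ → ∃ c : ℝ, 0 < c ∧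
  ∀ (C : ℕ) (A : Set ℤ) (σ : ℤ) (d : ℝ),
  (σ = 1 ∨ σ = -1) → EvInv C A → Dens σ A d → 0 < d → ∀ᶠ X : ℕ in atTop, ∀ k₁ : ℕ,
  k₁ ^ 4 ≤ Nat.log 2 X → ∃ G ⊆ Ico X (2 * X), c * d * X ≤ G.card ∧
    ∀ s' : ℕ, k₁ ≤ s' → s' ≤ 3 * k₁ →
    ∑ x ∈ G, (((Ob σ (3 ^ k₁ * x / 2 ^ s') (3 ^ k₁ * x / 2 ^ s' + 3 ^ k₁ * ll B X / 2 ^ s')).filter
      fun n => n ∉ A).card : ℝ) ≤ δ * G.card * (3 ^ k₁ * ll B X / 2 ^ s')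

open Classical in
/-- [SvB] Primes, and odd integers, in an interval of length `ℓ = ll B X ≥ X^(1/2)`.
Primes: as in `CPR` (`z = ⌊ℓ⌋`, `VV ≤ 1 / log z ≤ 4 / log X`).
Odd integers: the same `l, δ, k` and the same argument with `z = 2` and the same `Ω p = {0}`: `Sf Ω 2 n`
always holds (no prime below `2`), `VV Ω 2 = 1`, so `St_ResB` and `St_CSB` (with `B = 1`: `2 ≤ 2^1`, and
`1 · (4/5)^(k/2) ≤ 1`; `k 3^k ≤ 2^s` from `k 3^k ≤ (397/100)^k V`, `V ≤ 1`) give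
`#{n ∈ Ob σ x (x + ℓ), n ∈ F} ≤ ℓ (η/5) + ℓ (η/20) ≤ η ℓ`. -/
def St_SvB : Prop := ∀ B : ℕ, 2 ≤ B → ∀ η : ℝ, 0 < η → ∃ (l : ℕ) (δ : ℝ), 1 ≤ l ∧ 0 < δ ∧
  ∀ᶠ X : ℕ in atTop, ∃ k : ℕ,
  k ^ 4 ≤ Nat.log 2 X ∧ l ^ 2 ≤ k ∧ ∀ x : ℕ, X ≤ x → x ≤ 2 * X → ∀ σ : ℤ, (σ = 1 ∨ σ = -1) →
  ∀ F : Set ℤ, (∀ w ∈ words k k, ∀ b : ℤ, b % 2 = 1 → rd w b → (X : ℤ) ≤ |en w b| →
    en w b ∈ F → b ∈ F) →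
  ∑ s ∈ (range (3 * k + 1)).filter (fun s : ℕ => |(s : ℝ) - 2 * k| ≤ l * √k),
    (((Ob σ (3 ^ k * x / 2 ^ s) (3 ^ k * x / 2 ^ s + 3 ^ k * ll B X / 2 ^ s)).filter
      fun b => b ∈ F).card : ℝ) / (3 ^ k * ll B X / 2 ^ s) ≤ δ * √k →
  (((Icc X (3 * X)).filter (fun p : ℕ => p.Prime ∧ x < p ∧ (p : ℝ) ≤ x + ll B X ∧
    σ * (p : ℤ) ∈ F)).card : ℝ) ≤ η * ll B X / Real.log X ∧
  (((Ob σ x (x + ll B X)).filter fun n => n ∈ F).card : ℝ) ≤ η * ll B X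

end Pool.Agent.ZOL
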