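import Mathlib
import Pool.Agent.ZOL.St

set_option autoImplicit false

/-!
# ZOL: statements of the final parts, with proofs on paper

Blocks `(x, x + L]`; `cn E x L = #{n ∈ E : x < n ≤ x + L}`.
-/

namespace Pool.Agent.ZOL

open Finset Filter
open Pool.Agent.Collatz3.DN (EvInv)
open Pool.Agent.Helper14 (T)
open Pool.Agent.CPR (Dens)

/-- The number of `n ∈ E` with `x < n ≤ x + L`. -/
noncomputable def cn (E : Set ℕ) (x : ℕ) (L : ℝ) : ℕ :=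
  Set.ncard {n : ℕ | x < n ∧ (n : ℝ) ≤ x + L ∧ n ∈ E}

/-- The integers (up to the sign `σ`) outside `A`. -/
def outE (σ : ℤ) (A : Set ℤ) : Set ℕ := {n : ℕ | σ * (n : ℤ) ∉ A}

/-- The primes (up to the sign `σ`) outside `A`. -/
def outP (σ : ℤ) (A : Set ℤ) : Set ℕ := {n : ℕ | n.Prime ∧ σ * (n : ℤ) ∉ A}

/-- [Avg] Averaging over subintervals.  An `n ∈ E` counted in `cn E y l` has `y < n ≤ y + l`, that is
`y ∈ {n - ⌊l⌋, …, n - 1}`, at most `⌊l⌋ ≤ l` values of `y`, and `x < n ≤ x + M + l`. -/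
def St_Avg : Prop := ∀ (E : Set ℕ) (x M : ℕ) (l : ℝ), 0 ≤ l →
  ∑ y ∈ Ioc x (x + M), (cn E y l : ℝ) ≤ l * cn E x (M + l)

open Classical in
/-- [Mark] Markov's inequality for `St_Avg`. -/
def St_Mark : Prop := ∀ (E : Set ℕ) (x M : ℕ) (l τ : ℝ), 0 ≤ l → 0 ≤ τ →
  τ * (((Ioc x (x + M)).filter fun y => τ < (cn E y l : ℝ)).card : ℝ) ≤ l * cn E x (M + l)

open Classical in
/-- [Dbl] Double counting: if every `x ∈ G ⊆ [X, 2X)` has at least `a` points of `Y` in `(x, x + M]`,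
then at least `a |G| / M` points of `Y` are in `(X, 2X + M)`; `M` of them may be `≥ 2X`. -/
def St_Dbl : Prop := ∀ (Y : Set ℕ) (X M : ℕ) (G : Finset ℕ) (a : ℝ), 1 ≤ M → G ⊆ Ico X (2 * X) →
  (∀ x ∈ G, a ≤ (((Ioc x (x + M)).filter fun y => y ∈ Y).card : ℝ)) →
  a * G.card ≤ M * ((((Ico X (2 * X)).filter fun y => y ∈ Y).card : ℝ) + M)

/-- [Gap] Most intervals `(x, x + X^θ]`, `θ > 1/4`, contain the expected number of primes, up to a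
constant.  `θ < 1/2`: `SI.gap` (`ε = θ - 1/4`, `A = 2`), constant `c₀`.  `1/2 ≤ θ < 1`: put
`l = X^(3/10)`, `L = X^θ`, `M = ⌊L - l⌋`, `c₁ = c₀ / 4`.  If `cn Primes x L ≤ c₁ L / log X`, then by
`St_Mark` (`τ = c₀ l / log X`) at most `L / 4` of the `y ∈ (x, x + M]` have `cn Primes y l > τ`, so at least
`M - L / 4 ≥ L / 2` are bad for `l`.  The bad `y ∈ (X, 3X)` number at most `3 X / (log X)^2` (`SI.gap`
for `X` and `2X`; for `2X` the length `(2X)^(3/10)` is larger than `l`, use `c₀` and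
`c₁ = c₀ / 8` or a slightly smaller constant), and every `y` is counted for at most `M` values of `x`
(`St_Dbl`-type double counting): `|F| L / 2 ≤ L · 3 X / (log X)^2`, so `|F| ≤ X / log X` for large `X`. -/
def St_Gap : Prop := ∃ c₁ : ℝ, 0 < c₁ ∧ ∀ θ : ℝ, 1 / 4 < θ → θ < 1 → ∀ᶠ X : ℕ in atTop,
  ∀ F : Finset ℕ, F ⊆ Ico X (2 * X) →
  (∀ x ∈ F, (cn {n | n.Prime} x ((X : ℝ) ^ θ) : ℝ) ≤ c₁ * (X : ℝ) ^ θ / Real.log X) →
  (F.card : ℝ) ≤ X / Real.log X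

open Classical in
/-- [Even] `n` and `n + 1` are in the same class for almost all `n`.
`Pool.Agent.Collatz3.ND.main`: with `F = {(0, σ)}` the set `{n ∈ A : n + σ ∈ A}` has the density of `A`;
`σ (m + 1) = σ m + σ`. -/
def St_Even : Prop := ∀ (C : ℕ) (A : Set ℤ) (σ : ℤ), (σ = 1 ∨ σ = -1) → EvInv C A →
  ∀ ε : ℝ, 0 < ε → ∀ᶠ X : ℕ in atTop,
  (((range X).filter fun n : ℕ => ¬ (σ * (n : ℤ) ∈ A ↔ σ * ((n : ℤ) + 1) ∈ A)).card : ℝ) ≤ ε * X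

/-- [Joint] One set of good starting points for integers and primes.  `η' = min (η/4) 1`; `l, δ` from
`St_SvB` with `η'`, `c₂` from `St_Pers` with `δ / (6 l)`; `k` from `St_SvB`, `k₁ = k`, `G` from
`St_Pers`.  As in `CPR.Fin` (`Fin_set`, `Fin_half`, `Fin_inv` with `F = Aᶜ`): at least half of the `x ∈ G`
satisfy the hypothesis of `St_SvB`; call them `G₁`.  They have at most `η' ℓ / log X` primes and at most
`η' ℓ` odd integers outside `A` in `(x, x + ℓ]`.  The even `n ∈ (x, x + ℓ]` outside `A`: `n + 1` is odd, in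
`(x, x + ℓ + 1]`, and outside `A` or `n` is in the set of `St_Even`; so
`cn (outE σ A) x ℓ ≤ 2 #{odd} + 1 + e(x)`, `e(x) = #{n ∈ (x, x + ℓ] : n in the set of St_Even}`, and
`∑_{x ∈ [X, 2X)} e(x) ≤ ℓ · ε · 4X` (every `n < 4 X` is in at most `ℓ` of the blocks), with
`ε = c₂ d η / 64`: at least half of the `x ∈ G₁` have `e(x) ≤ (η/4) ℓ`. -/
def St_Joint : Prop := ∀ B : ℕ, 2 ≤ B → ∀ η : ℝ, 0 < η → ∃ c : ℝ, 0 < c ∧
  ∀ (C : ℕ) (A : Set ℤ) (σ : ℤ) (d : ℝ), (σ = 1 ∨ σ = -1) → EvInv C A → Dens σ A d → 0 < d →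
  ∀ᶠ X : ℕ in atTop, ∃ G ⊆ Ico X (2 * X), c * d * X ≤ G.card ∧ ∀ x ∈ G,
    (cn (outE σ A) x (ll B X) : ℝ) ≤ η * ll B X ∧
    (cn (outP σ A) x (ll B X) : ℝ) ≤ η * ll B X / Real.log X

/-- [Block] The block theorem for every `θ < 1`.  `B` with `1 - 1/B > θ`; `St_Joint` with
`η' = η / 200`, `G`; `L = ll B X`, `l = (2X)^θ ≤ 2 X^θ`, `M = ⌊L / 2⌋`, so `M + l ≤ L`.  By `St_Mark` at most
`l η' L / (η X^θ) ≤ M / 8` of the `y ∈ (x, x + M]` have `cn (outE) y l > η X^θ`, and the same for the primes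
with `η X^θ / log (2X)` (`log (2X) ≤ 2 log X`).  So at least `3 M / 4` of the `y` are good;
`St_Dbl`: at least `(3/4) |G| - M ≥ |G| / 2` good `y ∈ [X, 2X)` (`M = o(X)`); at most `X / log X` of them
violate the last condition (`St_Gap`, with `c₁ / 4`).  For a good `y`: `y^θ ≤ l`, `X^θ ≤ y^θ`,
`log y ≤ log (2X)`. -/
def St_Block : Prop := ∃ c₁ : ℝ, 0 < c₁ ∧ ∀ θ : ℝ, 0 < θ → θ < 1 → ∀ η : ℝ, 0 < η →
  ∃ c : ℝ, 0 < c ∧ ∀ (C : ℕ) (A : Set ℤ) (σ : ℤ) (d : ℝ), (σ = 1 ∨ σ = -1) → EvInv C A →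
  Dens σ A d → 0 < d → ∀ᶠ X : ℕ in atTop,
  c * d * X ≤ (Set.ncard {x : ℕ | X ≤ x ∧ x < 2 * X ∧
    (cn (outE σ A) x ((x : ℝ) ^ θ) : ℝ) ≤ η * (x : ℝ) ^ θ ∧
    (cn (outP σ A) x ((x : ℝ) ^ θ) : ℝ) ≤ η * (x : ℝ) ^ θ / Real.log x ∧
    (1 / 4 < θ → c₁ * (x : ℝ) ^ θ / Real.log x ≤ (cn {n | n.Prime} x ((x : ℝ) ^ θ) : ℝ))} : ℝ)

/-- [Equiv] The 0-1 law.  If `A` has no element of sign `σ`, then all `⌊x^θ⌋` integers of the block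
are outside `A`, and all its primes (`St_Gap`).  If `a ∈ A` has sign `σ`, then `A` has a density
`d ≥ c / |a| > 0` (`Pool.Agent.Collatz3.ND.main`), and `St_Block` with `η / 2` gives `≥ c d X` blocks with less
than `η x^θ` integers (`η x^θ / log x` primes) outside `A`, for all large `X`. -/
def St_Equiv : Prop := ∀ (A : Set ℤ) (σ : ℤ), (σ = 1 ∨ σ = -1) → (∀ n, T n ∈ A ↔ n ∈ A) →
  ((∀ n ∈ A, ¬ 0 < σ * n) ↔ ∃ θ η : ℝ, 0 < θ ∧ θ < 1 ∧ 0 < η ∧ ∀ ε : ℝ, 0 < ε → ∃ᶠ X : ℕ in atTop,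
    (Set.ncard {x : ℕ | X ≤ x ∧ x < 2 * X ∧
      (cn (outE σ A) x ((x : ℝ) ^ θ) : ℝ) < η * (x : ℝ) ^ θ} : ℝ) ≤ ε * X) ∧
  ((∀ n ∈ A, ¬ 0 < σ * n) ↔ ∃ θ η : ℝ, 0 < θ ∧ θ < 1 ∧ 0 < η ∧ ∀ ε : ℝ, 0 < ε → ∃ᶠ X : ℕ in atTop,
    (Set.ncard {x : ℕ | X ≤ x ∧ x < 2 * X ∧
      (cn (outP σ A) x ((x : ℝ) ^ θ) : ℝ) < η * (x : ℝ) ^ θ / Real.log x} : ℝ) ≤ ε * X)

end Pool.Agent.ZOL
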