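import Mathlib
import Pool.Agent.ZOL.St2

set_option autoImplicit false

/-!
# ZOL, modules Avg, Mark, Dbl: averaging over subintervals
-/

namespace Pool.Agent.ZOL

open Finset Filter

open Classical in
/-- `cn` as the cardinality of a finset. -/
theorem cn_eq (E : Set ℕ) (x : ℕ) {L : ℝ} (hL : 0 ≤ L) :
    cn E x L = ((Ioc x (x + ⌊L⌋₊)).filter fun n => n ∈ E).card := by
  unfold cn
  rw [← Set.ncard_coe_finset]
  congr 1
  ext n
  simp only [Set.mem_setOf_eq, coe_filter, mem_Ioc]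
  constructor
  · rintro ⟨h1, h2, h3⟩
    refine ⟨⟨h1, ?_⟩, h3⟩
    have h4 : ((n - x : ℕ) : ℝ) ≤ L := by
      rw [Nat.cast_sub h1.le]
      linarith
    have h5 : n - x ≤ ⌊L⌋₊ := Nat.le_floor h4
    omega
  · rintro ⟨⟨h1, h2⟩, h3⟩
    refine ⟨h1, ?_, h3⟩
    have h4 : (n : ℝ) ≤ x + (⌊L⌋₊ : ℝ) := by exact_mod_cast h2
    have h5 := Nat.floor_le hL
    linarith

theorem cn_mono (E : Set ℕ) (x : ℕ) {L L' : ℝ} (hL : 0 ≤ L) (h : L ≤ L') : cn E x L ≤ cn E x L' := by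
  classical
  rw [cn_eq E x hL, cn_eq E x (hL.trans h)]
  apply card_le_card
  apply filter_subset_filter
  apply Ioc_subset_Ioc_right
  have := Nat.floor_le_floor h
  omega

theorem cn_le (E : Set ℕ) (x : ℕ) {L : ℝ} (hL : 0 ≤ L) : (cn E x L : ℝ) ≤ L := by
  classical
  rw [cn_eq E x hL]
  have h1 : ((Ioc x (x + ⌊L⌋₊)).filter fun n => n ∈ E).card ≤ ⌊L⌋₊ := by
    refine (card_filter_le _ _).trans ?_
    rw [Nat.card_Ioc]
    omega
  exact (Nat.cast_le.mpr h1).trans (Nat.floor_le hL)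

theorem thm_Avg : St_Avg := by
  classical
  intro E x M l hl
  have hML : (0 : ℝ) ≤ M + l := by positivity
  have e1 : ∀ y ∈ Ioc x (x + M), (cn E y l : ℝ) =
      ((((Ioc x (x + ⌊(M : ℝ) + l⌋₊)).filter fun n => n ∈ E).filter
        fun n => y < n ∧ n ≤ y + ⌊l⌋₊).card : ℝ) := by
    intro y hy
    rw [mem_Ioc] at hy
    rw [cn_eq E y hl]
    congr 2
    ext n
    simp only [mem_filter, mem_Ioc]
    have h0 : ⌊(M : ℝ) + l⌋₊ = M + ⌊l⌋₊ := by
      rw [add_comm, Nat.floor_add_natCast hl, add_comm]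
    rw [h0]
    constructor
    · rintro ⟨⟨h1, h2⟩, h3⟩
      exact ⟨⟨⟨by omega, by omega⟩, h3⟩, h1, h2⟩
    · rintro ⟨⟨_, h3⟩, h1, h2⟩
      exact ⟨⟨h1, h2⟩, h3⟩
  rw [sum_congr rfl e1]
  set Q := (Ioc x (x + ⌊(M : ℝ) + l⌋₊)).filter fun n => n ∈ E with hQ
  have h3 : ∑ y ∈ Ioc x (x + M), ((Q.filter fun n => y < n ∧ n ≤ y + ⌊l⌋₊).card : ℝ) =
      ∑ n ∈ Q, (((Ioc x (x + M)).filter fun y => y < n ∧ n ≤ y + ⌊l⌋₊).card : ℝ) := by
    have h4 := Finset.sum_card_bipartiteAbove_eq_sum_card_bipartiteBelow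
      (s := Ioc x (x + M)) (t := Q) (fun (y n : ℕ) => y < n ∧ n ≤ y + ⌊l⌋₊)
    simp only [Finset.bipartiteAbove, Finset.bipartiteBelow] at h4
    exact_mod_cast h4
  rw [h3]
  have h5 : ∀ n ∈ Q, (((Ioc x (x + M)).filter fun y => y < n ∧ n ≤ y + ⌊l⌋₊).card : ℝ) ≤ l := by
    intro n _
    have h6 : ((Ioc x (x + M)).filter fun y => y < n ∧ n ≤ y + ⌊l⌋₊) ⊆ Ico (n - ⌊l⌋₊) n := by
      intro y hy
      rw [mem_filter] at hy
      rw [mem_Ico]
      omega
    have h7 := card_le_card h6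
    rw [Nat.card_Ico] at h7
    have h8 : ((Ioc x (x + M)).filter fun y => y < n ∧ n ≤ y + ⌊l⌋₊).card ≤ ⌊l⌋₊ := by omega
    exact (Nat.cast_le.mpr h8).trans (Nat.floor_le hl)
  have h9 := Finset.sum_le_card_nsmul Q
    (fun n => (((Ioc x (x + M)).filter fun y => y < n ∧ n ≤ y + ⌊l⌋₊).card : ℝ)) l h5
  rw [nsmul_eq_mul] at h9
  refine h9.trans (le_of_eq ?_)
  rw [cn_eq E x hML, hQ]
  ring

theorem thm_Mark : St_Mark := by
  classical
  intro E x M l τ hl hτ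
  refine le_trans ?_ (thm_Avg E x M l hl)
  calc τ * (((Ioc x (x + M)).filter fun y => τ < (cn E y l : ℝ)).card : ℝ)
      = ∑ y ∈ (Ioc x (x + M)).filter (fun y => τ < (cn E y l : ℝ)), τ := by
        rw [sum_const, nsmul_eq_mul]
        ring
    _ ≤ ∑ y ∈ (Ioc x (x + M)).filter (fun y => τ < (cn E y l : ℝ)), (cn E y l : ℝ) :=
        sum_le_sum fun y hy => (mem_filter.1 hy).2.le
    _ ≤ ∑ y ∈ Ioc x (x + M), (cn E y l : ℝ) :=
        sum_le_sum_of_subset_of_nonneg (filter_subset _ _) fun y _ _ => Nat.cast_nonneg _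

theorem thm_Dbl : St_Dbl := by
  classical
  intro Y X M G a hM hG h
  set Q := (Ico X (2 * X + M)).filter fun y => y ∈ Y with hQ
  have h1 : a * G.card ≤ ∑ x ∈ G, ((Q.filter fun y => x < y ∧ y ≤ x + M).card : ℝ) := by
    have h2 : ∀ x ∈ G, a ≤ ((Q.filter fun y => x < y ∧ y ≤ x + M).card : ℝ) := by
      intro x hx
      refine (h x hx).trans ?_
      have hx' := mem_Ico.1 (hG hx)
      apply Nat.cast_le.mpr
      apply card_le_card
      intro y hy
      rw [mem_filter, mem_Ioc] at hy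
      rw [mem_filter, hQ, mem_filter, mem_Ico]
      exact ⟨⟨⟨by omega, by omega⟩, hy.2⟩, hy.1⟩
    have h3 := Finset.card_nsmul_le_sum G
      (fun x => ((Q.filter fun y => x < y ∧ y ≤ x + M).card : ℝ)) a h2
    rw [nsmul_eq_mul] at h3
    linarith
  have h3 : ∑ x ∈ G, ((Q.filter fun y => x < y ∧ y ≤ x + M).card : ℝ) =
      ∑ y ∈ Q, ((G.filter fun x => x < y ∧ y ≤ x + M).card : ℝ) := by
    have h4 := Finset.sum_card_bipartiteAbove_eq_sum_card_bipartiteBelow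
      (s := G) (t := Q) (fun (x y : ℕ) => x < y ∧ y ≤ x + M)
    simp only [Finset.bipartiteAbove, Finset.bipartiteBelow] at h4
    exact_mod_cast h4
  have h5 : ∀ y ∈ Q, ((G.filter fun x => x < y ∧ y ≤ x + M).card : ℝ) ≤ M := by
    intro y _
    have h6 : (G.filter fun x => x < y ∧ y ≤ x + M) ⊆ Ico (y - M) y := by
      intro x hx
      rw [mem_filter] at hx
      rw [mem_Ico]
      omega
    have h7 := card_le_card h6
    rw [Nat.card_Ico] at h7
    have h8 : (G.filter fun x => x < y ∧ y ≤ x + M).card ≤ M := by omega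
    exact_mod_cast h8
  have h9 := Finset.sum_le_card_nsmul Q
    (fun y => ((G.filter fun x => x < y ∧ y ≤ x + M).card : ℝ)) M h5
  rw [nsmul_eq_mul] at h9
  have h10 : (Q.card : ℝ) ≤ (((Ico X (2 * X)).filter fun y => y ∈ Y).card : ℝ) + M := by
    have h11 : Q ⊆ ((Ico X (2 * X)).filter fun y => y ∈ Y) ∪ Ico (2 * X) (2 * X + M) := by
      intro y hy
      rw [hQ, mem_filter, mem_Ico] at hy
      rw [mem_union, mem_filter, mem_Ico, mem_Ico]
      rcases Nat.lt_or_ge y (2 * X) with h | h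
      · exact Or.inl ⟨⟨hy.1.1, h⟩, hy.2⟩
      · exact Or.inr ⟨h, hy.1.2⟩
    have h12 := (card_le_card h11).trans (card_union_le _ _)
    rw [Nat.card_Ico] at h12
    have h13 : Q.card ≤ ((Ico X (2 * X)).filter fun y => y ∈ Y).card + M := by omega
    exact_mod_cast h13
  rw [h3] at h1
  have hM0 : (0 : ℝ) ≤ M := Nat.cast_nonneg M
  calc a * G.card ≤ Q.card * M := h1.trans h9
    _ ≤ ((((Ico X (2 * X)).filter fun y => y ∈ Y).card : ℝ) + M) * M :=
        mul_le_mul_of_nonneg_right h10 hM0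
    _ = _ := by ring

end Pool.Agent.ZOL
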