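import Pool.Agent.ZOL.St2

set_option autoImplicit false

/-!
# ZOL [Block]: the block theorem for every `θ < 1`
-/

namespace Pool.Agent.ZOL

open Finset Filter
open Pool.Agent.Collatz3.DN (EvInv)
open Pool.Agent.Helper14 (T)
open Pool.Agent.CPR (Dens)

theorem Block_fin (E : Set ℕ) (x : ℕ) (L : ℝ) :
    {n : ℕ | x < n ∧ (n : ℝ) ≤ x + L ∧ n ∈ E}.Finite := by
  refine (Set.finite_Iic ⌊(x : ℝ) + L⌋₊).subset ?_
  rintro n ⟨-, h, -⟩
  exact Nat.le_floor h

theorem Block_mono (E : Set ℕ) (x : ℕ) {L L' : ℝ} (h : L ≤ L') :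
    (cn E x L : ℝ) ≤ cn E x L' := by
  have : cn E x L ≤ cn E x L' := by
    refine Set.ncard_le_ncard ?_ (Block_fin E x L')
    rintro n ⟨h1, h2, h3⟩
    exact ⟨h1, by linarith, h3⟩
  exact_mod_cast this

/-- Sizes, for large `X`. -/
theorem Block_size {θ : ℝ} (h0 : 0 < θ) (h1 : θ < 1) {B : ℕ} (hB : 1 / (1 - θ) < B) (ε : ℝ)
    (hε : 0 < ε) : ∀ᶠ X : ℕ in atTop,
    2 * (2 * (X : ℝ)) ^ θ ≤ ll B X ∧ 100 ≤ ll B X ∧ ll B X ≤ ε * X ∧ 2 ≤ Real.log X ∧
      (X : ℝ) / Real.log X ≤ ε * X := by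
  have hB0 : (0 : ℝ) < B := lt_trans (by have : 0 < 1 - θ := by linarith
                                         positivity) hB
  have hBθ : θ < 1 - 1 / (B : ℝ) := by
    have h2 : 0 < 1 - θ := by linarith
    have h3 : 1 < B * (1 - θ) := by
      rw [div_lt_iff₀ h2] at hB
      exact hB
    have h4 : 1 / (B : ℝ) < 1 - θ := by
      rw [div_lt_iff₀ hB0]
      linarith
    linarith
  have hc : Tendsto (fun X : ℕ => (X : ℝ)) atTop atTop := tendsto_natCast_atTop_atTop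
  -- `X ^ (1 - 1/B - θ) → ∞`
  have t1 : Tendsto (fun X : ℕ => (X : ℝ) ^ (1 - 1 / (B : ℝ) - θ)) atTop atTop :=
    (tendsto_rpow_atTop (by linarith)).comp hc
  have t2 : Tendsto (fun X : ℕ => (X : ℝ) ^ (1 - 1 / (B : ℝ))) atTop atTop :=
    (tendsto_rpow_atTop (by linarith)).comp hc
  have t3 : Tendsto (fun X : ℕ => (X : ℝ) ^ (1 / (B : ℝ))) atTop atTop :=
    (tendsto_rpow_atTop (by positivity)).comp hc
  have t4 : Tendsto (fun X : ℕ => Real.log (X : ℝ)) atTop atTop := Real.tendsto_log_atTop.comp hc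
  filter_upwards [t1.eventually_ge_atTop 4, t2.eventually_ge_atTop 100,
    t3.eventually_ge_atTop (1 / ε), t4.eventually_ge_atTop 2, t4.eventually_ge_atTop (1 / ε),
    eventually_ge_atTop 1] with X e1 e2 e3 e4 e5 e6
  have hX : (0 : ℝ) < X := by exact_mod_cast e6
  refine ⟨?_, e2, ?_, e4, ?_⟩
  · have h2 : (2 * (X : ℝ)) ^ θ ≤ 2 * (X : ℝ) ^ θ := by
      rw [Real.mul_rpow (by norm_num) hX.le]
      refine mul_le_mul_of_nonneg_right ?_ (by positivity)
      calc (2 : ℝ) ^ θ ≤ (2 : ℝ) ^ (1 : ℝ) :=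
            Real.rpow_le_rpow_of_exponent_le (by norm_num) h1.le
        _ = 2 := Real.rpow_one 2
    have h3 : ll B X = (X : ℝ) ^ (1 - 1 / (B : ℝ) - θ) * (X : ℝ) ^ θ := by
      rw [← Real.rpow_add hX, sub_add_cancel]
      rfl
    rw [h3]
    have h4 : (0 : ℝ) < (X : ℝ) ^ θ := by positivity
    nlinarith
  · have h2 := ll_mul_aa B e6
    have h3 : 1 / ε ≤ aa B X := e3
    have h4 : 0 ≤ ll B X := by
      unfold ll
      positivity
    rw [div_le_iff₀ hε] at h3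
    calc ll B X = ll B X * 1 := by ring
      _ ≤ ll B X * (aa B X * ε) := mul_le_mul_of_nonneg_left h3 h4
      _ = ε * (ll B X * aa B X) := by ring
      _ = ε * X := by rw [h2]
  · have h5 : 0 < Real.log X := by linarith
    rw [div_le_iff₀ h5]
    rw [div_le_iff₀ hε] at e5
    nlinarith

open Classical in
theorem thm_Block (hJ : St_Joint) (hM : St_Mark) (hD : St_Dbl) (hG : St_Gap) : St_Block := by
  obtain ⟨c₀, hc₀, hG⟩ := hG
  refine ⟨c₀ / 4, by positivity, fun θ hθ0 hθ1 η hη => ?_⟩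
  obtain ⟨B, hB⟩ := exists_nat_gt (max (1 / (1 - θ)) 2)
  have hB1 : 1 / (1 - θ) < B := lt_of_le_of_lt (le_max_left _ _) hB
  have hB2 : 2 ≤ B := by
    have : (2 : ℝ) < B := lt_of_le_of_lt (le_max_right _ _) hB
    exact_mod_cast this.le
  obtain ⟨c', hc', hJ⟩ := hJ B hB2 (η / 200) (by positivity)
  refine ⟨c' / 8, by positivity, fun C A σ d hσ hA hd hd0 => ?_⟩
  have hcd : 0 < c' * d := mul_pos hc' hd0
  have hgap : ∀ᶠ X : ℕ in atTop, 1 / 4 < θ → ∀ F : Finset ℕ, F ⊆ Ico X (2 * X) →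
      (∀ x ∈ F, (cn {n | n.Prime} x ((X : ℝ) ^ θ) : ℝ) ≤ c₀ * (X : ℝ) ^ θ / Real.log X) →
      (F.card : ℝ) ≤ X / Real.log X := by
    by_cases h : 1 / 4 < θ
    · filter_upwards [hG θ h hθ1] with X hX _
      exact hX
    · exact Filter.Eventually.of_forall fun X h' => absurd h' h
  filter_upwards [hJ C A σ d hσ hA hd hd0, Block_size hθ0 hθ1 hB1 (min (c' * d / 8) 1)
    (by positivity), hgap, eventually_ge_atTop 1] with X hX1 hX2 hX3 hX4
  obtain ⟨G, hG1, hG2, hG3⟩ := hX1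
  obtain ⟨s1, s2, s3, s4, s5⟩ := hX2
  have hXr : (1 : ℝ) ≤ X := by exact_mod_cast hX4
  have hX0 : (0 : ℝ) < X := by linarith
  obtain ⟨L, hL⟩ : ∃ L, L = ll B X := ⟨_, rfl⟩
  obtain ⟨l, hl⟩ : ∃ l, l = (2 * (X : ℝ)) ^ θ := ⟨_, rfl⟩
  obtain ⟨M, hMd⟩ : ∃ M, M = ⌊L / 2⌋₊ := ⟨_, rfl⟩
  obtain ⟨Xt, hXt⟩ : ∃ Xt, Xt = (X : ℝ) ^ θ := ⟨_, rfl⟩
  rw [← hl, ← hL] at s1
  rw [← hL] at s2 s3
  rw [← hL] at hG3
  have hXt0 : 0 < Xt := by rw [hXt]; positivity
  have hl0 : 0 ≤ l := by rw [hl]; positivity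
  have hl2 : l ≤ 2 * Xt := by
    rw [hl, hXt, Real.mul_rpow (by norm_num) hX0.le]
    refine mul_le_mul_of_nonneg_right ?_ (by positivity)
    calc (2 : ℝ) ^ θ ≤ (2 : ℝ) ^ (1 : ℝ) :=
          Real.rpow_le_rpow_of_exponent_le (by norm_num) hθ1.le
      _ = 2 := Real.rpow_one 2
  have hM1 : (M : ℝ) ≤ L / 2 := by
    rw [hMd]
    exact Nat.floor_le (by linarith)
  have hM2 : L / 2 - 1 < M := by
    rw [hMd]
    exact Nat.sub_one_lt_floor _
  have hML : (M : ℝ) + l ≤ L := by linarith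
  have hMpos : 1 ≤ M := by
    have : (1 : ℝ) < M := by linarith
    exact_mod_cast this.le
  have hlog0 : 0 < Real.log X := by linarith
  have hlog2 : Real.log (2 * X) ≤ 2 * Real.log X := by
    rw [Real.log_mul (by norm_num) hX0.ne']
    have : Real.log 2 < 1 := by
      have := Real.log_two_lt_d9
      linarith
    linarith
  have hlog3 : 0 < Real.log (2 * X) := by
    refine Real.log_pos ?_
    linarith
  -- the good points
  obtain ⟨Y, hY⟩ : ∃ Y : Set ℕ, ∀ y, y ∈ Y ↔ ((cn (outE σ A) y l : ℝ) ≤ η * Xt ∧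
      (cn (outP σ A) y l : ℝ) ≤ η * Xt / Real.log (2 * X)) := ⟨{y | _}, fun _ => Iff.rfl⟩
  have hgood : ∀ x ∈ G, 3 / 4 * (M : ℝ) ≤ (((Ioc x (x + M)).filter fun y => y ∈ Y).card : ℝ) := by
    intro x hx
    obtain ⟨g1, g2⟩ := hG3 x hx
    have m1 := hM (outE σ A) x M l (η * Xt) hl0 (by positivity)
    have m2 := hM (outP σ A) x M l (η * Xt / Real.log (2 * X)) hl0 (by positivity)
    set b1 : ℝ := (((Ioc x (x + M)).filter fun y => η * Xt < (cn (outE σ A) y l : ℝ)).card : ℝ)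
      with hb1
    set b2 : ℝ := (((Ioc x (x + M)).filter fun y =>
      η * Xt / Real.log (2 * X) < (cn (outP σ A) y l : ℝ)).card : ℝ) with hb2
    have k1 : (cn (outE σ A) x (M + l) : ℝ) ≤ η / 200 * L := (Block_mono _ x hML).trans g1
    have k2 : (cn (outP σ A) x (M + l) : ℝ) ≤ η / 200 * L / Real.log X :=
      (Block_mono _ x hML).trans g2
    have n1 : b1 ≤ L / 100 := by
      have h1 : η * Xt * b1 ≤ 2 * Xt * (η / 200 * L) := by
        refine m1.trans ?_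
        exact mul_le_mul hl2 k1 (Nat.cast_nonneg _) (by positivity)
      have h2 : 2 * Xt * (η / 200 * L) = η * Xt * (L / 100) := by ring
      rw [h2] at h1
      exact le_of_mul_le_mul_left h1 (by positivity)
    have n2 : b2 ≤ L / 50 := by
      have h1 : η * Xt / Real.log (2 * X) * b2 ≤ 2 * Xt * (η / 200 * L / Real.log X) := by
        refine m2.trans ?_
        exact mul_le_mul hl2 k2 (Nat.cast_nonneg _) (by positivity)
      have h2 : η * Xt / Real.log (2 * X) * (L / 50) ≥ 2 * Xt * (η / 200 * L / Real.log X) := by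
        have h3 : η * Xt / Real.log (2 * X) * (L / 50) =
            η * Xt * (L / 50) * (1 / Real.log (2 * X)) := by ring
        have h4 : 2 * Xt * (η / 200 * L / Real.log X) =
            η * Xt * (L / 50) * (1 / (2 * Real.log X)) := by
          field_simp
          ring
        rw [h3, h4, ge_iff_le]
        refine mul_le_mul_of_nonneg_left ?_ (by positivity)
        exact one_div_le_one_div_of_le hlog3 hlog2
      exact le_of_mul_le_mul_left (h1.trans h2) (by positivity)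
    have hcov : (Ioc x (x + M)) ⊆ ((Ioc x (x + M)).filter fun y => y ∈ Y) ∪
        (((Ioc x (x + M)).filter fun y => η * Xt < (cn (outE σ A) y l : ℝ)) ∪
        ((Ioc x (x + M)).filter fun y =>
          η * Xt / Real.log (2 * X) < (cn (outP σ A) y l : ℝ))) := by
      intro y hy
      rw [mem_union, mem_union, mem_filter, mem_filter, mem_filter, hY]
      by_cases h1 : (cn (outE σ A) y l : ℝ) ≤ η * Xt
      · by_cases h2 : (cn (outP σ A) y l : ℝ) ≤ η * Xt / Real.log (2 * X)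
        · exact Or.inl ⟨hy, h1, h2⟩
        · exact Or.inr (Or.inr ⟨hy, not_le.1 h2⟩)
      · exact Or.inr (Or.inl ⟨hy, not_le.1 h1⟩)
    have hcard := (card_le_card hcov).trans
      ((card_union_le _ _).trans (Nat.add_le_add_left (card_union_le _ _) _))
    rw [Nat.card_Ioc, Nat.add_sub_cancel_left] at hcard
    have hcard' : (M : ℝ) ≤ (((Ioc x (x + M)).filter fun y => y ∈ Y).card : ℝ) + (b1 + b2) := by
      rw [hb1, hb2]
      exact_mod_cast hcard
    linarith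
  have hdbl := hD Y X M G (3 / 4 * M) hMpos hG1 hgood
  have hMr : (0 : ℝ) < M := by exact_mod_cast hMpos
  have hYc : 3 / 4 * (G.card : ℝ) - M ≤
      (((Ico X (2 * X)).filter fun y => y ∈ Y).card : ℝ) := by
    have h1 : (M : ℝ) * (3 / 4 * G.card) ≤
        M * ((((Ico X (2 * X)).filter fun y => y ∈ Y).card : ℝ) + M) := by
      refine le_trans (le_of_eq ?_) hdbl
      ring
    have h2 := le_of_mul_le_mul_left h1 hMr
    linarith
  -- primes
  obtain ⟨F, hF⟩ : ∃ F : Finset ℕ, F = (Ico X (2 * X)).filter fun y =>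
      1 / 4 < θ ∧ (cn {n | n.Prime} y ((y : ℝ) ^ θ) : ℝ) < c₀ / 4 * (y : ℝ) ^ θ / Real.log y :=
    ⟨_, rfl⟩
  have hyb : ∀ y ∈ Ico X (2 * X), Xt ≤ (y : ℝ) ^ θ ∧ (y : ℝ) ^ θ ≤ l ∧
      Real.log X ≤ Real.log y ∧ Real.log y ≤ Real.log (2 * X) ∧ (0 : ℝ) < y := by
    intro y hy
    rw [mem_Ico] at hy
    have y1 : (X : ℝ) ≤ y := by exact_mod_cast hy.1
    have y2 : (y : ℝ) ≤ 2 * X := by
      have : y ≤ 2 * X := hy.2.le
      exact_mod_cast this
    have y0 : (0 : ℝ) < y := by linarith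
    refine ⟨?_, ?_, Real.log_le_log hX0 y1, Real.log_le_log y0 y2, y0⟩
    · rw [hXt]
      exact Real.rpow_le_rpow hX0.le y1 hθ0.le
    · rw [hl]
      exact Real.rpow_le_rpow y0.le y2 hθ0.le
  have hFc : (F.card : ℝ) ≤ X / Real.log X := by
    by_cases h : 1 / 4 < θ
    · refine hX3 h F (by rw [hF]; exact filter_subset _ _) ?_
      intro y hy
      rw [hF, mem_filter] at hy
      obtain ⟨hy1, -, hy2⟩ := hy
      obtain ⟨b1, b2, b3, b4, b5⟩ := hyb y hy1
      rw [← hXt]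
      refine (Block_mono _ y b1).trans (hy2.le.trans ?_)
      have h3 : c₀ / 4 * (y : ℝ) ^ θ / Real.log y ≤ c₀ / 4 * (y : ℝ) ^ θ / Real.log X :=
        div_le_div_of_nonneg_left (by positivity) hlog0 b3
      refine h3.trans (div_le_div_of_nonneg_right ?_ hlog0.le)
      nlinarith
    · have : F = ∅ := by
        rw [hF, filter_eq_empty_iff]
        intro y _ hy
        exact h hy.1
      rw [this, card_empty, Nat.cast_zero]
      positivity
  -- the end
  have hsub : ((Ico X (2 * X)).filter fun y => y ∈ Y) \ F ⊆ (Ico X (2 * X)).filter (fun x =>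
      (cn (outE σ A) x ((x : ℝ) ^ θ) : ℝ) ≤ η * (x : ℝ) ^ θ ∧
      (cn (outP σ A) x ((x : ℝ) ^ θ) : ℝ) ≤ η * (x : ℝ) ^ θ / Real.log x ∧
      (1 / 4 < θ → c₀ / 4 * (x : ℝ) ^ θ / Real.log x ≤
        (cn {n | n.Prime} x ((x : ℝ) ^ θ) : ℝ))) := by
    intro y hy
    rw [Finset.mem_sdiff, mem_filter, hF, mem_filter, hY] at hy
    obtain ⟨⟨hy1, hy2, hy3⟩, hy4⟩ := hy
    obtain ⟨b1, b2, b3, b4, b5⟩ := hyb y hy1
    rw [mem_filter]
    refine ⟨hy1, ?_, ?_, ?_⟩
    · refine (Block_mono _ y b2).trans (hy2.trans ?_)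
      exact mul_le_mul_of_nonneg_left b1 hη.le
    · refine (Block_mono _ y b2).trans (hy3.trans ?_)
      have h5 : 0 < Real.log y := by linarith
      have h6 : η * Xt / Real.log (2 * X) ≤ η * Xt / Real.log y :=
        div_le_div_of_nonneg_left (by positivity) h5 b4
      refine h6.trans (div_le_div_of_nonneg_right ?_ h5.le)
      exact mul_le_mul_of_nonneg_left b1 hη.le
    · intro h
      by_contra h7
      exact hy4 ⟨hy1, h, not_le.1 h7⟩
  have hcc : (((Ico X (2 * X)).filter fun y => y ∈ Y).card : ℝ) - F.card ≤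
      ((((Ico X (2 * X)).filter (fun x =>
      (cn (outE σ A) x ((x : ℝ) ^ θ) : ℝ) ≤ η * (x : ℝ) ^ θ ∧
      (cn (outP σ A) x ((x : ℝ) ^ θ) : ℝ) ≤ η * (x : ℝ) ^ θ / Real.log x ∧
      (1 / 4 < θ → c₀ / 4 * (x : ℝ) ^ θ / Real.log x ≤
        (cn {n | n.Prime} x ((x : ℝ) ^ θ) : ℝ)))).card : ℕ) : ℝ) := by
    have h1 := card_le_card hsub
    have h2 : ((Ico X (2 * X)).filter fun y => y ∈ Y).card ≤
        (((Ico X (2 * X)).filter fun y => y ∈ Y) \ F).card + F.card := by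
      exact Finset.card_le_card_sdiff_add_card
    have h3 : (((Ico X (2 * X)).filter fun y => y ∈ Y).card : ℝ) ≤
        ((((Ico X (2 * X)).filter fun y => y ∈ Y) \ F).card : ℝ) + F.card := by
      exact_mod_cast h2
    have h4 : ((((Ico X (2 * X)).filter fun y => y ∈ Y) \ F).card : ℝ) ≤ _ := Nat.cast_le.2 h1
    linarith
  have hset : {x : ℕ | X ≤ x ∧ x < 2 * X ∧
      (cn (outE σ A) x ((x : ℝ) ^ θ) : ℝ) ≤ η * (x : ℝ) ^ θ ∧
      (cn (outP σ A) x ((x : ℝ) ^ θ) : ℝ) ≤ η * (x : ℝ) ^ θ / Real.log x ∧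
      (1 / 4 < θ → c₀ / 4 * (x : ℝ) ^ θ / Real.log x ≤
        (cn {n | n.Prime} x ((x : ℝ) ^ θ) : ℝ))} =
      (((Ico X (2 * X)).filter (fun x =>
      (cn (outE σ A) x ((x : ℝ) ^ θ) : ℝ) ≤ η * (x : ℝ) ^ θ ∧
      (cn (outP σ A) x ((x : ℝ) ^ θ) : ℝ) ≤ η * (x : ℝ) ^ θ / Real.log x ∧
      (1 / 4 < θ → c₀ / 4 * (x : ℝ) ^ θ / Real.log x ≤
        (cn {n | n.Prime} x ((x : ℝ) ^ θ) : ℝ))) : Finset ℕ) : Set ℕ) := by
    ext x
    simp only [Set.mem_ofPred_eq, coe_filter, mem_Ico, and_assoc]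
  rw [hset, Set.ncard_coe_finset]
  refine le_trans ?_ hcc
  have q1 : L ≤ c' * d / 8 * X := by
    refine s3.trans (mul_le_mul_of_nonneg_right (min_le_left _ _) hX0.le)
  have q2 : (X : ℝ) / Real.log X ≤ c' * d / 8 * X := by
    refine s5.trans (mul_le_mul_of_nonneg_right (min_le_left _ _) hX0.le)
  have q3 : c' * d * X ≤ (G.card : ℝ) := hG2
  have q4 : c' / 8 * d * X = c' * d * X / 8 := by ring
  have q5 : c' * d / 8 * X = c' * d * X / 8 := by ring
  rw [q4]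
  rw [q5] at q1 q2
  have q6 : 0 ≤ c' * d * X := by positivity
  linarith

end Pool.Agent.ZOL
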