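import Pool.Agent.ZOL.Avg
import Pool.Agent.ZOL.Block
import Pool.Agent.Collatz3.ND

set_option autoImplicit false

/-!
# ZOL [Equiv]: the zero-one law
-/

namespace Pool.Agent.ZOL

open Finset Filter
open Pool.Agent.Collatz3.DN (EvInv)
open Pool.Agent.Helper14 (T)
open Pool.Agent.CPR (Dens)

/-- An invariant set with an element of sign `σ` has positive density on that side. -/
theorem Equiv_dens {A : Set ℤ} {σ : ℤ} (hσ : σ = 1 ∨ σ = -1) (hA : ∀ n, T n ∈ A ↔ n ∈ A)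
    {a : ℤ} (ha : a ∈ A) (hpos : 0 < σ * a) : ∃ d : ℝ, 0 < d ∧ EvInv 0 A ∧ Dens σ A d := by
  obtain ⟨c, hc, h⟩ := Pool.Agent.Collatz3.ND.main
  have hs : |σ| = 1 := by
    rcases hσ with rfl | rfl <;> simp
  obtain ⟨d, h1, -, -, -, h5, -, -⟩ := h σ hs
  have hE : EvInv 0 A := fun n _ => hA n
  refine ⟨d A, ?_, hE, h1 0 A hE⟩
  refine lt_of_lt_of_le ?_ (h5 A hA a ha hpos)
  have ha0 : a ≠ 0 := by
    rintro rfl
    simp at hpos
  have : (0 : ℝ) < |(a : ℝ)| := by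
    have : (a : ℝ) ≠ 0 := by exact_mod_cast ha0
    positivity
  positivity

/-- Without elements of sign `σ` all positive integers are outside. -/
theorem Equiv_out {A : Set ℤ} {σ : ℤ} (hσ : σ = 1 ∨ σ = -1) (h : ∀ n ∈ A, ¬ 0 < σ * n) {n : ℕ}
    (hn : 0 < n) : σ * (n : ℤ) ∉ A := by
  intro hA
  refine h _ hA ?_
  rw [← mul_assoc, Pool.Agent.CPR.sig_sq hσ, one_mul]
  exact_mod_cast hn

/-- The comparison of two sets of starting points. -/
theorem Equiv_contra {P Q : ℕ → ℕ → Prop} {c : ℝ} (hc : 0 < c)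
    (h1 : ∀ᶠ X : ℕ in atTop, c * X ≤ (Set.ncard {x : ℕ | X ≤ x ∧ x < 2 * X ∧ P X x} : ℝ))
    (h2 : ∃ᶠ X : ℕ in atTop, (Set.ncard {x : ℕ | X ≤ x ∧ x < 2 * X ∧ Q X x} : ℝ) ≤ c / 2 * X)
    (h3 : ∀ᶠ X : ℕ in atTop, ∀ x, X ≤ x → x < 2 * X → P X x → Q X x) : False := by
  obtain ⟨X, hX2, ⟨hX1, hX3⟩, hX4⟩ :=
    (h2.and_eventually ((h1.and h3).and (eventually_ge_atTop 1))).exists
  have hfin : {x : ℕ | X ≤ x ∧ x < 2 * X ∧ Q X x}.Finite :=
    (Set.finite_Iio (2 * X)).subset fun x hx => hx.2.1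
  have hle : Set.ncard {x : ℕ | X ≤ x ∧ x < 2 * X ∧ P X x} ≤
      Set.ncard {x : ℕ | X ≤ x ∧ x < 2 * X ∧ Q X x} := by
    refine Set.ncard_le_ncard ?_ hfin
    rintro x ⟨a1, a2, a3⟩
    exact ⟨a1, a2, hX3 x a1 a2 a3⟩
  have hle' : (Set.ncard {x : ℕ | X ≤ x ∧ x < 2 * X ∧ P X x} : ℝ) ≤
      Set.ncard {x : ℕ | X ≤ x ∧ x < 2 * X ∧ Q X x} := by exact_mod_cast hle
  have hXr : (1 : ℝ) ≤ X := by exact_mod_cast hX4
  have : 0 < c * X := by positivity
  linarith

theorem thm_Equiv (hB : St_Block) (hG : St_Gap) : St_Equiv := by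
  classical
  intro A σ hσ hA
  obtain ⟨c₁, -, hB⟩ := hB
  obtain ⟨c₀, hc₀, hG⟩ := hG
  constructor
  · constructor
    · intro h
      refine ⟨1 / 2, 1 / 2, by norm_num, by norm_num, by norm_num, fun ε hε => ?_⟩
      refine Filter.Eventually.frequently ?_
      filter_upwards [eventually_ge_atTop 4] with X hX
      have hempty : {x : ℕ | X ≤ x ∧ x < 2 * X ∧
          (cn (outE σ A) x ((x : ℝ) ^ (1 / 2 : ℝ)) : ℝ) < 1 / 2 * (x : ℝ) ^ (1 / 2 : ℝ)} = ∅ := by
        rw [Set.eq_empty_iff_forall_notMem]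
        rintro x ⟨hx1, hx2, hx3⟩
        have hx4 : (4 : ℝ) ≤ x := by exact_mod_cast hX.trans hx1
        have hL0 : (0 : ℝ) ≤ (x : ℝ) ^ (1 / 2 : ℝ) := by positivity
        have hL2 : (2 : ℝ) ≤ (x : ℝ) ^ (1 / 2 : ℝ) := by
          have e1 : (2 : ℝ) = (4 : ℝ) ^ (1 / 2 : ℝ) := by
            rw [show (4 : ℝ) = 2 ^ (2 : ℝ) by norm_num, ← Real.rpow_mul (by norm_num)]
            norm_num
          exact e1.trans_le (Real.rpow_le_rpow (by norm_num) hx4 (by norm_num))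
        rw [cn_eq _ x hL0] at hx3
        have e2 : ((Ioc x (x + ⌊(x : ℝ) ^ (1 / 2 : ℝ)⌋₊)).filter fun n => n ∈ outE σ A) =
            Ioc x (x + ⌊(x : ℝ) ^ (1 / 2 : ℝ)⌋₊) := by
          rw [filter_eq_self]
          intro n hn
          rw [mem_Ioc] at hn
          exact Equiv_out hσ h (lt_of_le_of_lt (Nat.zero_le x) hn.1)
        rw [e2, Nat.card_Ioc, Nat.add_sub_cancel_left] at hx3
        have e3 := Nat.lt_floor_add_one ((x : ℝ) ^ (1 / 2 : ℝ))
        linarith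
      rw [hempty, Set.ncard_empty, Nat.cast_zero]
      positivity
    · rintro ⟨θ, η, hθ0, hθ1, hη, h⟩ a ha hpos
      obtain ⟨d, hd0, hE, hd⟩ := Equiv_dens hσ hA ha hpos
      obtain ⟨c, hc, hB⟩ := hB θ hθ0 hθ1 (η / 2) (by positivity)
      have h1 := hB 0 A σ d hσ hE hd hd0
      refine Equiv_contra (c := c * d) (by positivity) h1 (h (c * d / 2) (by positivity)) ?_
      filter_upwards [eventually_ge_atTop 1] with X hX x hx1 _ hx3
      have hx0 : (0 : ℝ) < x := by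
        have : 0 < x := by omega
        exact_mod_cast this
      have hp : (0 : ℝ) < η * (x : ℝ) ^ θ := by positivity
      refine lt_of_le_of_lt hx3.1 ?_
      have : η / 2 * (x : ℝ) ^ θ = η * (x : ℝ) ^ θ / 2 := by ring
      rw [this]
      linarith
  · constructor
    · intro h
      refine ⟨1 / 2, c₀ / 2, by norm_num, by norm_num, by positivity, fun ε hε => ?_⟩
      refine Filter.Eventually.frequently ?_
      have hlog : Tendsto (fun X : ℕ => Real.log (X : ℝ)) atTop atTop :=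
        Real.tendsto_log_atTop.comp tendsto_natCast_atTop_atTop
      filter_upwards [hG (1 / 2) (by norm_num) (by norm_num), eventually_ge_atTop 4,
        hlog.eventually_ge_atTop (max 1 (1 / ε))] with X hX hX4 hXl
      have hXr : (4 : ℝ) ≤ X := by exact_mod_cast hX4
      have hX0 : (0 : ℝ) < X := by linarith
      have hl1 : 1 ≤ Real.log X := (le_max_left _ _).trans hXl
      have hl2 : 1 / ε ≤ Real.log X := (le_max_right _ _).trans hXl
      have hsub : {x : ℕ | X ≤ x ∧ x < 2 * X ∧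
          (cn (outP σ A) x ((x : ℝ) ^ (1 / 2 : ℝ)) : ℝ) <
            c₀ / 2 * (x : ℝ) ^ (1 / 2 : ℝ) / Real.log x} ⊆
          (((Ico X (2 * X)).filter fun x =>
            (cn {n | n.Prime} x ((X : ℝ) ^ (1 / 2 : ℝ)) : ℝ) ≤
              c₀ * (X : ℝ) ^ (1 / 2 : ℝ) / Real.log X : Finset ℕ) : Set ℕ) := by
        rintro x ⟨hx1, hx2, hx3⟩
        rw [mem_coe, mem_filter, mem_Ico]
        refine ⟨⟨hx1, hx2⟩, ?_⟩
        have y1 : (X : ℝ) ≤ x := by exact_mod_cast hx1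
        have y2 : (x : ℝ) ≤ 2 * X := by exact_mod_cast hx2.le
        have y0 : (0 : ℝ) < x := by linarith
        have e1 : (X : ℝ) ^ (1 / 2 : ℝ) ≤ (x : ℝ) ^ (1 / 2 : ℝ) :=
          Real.rpow_le_rpow hX0.le y1 (by norm_num)
        have e2 : (x : ℝ) ^ (1 / 2 : ℝ) ≤ 2 * (X : ℝ) ^ (1 / 2 : ℝ) := by
          calc (x : ℝ) ^ (1 / 2 : ℝ) ≤ (2 * (X : ℝ)) ^ (1 / 2 : ℝ) :=
                Real.rpow_le_rpow y0.le y2 (by norm_num)
            _ = (2 : ℝ) ^ (1 / 2 : ℝ) * (X : ℝ) ^ (1 / 2 : ℝ) :=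
                Real.mul_rpow (by norm_num) hX0.le
            _ ≤ 2 * (X : ℝ) ^ (1 / 2 : ℝ) := by
                refine mul_le_mul_of_nonneg_right ?_ (by positivity)
                calc (2 : ℝ) ^ (1 / 2 : ℝ) ≤ (2 : ℝ) ^ (1 : ℝ) :=
                      Real.rpow_le_rpow_of_exponent_le (by norm_num) (by norm_num)
                  _ = 2 := Real.rpow_one 2
        have e3 : Real.log X ≤ Real.log x := Real.log_le_log hX0 y1
        have e4 : cn {n | n.Prime} x ((x : ℝ) ^ (1 / 2 : ℝ)) =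
            cn (outP σ A) x ((x : ℝ) ^ (1 / 2 : ℝ)) := by
          unfold cn
          congr 1
          ext n
          constructor
          · rintro ⟨a1, a2, a3⟩
            exact ⟨a1, a2, a3, Equiv_out hσ h (lt_of_le_of_lt (Nat.zero_le x) a1)⟩
          · rintro ⟨a1, a2, a3, -⟩
            exact ⟨a1, a2, a3⟩
        refine (Block_mono _ x e1).trans ?_
        rw [e4]
        refine hx3.le.trans ?_
        have e5 : c₀ / 2 * (x : ℝ) ^ (1 / 2 : ℝ) / Real.log x ≤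
            c₀ / 2 * (x : ℝ) ^ (1 / 2 : ℝ) / Real.log X :=
          div_le_div_of_nonneg_left (by positivity) (by linarith) e3
        refine e5.trans (div_le_div_of_nonneg_right ?_ (by linarith))
        nlinarith
      have hcard := hX ((Ico X (2 * X)).filter fun x =>
            (cn {n | n.Prime} x ((X : ℝ) ^ (1 / 2 : ℝ)) : ℝ) ≤
              c₀ * (X : ℝ) ^ (1 / 2 : ℝ) / Real.log X) (filter_subset _ _)
        (fun x hx => (mem_filter.1 hx).2)
      have h1 := Set.ncard_le_ncard hsub (Finset.finite_toSet _)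
      rw [Set.ncard_coe_finset] at h1
      have h2 : (Set.ncard {x : ℕ | X ≤ x ∧ x < 2 * X ∧
          (cn (outP σ A) x ((x : ℝ) ^ (1 / 2 : ℝ)) : ℝ) <
            c₀ / 2 * (x : ℝ) ^ (1 / 2 : ℝ) / Real.log x} : ℝ) ≤ _ := Nat.cast_le.2 h1
      refine h2.trans (hcard.trans ?_)
      rw [div_le_iff₀ (by linarith)]
      rw [div_le_iff₀ hε] at hl2
      nlinarith
    · rintro ⟨θ, η, hθ0, hθ1, hη, h⟩ a ha hpos
      obtain ⟨d, hd0, hE, hd⟩ := Equiv_dens hσ hA ha hpos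
      obtain ⟨c, hc, hB⟩ := hB θ hθ0 hθ1 (η / 2) (by positivity)
      have h1 := hB 0 A σ d hσ hE hd hd0
      refine Equiv_contra (c := c * d) (by positivity) h1 (h (c * d / 2) (by positivity)) ?_
      filter_upwards [eventually_ge_atTop 3] with X hX x hx1 _ hx3
      have hx3' : (3 : ℝ) ≤ x := by exact_mod_cast hX.trans hx1
      have hx0 : (0 : ℝ) < x := by linarith
      have hlog : 0 < Real.log x := Real.log_pos (by linarith)
      have hp : (0 : ℝ) < η * (x : ℝ) ^ θ / Real.log x := by positivity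
      refine lt_of_le_of_lt hx3.2.1 ?_
      have : η / 2 * (x : ℝ) ^ θ / Real.log x = η * (x : ℝ) ^ θ / Real.log x / 2 := by ring
      rw [this]
      linarith

end Pool.Agent.ZOL
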