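import Pool.Agent.ZOL.St
import Pool.Agent.CPR.Est

set_option autoImplicit false

/-!
# ZOL [Est]: the central estimate
-/

namespace Pool.Agent.ZOL

open Finset Filter
open Pool.Agent.Collatz3 (cw)
open Pool.Agent.Collatz3.Mix (words)
open Pool.Agent.Collatz3.PD (rd en Fw II P Per P_nonneg P_mono)
open Pool.Agent.Collatz3.FW (Hit)
open Pool.Agent.Collatz3.DN (EvInv)
open Pool.Agent.Helper14 (T)
open Pool.Agent.CPR (Dp tt zz Ob Wi Ev bad Dens GJ fJ fJ_nonneg fJ_per mem_Ob sig_sq St_Per St_Mix2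
  St_Mass St_Blk St_Inv St_Sum1 Est_pow Est_size Est_blk Est_one Est_Psum Est_fib Est_off
  Est_bad_nonneg Est_bad_per Est_mix Est_cardO Est_sqle Est_dev)

open Classical in
theorem Est_main (hX : St_Mix2) (hM : St_Mass) (hPer : St_Per) {A : Set ℤ} {σ : ℤ}
    (hσ : σ = 1 ∨ σ = -1) {B J K k k₁ s s' X n m D r : ℕ} {δ : ℝ} (hδ : 0 ≤ δ)
    (hk : 1 ≤ k) (hJ : J ≤ k) (hst : r + s + s' = tt K J k k₁) (hr : r ≤ k)
    (hL5 : (2 : ℝ) ^ (5 * k) ≤ 3 ^ (J * k) * (3 ^ k₁ * ll B X / 2 ^ s') / 2 ^ s)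
    (hz : (2 : ℝ) ^ (n + m) * 3 ^ k ≤ 3 ^ (J * k + k₁) / 2 ^ tt K J k k₁ * X)
    (hP : ∀ x, X ≤ x → x < 2 * X → Ev σ A n D (zz K J k k₁ x) →
      ∀ b ∈ Wi σ (3 ^ k₁ * x / 2 ^ s') (3 ^ k₁ * ll B X / 2 ^ s') k J s, b ∉ A →
      |σ * b - 2 ^ r * (zz K J k k₁ x : ℤ)| ≤ 2 ^ (8 * k) ∧
      1 ≤ bad n m D r σ (σ * b - 2 ^ r * (zz K J k k₁ x : ℤ)) (zz K J k k₁ x))
    (hA : ∀ o : ℤ, |o| ≤ 2 ^ (8 * k) →
      ∑ i ∈ range (2 ^ (n + m)), bad n m D r σ o (i : ℤ) ≤ δ * 2 ^ (n + m)) :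
    ∑ x ∈ (Ico X (2 * X)).filter (fun x => Ev σ A n D (zz K J k k₁ x)),
      ∑ b ∈ (Wi σ (3 ^ k₁ * x / 2 ^ s') (3 ^ k₁ * ll B X / 2 ^ s') k J s).filter (fun b => b ∉ A),
        fJ k J s b ≤
    12 * (3 ^ k₁ * ll B X / 2 ^ s') * X *
      P ((words (II k) (J * k)).filter fun w => w.sum = s) * δ := by
  set ℓ : ℝ := 3 ^ k₁ * ll B X / 2 ^ s' with hℓ
  set p : ℕ := 3 ^ (J * k + k₁) with hp
  set Q : ℕ := 2 ^ tt K J k k₁ with hQ
  set V : ℝ := (J : ℝ) * (5 / 4) ^ k with hVd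
  set W : ℝ := 3 ^ (J * k) * ℓ / 2 ^ s with hW
  set O : Finset ℤ := (Icc ⌈-V⌉ ⌊(2 : ℝ) ^ r + W + V⌋).filter (fun o : ℤ => |o| ≤ 2 ^ (8 * k))
    with hO
  have hp0 : 0 < p := by positivity
  have hQ0 : 0 < Q := by positivity
  have hpR : (p : ℝ) = 3 ^ (J * k + k₁) := by rw [hp]; push_cast; rfl
  have hQR : (Q : ℝ) = 2 ^ tt K J k k₁ := by rw [hQ]; push_cast; rfl
  have hpR0 : (0 : ℝ) < p := by exact_mod_cast hp0
  have hQR0 : (0 : ℝ) < Q := by exact_mod_cast hQ0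
  have hzz : ∀ x, zz K J k k₁ x = p * x / Q := fun x => rfl
  have hpQ : (p : ℝ) ≤ Q := by
    rw [hpR, hQR]
    have e1 : (3 : ℝ) ^ (J * k + k₁) ≤ 4 ^ (J * k + k₁) :=
      pow_le_pow_left₀ (by norm_num) (by norm_num) _
    have e2 : (4 : ℝ) ^ (J * k + k₁) = 2 ^ (2 * (J * k + k₁)) := by
      rw [pow_mul]
      norm_num
    rw [e2] at e1
    refine e1.trans (pow_le_pow_right₀ (by norm_num) ?_)
    unfold tt
    omega
  have hO2 : (O.card : ℝ) ≤ 2 * W := Est_cardO hk hJ hr hL5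
  have hW0 : 0 < W := lt_of_lt_of_le (by positivity) hL5
  have hbad := Est_bad_nonneg hPer
  -- the position of `b`
  have step1 : ∀ x ∈ (Ico X (2 * X)).filter (fun x => Ev σ A n D (zz K J k k₁ x)),
      ∑ b ∈ (Wi σ (3 ^ k₁ * x / 2 ^ s') ℓ k J s).filter (fun b => b ∉ A), fJ k J s b ≤
      ∑ o ∈ O, fJ k J s (σ * (2 ^ r * ((p * x / Q : ℕ) : ℤ) + o)) *
        bad n m D r σ o ((p * x / Q : ℕ) : ℤ) := by
    intro x hx
    rw [mem_filter, mem_Ico] at hx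
    have hPx := hP x hx.1.1 hx.1.2 hx.2
    rw [hzz] at hPx
    refine Est_off (c := 2 ^ r * ((p * x / Q : ℕ) : ℤ)) hσ (fJ_nonneg k J s)
      (fun o => hbad n m D r σ o _) ?_ ?_
    · intro b hb
      rw [mem_filter] at hb
      have h1 := hPx b hb.1 hb.2
      have h2 := hb.1
      unfold Wi at h2
      rw [mem_Ob hσ] at h2
      have e0 : (3 : ℝ) ^ (J * k) * (3 ^ k₁ * x / 2 ^ s') / 2 ^ s = 2 ^ r * (p * x / Q) := by
        rw [hpR, hQR, ← hst, pow_add, pow_add, pow_add]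
        field_simp
      have e1 : ((p * x / Q : ℕ) : ℝ) ≤ (p : ℝ) * x / Q := by
        have := @Nat.cast_div_le ℝ _ _ _ (p * x) Q
        push_cast at this
        exact this
      have e2 : (p : ℝ) * x / Q < ((p * x / Q : ℕ) : ℝ) + 1 := by
        rw [div_lt_iff₀ hQR0]
        have : p * x < (p * x / Q + 1) * Q := by
          rw [← Nat.div_lt_iff_lt_mul hQ0]
          exact Nat.lt_succ_self _
        exact_mod_cast this
      have h0r : (0 : ℝ) < 2 ^ r := by positivity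
      have e3 : (2 : ℝ) ^ r * ((p * x / Q : ℕ) : ℝ) ≤ 2 ^ r * (p * x / Q) :=
        mul_le_mul_of_nonneg_left e1 h0r.le
      have e4 : (2 : ℝ) ^ r * (p * x / Q) ≤ 2 ^ r * ((p * x / Q : ℕ) : ℝ) + 2 ^ r := by
        have := mul_le_mul_of_nonneg_left e2.le h0r.le
        linarith
      have e5 : (3 : ℝ) ^ (J * k) * (3 ^ k₁ * x / 2 ^ s' + ℓ) / 2 ^ s =
          3 ^ (J * k) * (3 ^ k₁ * x / 2 ^ s') / 2 ^ s + W := by
        rw [hW]
        ring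
      have h3 := h2.2.1
      have h4 := h2.2.2
      rw [e5, e0] at h4
      rw [e0] at h3
      rw [hO, mem_filter, mem_Icc]
      refine ⟨⟨Int.ceil_le.2 ?_, Int.le_floor.2 ?_⟩, h1.1⟩
      · rw [Int.cast_sub]
        have e6 : (((2 : ℤ) ^ r * ((p * x / Q : ℕ) : ℤ) : ℤ) : ℝ) =
            2 ^ r * ((p * x / Q : ℕ) : ℝ) := by
          rw [Int.cast_mul, Int.cast_pow, Int.cast_natCast]
          norm_num
        rw [e6]
        linarith
      · rw [Int.cast_sub]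
        have e6 : (((2 : ℤ) ^ r * ((p * x / Q : ℕ) : ℤ) : ℤ) : ℝ) =
            2 ^ r * ((p * x / Q : ℕ) : ℝ) := by
          rw [Int.cast_mul, Int.cast_pow, Int.cast_natCast]
          norm_num
        rw [e6]
        linarith
    · intro b hb
      rw [mem_filter] at hb
      exact (hPx b hb.1 hb.2).2
  have step2 : ∑ x ∈ (Ico X (2 * X)).filter (fun x => Ev σ A n D (zz K J k k₁ x)),
      ∑ b ∈ (Wi σ (3 ^ k₁ * x / 2 ^ s') ℓ k J s).filter (fun b => b ∉ A), fJ k J s b ≤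
      ∑ o ∈ O, ∑ x ∈ Ico X (2 * X), fJ k J s (σ * (2 ^ r * ((p * x / Q : ℕ) : ℤ) + o)) *
        bad n m D r σ o ((p * x / Q : ℕ) : ℤ) := by
    rw [sum_comm]
    refine (sum_le_sum step1).trans ?_
    refine sum_le_sum_of_subset_of_nonneg (filter_subset _ _) fun x _ _ => ?_
    exact sum_nonneg fun o _ => mul_nonneg (fJ_nonneg _ _ _ _) (hbad _ _ _ _ _ _ _)
  set pr := P ((words (II k) (J * k)).filter fun w => w.sum = s) with hpr
  have hpr0 : 0 ≤ pr := P_nonneg _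
  set L' : ℝ := (p : ℝ) / Q * X with hL'
  have hz' : (2 : ℝ) ^ (n + m) * 3 ^ k ≤ L' := by
    rw [hL', hpR, hQR]
    exact hz
  have h2L : 2 ≤ L' := by
    have e1 : (1 : ℝ) ≤ 2 ^ (n + m) := one_le_pow₀ (by norm_num)
    have e2 : (3 : ℝ) ≤ 3 ^ k := by
      calc (3 : ℝ) = 3 ^ 1 := by norm_num
        _ ≤ 3 ^ k := pow_le_pow_right₀ (by norm_num) hk
    nlinarith
  have hLL : ((p * (2 * X) / Q - p * X / Q + 1 : ℕ) : ℝ) ≤ 2 * L' := by
    have e0 : p * X / Q ≤ p * (2 * X) / Q :=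
      Nat.div_le_div_right (Nat.mul_le_mul_left p (by omega))
    have e1 : ((p * (2 * X) / Q : ℕ) : ℝ) ≤ 2 * L' := by
      have := @Nat.cast_div_le ℝ _ _ _ (p * (2 * X)) Q
      push_cast at this
      have e3 : (p : ℝ) * (2 * X) / Q = 2 * L' := by
        rw [hL']
        ring
      rw [e3] at this
      exact this
    have e2 : L' < ((p * X / Q : ℕ) : ℝ) + 1 := by
      have e3 : L' = (p : ℝ) * X / Q := by
        rw [hL']
        ring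
      rw [e3, div_lt_iff₀ hQR0]
      have : p * X < (p * X / Q + 1) * Q := by
        rw [← Nat.div_lt_iff_lt_mul hQ0]
        exact Nat.lt_succ_self _
      exact_mod_cast this
    rw [Nat.cast_add, Nat.cast_sub e0, Nat.cast_one]
    linarith
  have step3 : ∀ o ∈ O, ∑ x ∈ Ico X (2 * X),
      fJ k J s (σ * (2 ^ r * ((p * x / Q : ℕ) : ℤ) + o)) *
        bad n m D r σ o ((p * x / Q : ℕ) : ℤ) ≤
      ((Q : ℝ) / p + 1) * (3 * L' * (2 ^ s / 3 ^ (J * k) * pr) * δ) := by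
    intro o ho
    rw [hO, mem_filter] at ho
    have h1 := Est_fib (X := X) hp0 hQ0
      (fun z : ℕ => fJ k J s (σ * (2 ^ r * (z : ℤ) + o)) * bad n m D r σ o (z : ℤ))
      (fun z => mul_nonneg (fJ_nonneg _ _ _ _) (hbad _ _ _ _ _ _ _))
    refine h1.trans (mul_le_mul_of_nonneg_left ?_ (by positivity))
    have h2 := Est_mix hX hM hPer hσ (J := J) (s := s) (hA o ho.2) ((p * X / Q : ℕ) : ℤ)
      (p * (2 * X) / Q - p * X / Q + 1) hLL hz'
    refine le_trans (le_of_eq ?_) h2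
    refine sum_congr rfl fun i _ => ?_
    simp only [Nat.cast_add]
  refine step2.trans ((sum_le_sum step3).trans ?_)
  rw [sum_const, nsmul_eq_mul]
  have hL'0 : 0 ≤ L' := by linarith
  have h3 : (O.card : ℝ) * (((Q : ℝ) / p + 1) * (3 * L' * (2 ^ s / 3 ^ (J * k) * pr) * δ)) ≤
      2 * W * (((Q : ℝ) / p + 1) * (3 * L' * (2 ^ s / 3 ^ (J * k) * pr) * δ)) := by
    refine mul_le_mul_of_nonneg_right hO2 ?_
    positivity
  refine h3.trans ?_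
  have h4 : 2 * W * (((Q : ℝ) / p + 1) * (3 * L' * (2 ^ s / 3 ^ (J * k) * pr) * δ)) =
      6 * ℓ * X * pr * δ * (1 + (p : ℝ) / Q) := by
    rw [hW, hL']
    field_simp
    ring
  rw [h4]
  have h5 : (p : ℝ) / Q ≤ 1 := (div_le_one hQR0).2 hpQ
  have hℓ0 : 0 ≤ ℓ := by
    rw [hℓ]
    unfold ll
    positivity
  have h6 : 0 ≤ 6 * ℓ * X * pr * δ := by positivity
  nlinarith

/-- The sizes needed for the mixing. -/
theorem Est_hz {B K J k k₁ X : ℕ} (hB : 2 ≤ B) (hX1 : 1 ≤ X) (hk : 4 ≤ k) (hJ : 40 * B ≤ J)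
    (hJk : 2 * (J * k) + 30 * k ≤ 5 * (Nat.log 2 X + 1)) (h : aa B X ≤ (zz K J k k₁ X : ℝ)) :
    (2 : ℝ) ^ (nn B X + mm B X) * 3 ^ k ≤ 3 ^ (J * k + k₁) / 2 ^ tt K J k k₁ * X := by
  have e2 : (3 : ℝ) ^ k ≤ 2 ^ (2 * k) := by
    rw [pow_mul]
    exact pow_le_pow_left₀ (by norm_num) (by norm_num) k
  have e3 : (2 : ℝ) ^ (nn B X + mm B X) * 3 ^ k ≤ 2 ^ (nn B X + mm B X + 2 * k) := by
    rw [pow_add _ (nn B X + mm B X)]
    exact mul_le_mul_of_nonneg_left e2 (by positivity)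
  have e4 : (2 : ℝ) ^ (nn B X + mm B X + 2 * k) ≤ aa B X := by
    refine le_aa (by omega) ?_ (by omega)
    have h1 := B_nm B X
    have h2 : 40 * B * k ≤ J * k := Nat.mul_le_mul_right k hJ
    have h3 : 40 * B * k = 40 * (B * k) := by ring
    have h4 : B * (nn B X + mm B X + 2 * k) = B * (nn B X + mm B X) + 2 * (B * k) := by ring
    omega
  have e5 : (zz K J k k₁ X : ℝ) ≤ 3 ^ (J * k + k₁) / 2 ^ tt K J k k₁ * X := by
    unfold zz
    have h1 := @Nat.cast_div_le ℝ _ _ _ (3 ^ (J * k + k₁) * X) (2 ^ tt K J k k₁)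
    rw [Nat.cast_mul, Nat.cast_pow, Nat.cast_pow] at h1
    refine h1.trans (le_of_eq ?_)
    norm_num
    ring
  exact e3.trans (e4.trans (h.trans e5))

theorem thm_Est (hB : St_Blk) (hI : St_Inv) (hS : St_Sum1) (hM : St_Mass)
    (hT : Pool.Agent.Collatz3.PR.St_Tail3) (hP : St_Ptw) (hA : St_AvB) (hX : St_Mix2)
    (hPer : St_Per) (hR : St_Par) : St_Est := by
  classical
  obtain ⟨CT, hCT, hT⟩ := hT
  refine ⟨6 * CT, by positivity, fun B hB2 K hK δ hδ => ?_⟩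
  obtain ⟨J₁, hJB, hJ₁⟩ := hA B hB2 (δ / 24) (by positivity)
  refine ⟨J₁, hJB, fun J hJJ₁ C A σ hσ hinv => ?_⟩
  have hJ40 : 40 * B ≤ J := hJB.trans hJJ₁
  have hJ3 : 3 ≤ J := by omega
  obtain ⟨kB, hkB⟩ := eventually_atTop.1 (hB J hJ3)
  obtain ⟨kI, hkI⟩ := eventually_atTop.1 (hI J hJ3 C)
  obtain ⟨kd, hkd⟩ := exists_nat_ge (2 / δ)
  obtain ⟨M, hMd⟩ : ∃ M, M = kB + kI + kd + J + 4 := ⟨_, rfl⟩
  filter_upwards [hR B K J M hB2 hK hJ40, hP B K J hB2 hK hJ40 C A σ hσ hinv, hJ₁ J hJJ₁ K hK,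
    eventually_ge_atTop 1] with X hR hP hA hX1 k₁ k s' hk₁ hrel hs1 hs2
  obtain ⟨r1, r2, r3, r4, r5, r6⟩ := hR k₁ k hk₁ hrel
  obtain ⟨r7, r8⟩ := r6 s' hs1 hs2
  have hk4 : 4 ≤ k := by omega
  have hJk : J ≤ k := by omega
  have hDk : 2 * Dp K J k ≤ k := by
    have : 2 * Dp K J k ≤ M * Dp K J k := Nat.mul_le_mul_right _ (by omega)
    omega
  have hk₁' : 4 * k₁ ^ 2 ≤ k := by
    have : 4 * k₁ ^ 2 ≤ M * k₁ ^ 2 := Nat.mul_le_mul_right _ (by omega)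
    omega
  have hkR : (0 : ℝ) < k := by exact_mod_cast (by omega : 0 < k)
  have hkδ : 1 / (k : ℝ) ≤ δ / 2 := by
    rw [div_le_iff₀ hkR]
    have h1 : 2 / δ ≤ (k : ℝ) := hkd.trans (by exact_mod_cast (by omega : kd ≤ k))
    rw [div_le_iff₀ hδ] at h1
    linarith
  obtain ⟨ℓ, hℓ⟩ : ∃ ℓ : ℝ, ℓ = 3 ^ k₁ * ll B X / 2 ^ s' := ⟨_, rfl⟩
  obtain ⟨Gd, hGd⟩ : ∃ Gd : Finset ℕ, Gd = (Ico X (2 * X)).filter (fun x =>
      Ev σ A (nn B X) (2 * Dp K J k) (zz K J k k₁ x)) := ⟨_, rfl⟩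
  rw [← hℓ]
  rw [← hℓ] at r7 r8
  have hℓ0 : 0 ≤ ℓ := by
    rw [hℓ]
    unfold ll
    positivity
  -- the bound for one window
  obtain ⟨Sx, hSx⟩ : ∃ Sx : ℕ → ℕ → ℝ, ∀ x s, Sx x s =
      ∑ b ∈ (Wi σ (3 ^ k₁ * x / 2 ^ s') ℓ k J s).filter (fun b => b ∉ A), fJ k J s b :=
    ⟨_, fun _ _ => rfl⟩
  have b1 : ∀ x ∈ Gd, (((Ob σ (3 ^ k₁ * x / 2 ^ s') (3 ^ k₁ * x / 2 ^ s' + ℓ)).filter
      fun n => n ∉ A).card : ℝ) ≤
      ∑ s ∈ Icc ((2 * J - 1) * k) ((2 * J + 1) * k), Sx x s + ℓ / k := by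
    intro x hx
    rw [hGd, mem_filter, mem_Ico] at hx
    have h1 := Est_blk (α := 3 ^ k₁ * (x : ℝ) / 2 ^ s') (ℓ := ℓ) (A := A) hσ hJk
      (fun F => hkB k (by omega) σ hσ (3 ^ k₁ * (x : ℝ) / 2 ^ s') ℓ F (by positivity) r7)
      (fun w hw b hb hrd => (hkI k (by omega) A hinv J w hw b hb hrd).1)
      (fun s h1 h2 => by
        have h3 := (r8 s h1 h2).2.2 x hx.1.1
        refine le_trans ?_ h3
        have h4 : (2 : ℝ) ≤ M := by exact_mod_cast (by omega : 2 ≤ M)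
        exact mul_le_mul_of_nonneg_right h4 (by positivity))
    refine h1.trans (le_of_eq ?_)
    congr 1
    exact sum_congr rfl fun s _ => (hSx x s).symm
  -- splitting of the sums
  obtain ⟨Q, hQ⟩ : ∃ Q : ℕ → Prop, ∀ s, Q s ↔
      (2 * (J * k + k₁) ≤ s + s' + Dp K J k ∧ s + s' ≤ 2 * (J * k + k₁) + Dp K J k) :=
    ⟨_, fun _ => Iff.rfl⟩
  obtain ⟨I, hId⟩ : ∃ I, I = Icc ((2 * J - 1) * k) ((2 * J + 1) * k) := ⟨_, rfl⟩
  have hmemI : ∀ s ∈ I, (2 * J - 1) * k ≤ s ∧ s ≤ (2 * J + 1) * k := fun s hs => by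
    rw [hId, mem_Icc] at hs
    exact hs
  obtain ⟨pr, hpr⟩ : ∃ pr : ℕ → ℝ, ∀ s, pr s =
      P ((words (II k) (J * k)).filter fun w => w.sum = s) := ⟨_, fun _ => rfl⟩
  have hW1 : P (words (II k) (J * k)) ≤ 1 := by
    rw [Pool.Agent.Collatz3.PD.P_words]
    exact pow_le_one₀ (Pool.Agent.Collatz3.PD.Z_nonneg _) (Pool.Agent.Collatz3.PD.Z_le_one _)
  -- the tail
  have c1 : ∀ x ∈ Gd, ∑ s ∈ I.filter (fun s => ¬ Q s), Sx x s ≤
      6 * ℓ * (CT * Real.exp (-(K / 4))) := by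
    intro x _
    have h1 : ∀ s ∈ I.filter (fun s => ¬ Q s), Sx x s ≤ 6 * ℓ * pr s := by
      intro s hs
      rw [mem_filter] at hs
      obtain ⟨m1, m2⟩ := hmemI s hs.1
      rw [hSx, hpr]
      have h2 : ∑ b ∈ (Wi σ (3 ^ k₁ * x / 2 ^ s') ℓ k J s).filter (fun b => b ∉ A), fJ k J s b ≤
          ∑ b ∈ Wi σ (3 ^ k₁ * x / 2 ^ s') ℓ k J s, fJ k J s b :=
        sum_le_sum_of_subset_of_nonneg (filter_subset _ _) fun b _ _ => fJ_nonneg _ _ _ _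
      refine h2.trans (Est_one hS hM hσ hJk (r8 s m1 m2).1 ?_)
      have e1 : 2 * (2 : ℝ) ^ (2 * k) = 2 ^ (2 * k + 1) := by
        rw [pow_succ]
        ring
      rw [e1]
      exact pow_le_pow_right₀ (by norm_num) (by omega)
    refine (sum_le_sum h1).trans ?_
    rw [← mul_sum]
    refine mul_le_mul_of_nonneg_left ?_ (by positivity)
    have h3 : ∑ s ∈ I.filter (fun s => ¬ Q s), pr s =
        P ((words (II k) (J * k)).filter fun w => w.sum ∈ I.filter (fun s => ¬ Q s)) := by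
      rw [← Est_Psum]
      exact sum_congr rfl fun s _ => hpr s
    rw [h3]
    have h4 := hT (II k) (J * k) (by nlinarith) ((K : ℝ) / 2) (by positivity)
    have h5 : (K : ℝ) / 2 / 2 = K / 4 := by ring
    rw [h5] at h4
    refine (P_mono ?_).trans h4
    intro w hw
    rw [mem_filter] at hw ⊢
    refine ⟨hw.1, ?_⟩
    have h6 := (mem_filter.1 hw.2).2
    rw [hQ] at h6
    exact Est_dev (by omega) hk₁' hK hs1 hs2 h6
  -- the main part
  have c2 : ∀ s ∈ I.filter Q, ∑ x ∈ Gd, Sx x s ≤ 12 * ℓ * X * pr s * (δ / 24) := by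
    intro s hs
    rw [mem_filter] at hs
    obtain ⟨m1, m2⟩ := hmemI s hs.1
    obtain ⟨q1, q2⟩ := (hQ s).1 hs.2
    have htt : tt K J k k₁ = 2 * (J * k + k₁) + Dp K J k := rfl
    have hrr : tt K J k k₁ - s - s' ≤ 2 * Dp K J k := by omega
    have h1 := Est_main (A := A) (K := K) (k₁ := k₁) (s := s) (s' := s') (X := X)
      (B := B) (n := nn B X) (m := mm B X) (D := 2 * Dp K J k)
      (r := tt K J k k₁ - s - s') (δ := δ / 24) hX hM hPer hσ (by positivity) (by omega) hJk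
      (by omega) (by omega) (by rw [← hℓ]; exact (r8 s m1 m2).1)
      (Est_hz hB2 hX1 hk4 hJ40 r4 (r5 X le_rfl).2.2)
      (fun x hx1 hx2 hev b hb hbA => hP k₁ k s s' x hk₁ hrel hs1 hs2 m1 m2 q1 q2 hx1 hx2 hev b
        hb hbA)
      (fun o ho => hA k₁ k hk₁ hrel _ σ o hσ hrr ho)
    rw [← hℓ, ← hGd, ← hpr] at h1
    refine le_trans (le_of_eq ?_) h1
    exact sum_congr rfl fun x _ => hSx x s
  have hGX : (Gd.card : ℝ) ≤ X := by
    have h1 : Gd.card ≤ (Ico X (2 * X)).card := by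
      rw [hGd]
      exact card_filter_le _ _
    rw [Nat.card_Ico] at h1
    exact_mod_cast (by omega : Gd.card ≤ X)
  have hprs : ∑ s ∈ I.filter Q, pr s ≤ 1 := by
    have h3 : ∑ s ∈ I.filter Q, pr s =
        P ((words (II k) (J * k)).filter fun w => w.sum ∈ I.filter Q) := by
      rw [← Est_Psum]
      exact sum_congr rfl fun s _ => hpr s
    rw [h3]
    exact (P_mono (filter_subset _ _)).trans hW1
  -- assembly
  have d1 : ∑ x ∈ Gd, (((Ob σ (3 ^ k₁ * x / 2 ^ s') (3 ^ k₁ * x / 2 ^ s' + ℓ)).filter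
      fun n => n ∉ A).card : ℝ) ≤
      ∑ x ∈ Gd, ∑ s ∈ I.filter (fun s => ¬ Q s), Sx x s + ∑ s ∈ I.filter Q, ∑ x ∈ Gd, Sx x s +
        Gd.card * (ℓ / k) := by
    refine (sum_le_sum b1).trans (le_of_eq ?_)
    rw [sum_add_distrib, sum_const, nsmul_eq_mul, ← hId]
    congr 1
    rw [sum_comm (s := I.filter Q), ← sum_add_distrib]
    refine sum_congr rfl fun x _ => ?_
    rw [add_comm]
    exact (sum_filter_add_sum_filter_not I Q (fun s => Sx x s)).symm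
  have d2 : ∑ x ∈ Gd, ∑ s ∈ I.filter (fun s => ¬ Q s), Sx x s ≤
      Gd.card * (6 * ℓ * (CT * Real.exp (-(K / 4)))) := by
    refine (sum_le_sum c1).trans (le_of_eq ?_)
    rw [sum_const, nsmul_eq_mul]
  have d3 : ∑ s ∈ I.filter Q, ∑ x ∈ Gd, Sx x s ≤ ℓ * X * (δ / 2) := by
    refine (sum_le_sum c2).trans ?_
    have e1 : ∑ s ∈ I.filter Q, 12 * ℓ * X * pr s * (δ / 24) =
        ℓ * X * (δ / 2) * ∑ s ∈ I.filter Q, pr s := by
      rw [mul_sum]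
      refine sum_congr rfl fun s _ => ?_
      ring
    rw [e1]
    exact mul_le_of_le_one_right (by positivity) hprs
  have d4 : (Gd.card : ℝ) * (ℓ / k) ≤ ℓ * X * (δ / 2) := by
    have e1 : (Gd.card : ℝ) * (ℓ / k) = ℓ * (Gd.card : ℝ) * (1 / k) := by ring
    rw [e1]
    gcongr
  rw [← hGd]
  refine d1.trans ?_
  calc ∑ x ∈ Gd, ∑ s ∈ I.filter (fun s => ¬ Q s), Sx x s + ∑ s ∈ I.filter Q, ∑ x ∈ Gd, Sx x s +
        Gd.card * (ℓ / k)
      ≤ Gd.card * (6 * ℓ * (CT * Real.exp (-(K / 4)))) + ℓ * X * (δ / 2) + ℓ * X * (δ / 2) := by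
        linarith
    _ = ℓ * (6 * CT * Real.exp (-(K / 4)) * Gd.card + δ * X) := by ring

end Pool.Agent.ZOL
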