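import Mathlib
import Pool.Agent.ZOL.St2
import Pool.Agent.Collatz3.ND

set_option autoImplicit false

/-!
# ZOL, module Even: `n` and `n + 1` are in the same class for almost all `n`
-/

namespace Pool.Agent.ZOL

open Finset Filter Topology
open Pool.Agent.Collatz3.DN (EvInv)

theorem Even_fin (P : ℕ → Prop) (x : ℝ) : {m : ℕ | (m : ℝ) ≤ x ∧ P m}.Finite :=
  (Set.finite_Iic ⌊x⌋₊).subset fun m hm => Nat.le_floor hm.1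

open Classical in
theorem Even_count (P Q : ℕ → Prop) (X : ℕ) :
    (((range X).filter fun n => ¬ (P n ↔ Q n)).card : ℝ) ≤
      (Set.ncard {m : ℕ | (m : ℝ) ≤ (X : ℝ) ∧ P m} : ℝ) +
      (Set.ncard {m : ℕ | (m : ℝ) ≤ (X : ℝ) ∧ Q m} : ℝ) -
      2 * (Set.ncard {m : ℕ | (m : ℝ) ≤ (X : ℝ) ∧ (P m ∧ Q m)} : ℝ) := by
  have f1 := Even_fin P X
  have f2 := Even_fin Q X
  have f3 := Even_fin (fun m => P m ∧ Q m) X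
  have h1 : ((range X).filter fun n => ¬ (P n ↔ Q n)).card ≤
      ({m : ℕ | (m : ℝ) ≤ (X : ℝ) ∧ P m} \ {m : ℕ | (m : ℝ) ≤ (X : ℝ) ∧ (P m ∧ Q m)}).ncard +
      ({m : ℕ | (m : ℝ) ≤ (X : ℝ) ∧ Q m} \ {m : ℕ | (m : ℝ) ≤ (X : ℝ) ∧ (P m ∧ Q m)}).ncard := by
    rw [← Set.ncard_coe_finset]
    refine le_trans (Set.ncard_le_ncard ?_ ((f1.subset Set.diff_subset).union
      (f2.subset Set.diff_subset))) (Set.ncard_union_le _ _)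
    intro n hn
    rw [mem_coe, mem_filter, mem_range] at hn
    have hx : (n : ℝ) ≤ (X : ℝ) := by exact_mod_cast hn.1.le
    simp only [Set.mem_union, Set.mem_diff, Set.mem_setOf_eq]
    by_cases hP : P n
    · left
      refine ⟨⟨hx, hP⟩, ?_⟩
      rintro ⟨_, _, hQ⟩
      exact hn.2 ⟨fun _ => hQ, fun _ => hP⟩
    · right
      have hQ : Q n := by
        by_contra hQ
        exact hn.2 ⟨fun h => absurd h hP, fun h => absurd h hQ⟩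
      exact ⟨⟨hx, hQ⟩, fun h => hP h.2.1⟩
  have s1 : {m : ℕ | (m : ℝ) ≤ (X : ℝ) ∧ (P m ∧ Q m)} ⊆ {m : ℕ | (m : ℝ) ≤ (X : ℝ) ∧ P m} :=
    fun m hm => ⟨hm.1, hm.2.1⟩
  have s2 : {m : ℕ | (m : ℝ) ≤ (X : ℝ) ∧ (P m ∧ Q m)} ⊆ {m : ℕ | (m : ℝ) ≤ (X : ℝ) ∧ Q m} :=
    fun m hm => ⟨hm.1, hm.2.2⟩
  have e1 := Set.ncard_sdiff_add_ncard_of_subset s1 f1
  have e2 := Set.ncard_sdiff_add_ncard_of_subset s2 f2
  have h2 : ((range X).filter fun n => ¬ (P n ↔ Q n)).card +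
      2 * {m : ℕ | (m : ℝ) ≤ (X : ℝ) ∧ (P m ∧ Q m)}.ncard ≤
      {m : ℕ | (m : ℝ) ≤ (X : ℝ) ∧ P m}.ncard + {m : ℕ | (m : ℝ) ≤ (X : ℝ) ∧ Q m}.ncard := by
    omega
  have h3 : (((range X).filter fun n => ¬ (P n ↔ Q n)).card : ℝ) +
      2 * ({m : ℕ | (m : ℝ) ≤ (X : ℝ) ∧ (P m ∧ Q m)}.ncard : ℝ) ≤
      ({m : ℕ | (m : ℝ) ≤ (X : ℝ) ∧ P m}.ncard : ℝ) +
      ({m : ℕ | (m : ℝ) ≤ (X : ℝ) ∧ Q m}.ncard : ℝ) := by exact_mod_cast h2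
  linarith

theorem thm_Even : St_Even := by
  intro C A σ hσ hA ε hε
  obtain ⟨c, hc, hN⟩ := Pool.Agent.Collatz3.ND.main
  have hσ' : |σ| = 1 := by rcases hσ with h | h <;> rw [h] <;> norm_num
  obtain ⟨d, h1, h2, -⟩ := hN σ hσ'
  have a1 := h1 C A hA 1 0 le_rfl
  have a2 := h2 C A hA {(0, σ)} 1 0 le_rfl
  have a3 := h1 C A hA 1 1 le_rfl
  have t : Tendsto (fun x : ℝ =>
      (Set.ncard {m : ℕ | (m : ℝ) ≤ x ∧ σ * (((1 : ℕ) : ℤ) * m + ((0 : ℕ) : ℤ)) ∈ A} : ℝ) / x +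
      (Set.ncard {m : ℕ | (m : ℝ) ≤ x ∧ σ * (((1 : ℕ) : ℤ) * m + ((1 : ℕ) : ℤ)) ∈ A} : ℝ) / x -
      2 * ((Set.ncard {m : ℕ | (m : ℝ) ≤ x ∧ σ * (((1 : ℕ) : ℤ) * m + ((0 : ℕ) : ℤ)) ∈
        {n : ℤ | n ∈ A ∧ ∀ s ∈ ({(0, σ)} : Finset (ℕ × ℤ)), 3 ^ s.1 * n + s.2 ∈ A}} : ℝ) / x))
      atTop (𝓝 (d A + d A - 2 * d A)) := (a1.add a3).sub (a2.const_mul 2)
  have e0 : d A + d A - 2 * d A = 0 := by ring
  rw [e0] at t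
  have t2 := (t.comp tendsto_natCast_atTop_atTop).eventually_lt_const hε
  filter_upwards [t2, eventually_gt_atTop 0] with X hX hX0
  have hXr : (0 : ℝ) < X := by exact_mod_cast hX0
  simp only [Function.comp_apply] at hX
  rw [← add_div, ← mul_div_assoc, ← sub_div, div_lt_iff₀ hXr] at hX
  refine le_trans (Even_count (fun n : ℕ => σ * (n : ℤ) ∈ A)
    (fun n : ℕ => σ * ((n : ℤ) + 1) ∈ A) X) ?_
  refine le_trans (le_of_eq ?_) hX.le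
  have s1 : {m : ℕ | (m : ℝ) ≤ (X : ℝ) ∧ σ * (m : ℤ) ∈ A} =
      {m : ℕ | (m : ℝ) ≤ (X : ℝ) ∧ σ * (((1 : ℕ) : ℤ) * m + ((0 : ℕ) : ℤ)) ∈ A} := by
    ext m; simp
  have s2 : {m : ℕ | (m : ℝ) ≤ (X : ℝ) ∧ σ * ((m : ℤ) + 1) ∈ A} =
      {m : ℕ | (m : ℝ) ≤ (X : ℝ) ∧ σ * (((1 : ℕ) : ℤ) * m + ((1 : ℕ) : ℤ)) ∈ A} := by
    ext m; simp
  have s3 : {m : ℕ | (m : ℝ) ≤ (X : ℝ) ∧ (σ * (m : ℤ) ∈ A ∧ σ * ((m : ℤ) + 1) ∈ A)} =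
      {m : ℕ | (m : ℝ) ≤ (X : ℝ) ∧ σ * (((1 : ℕ) : ℤ) * m + ((0 : ℕ) : ℤ)) ∈
        {n : ℤ | n ∈ A ∧ ∀ s ∈ ({(0, σ)} : Finset (ℕ × ℤ)), 3 ^ s.1 * n + s.2 ∈ A}} := by
    ext m
    have e : σ * (m : ℤ) + σ = σ * ((m : ℤ) + 1) := by ring
    simp [e]
  rw [s1, s2, s3]
  simp only [Set.mem_setOf_eq]

end Pool.Agent.ZOL
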