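import Mathlib
import Pool.Agent.ZOL.St
import Pool.Agent.CPR.Evt

set_option autoImplicit false

/-!
# ZOL, module Evt: many starting points satisfy the event
-/

namespace Pool.Agent.ZOL

open Finset Filter
open Pool.Agent.CPR hiding ll Rel St_Par St_Ptw St_AvB St_Est St_Evt St_Pers St_SvB
open Pool.Agent.Collatz3.DN (EvInv)
open Pool.Agent.Helper86.CollatzChain (periodic_eq sum_affine)

open Classical in
/-- Many starting points satisfy the event. -/
theorem thm_Evt (hD : St_D) (hH : St_Hit) (hP : St_Per) (hR : St_Par) : St_Evt := by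
  intro B hB K hK
  obtain ⟨c', hc', n₁, hn₁⟩ := hH (10 ^ 6 * B * K ^ 2)
  refine ⟨c' / 4, by positivity, ?_⟩
  intro J hJ C A σ d hσ hA hdens ε hε
  by_cases hde : d ≤ ε
  · refine Filter.Eventually.of_forall ?_
    intro X k₁ k _ _
    have h1 : c' / 4 * (d - ε) * X ≤ 0 := by
      have h2 : (0 : ℝ) ≤ X := Nat.cast_nonneg _
      have h3 : c' / 4 * (d - ε) ≤ 0 := by
        have : 0 < c' / 4 := by positivity
        nlinarith
      exact mul_nonpos_of_nonpos_of_nonneg h3 h2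
    exact h1.trans (Nat.cast_nonneg _)
  push Not at hde
  have ht : 0 < d - ε := by linarith
  obtain ⟨n₂, hn₂⟩ := hD C A σ d hσ hA hdens ε hε
  obtain ⟨M, hM⟩ := exists_nat_ge (4 / ((d - ε) * c'))
  filter_upwards [hR B K J (M + 1) hB hK hJ, eventually_ge_atTop (2 ^ (10000 * B * (n₁ + n₂ + 1)))]
    with X hX hXl k₁ k hk₁ hrel
  obtain ⟨g1, -, -, g4, g5, -⟩ := hX k₁ k hk₁ hrel
  obtain ⟨g6, -, g7⟩ := g5 X le_rfl
  have hX0 : X ≠ 0 := by
    have : 0 < 2 ^ (10000 * B * (n₁ + n₂ + 1)) := by positivity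
    omega
  have hN : 10000 * B * (n₁ + n₂ + 1) ≤ Nat.log 2 X := Nat.le_log_of_pow_le (by norm_num) hXl
  have hn1 : n₁ + n₂ + 1 ≤ nn B X := by
    unfold nn
    rw [Nat.le_div_iff_mul_le (by positivity)]
    calc (n₁ + n₂ + 1) * (10000 * B) = 10000 * B * (n₁ + n₂ + 1) := by ring
      _ ≤ _ := hN
  have hBn := B_nn B X
  have hNn : Nat.log 2 X < 20000 * (B * nn B X) := by
    have h1 : Nat.log 2 X < 10000 * B * (nn B X + 1) := by
      unfold nn
      exact Nat.lt_mul_div_succ _ (by positivity)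
    have h2 : B ≤ B * nn B X := Nat.le_mul_of_pos_right B (by omega)
    have h3 : 10000 * B * (nn B X + 1) = 10000 * (B * nn B X) + 10000 * B := by ring
    omega
  have hM0 : 1 ≤ 2 ^ mm B X := Nat.one_le_two_pow
  set N := Nat.log 2 X with hNdef
  set n := nn B X with hn
  -- the hitting probability
  have hDD : (2 * Dp K J k) ^ 2 ≤ 10 ^ 6 * B * K ^ 2 * n := by
    have hJk : 1 ≤ J * k := Nat.one_le_iff_ne_zero.2 (Nat.mul_ne_zero (by omega) (by omega))
    have hs1 : 1 ≤ Nat.sqrt (J * k) := Nat.le_sqrt'.2 (by omega)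
    have hs2 : Nat.sqrt (J * k) ^ 2 ≤ J * k := Nat.sqrt_le' _
    unfold Dp
    calc (2 * (K * (Nat.sqrt (J * k) + 1))) ^ 2
        = 4 * K ^ 2 * (Nat.sqrt (J * k) + 1) ^ 2 := by ring
      _ ≤ 4 * K ^ 2 * (4 * Nat.sqrt (J * k) ^ 2) := by
          apply Nat.mul_le_mul_left
          nlinarith
      _ ≤ 4 * K ^ 2 * (4 * (J * k)) := by
          apply Nat.mul_le_mul_left
          omega
      _ ≤ 4 * K ^ 2 * (250000 * (B * n)) := by
          apply Nat.mul_le_mul_left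
          omega
      _ = 10 ^ 6 * B * K ^ 2 * n := by ring
  have hhit := hn₁ n (2 * Dp K J k) (by omega) hDD 0
  -- the values
  have hZ : 2 ^ (6000 * n) ≤ zz K J k k₁ X + 1 := by
    have h1 : (2 : ℝ) ^ (6000 * n) ≤ aa B X := by
      apply le_aa (by omega) _ hX0
      have : B * (6000 * n) = 6000 * (B * n) := by ring
      rw [this]
      omega
    have h8 : (2 : ℝ) ^ (6000 * n) ≤ ((zz K J k k₁ X : ℕ) : ℝ) := h1.trans g7
    have h9 : 2 ^ (6000 * n) ≤ zz K J k k₁ X := by exact_mod_cast h8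
    omega
  have hres := Evt_res hP hσ A n (2 * Dp K J k) (zz K J k k₁ X + 1) (d - ε) c' ht.le hhit
    (fun r => hn₂ n (zz K J k k₁ X + 1) (by omega) hZ r)
  have hp : 1 ≤ 3 ^ (J * k + k₁) := Nat.one_le_pow _ _ (by norm_num)
  have hpq : 2 * 3 ^ (J * k + k₁) ≤ 2 ^ tt K J k k₁ := by
    have hDp : 1 ≤ Dp K J k := by
      unfold Dp
      exact Nat.one_le_iff_ne_zero.2 (Nat.mul_ne_zero (by omega) (by omega))
    have he : 2 ^ tt K J k k₁ = (2 ^ 2) ^ (J * k + k₁) * 2 ^ Dp K J k := by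
      unfold tt
      rw [pow_add, pow_mul]
    rw [he]
    calc 2 * 3 ^ (J * k + k₁) ≤ 2 * (2 ^ 2) ^ (J * k + k₁) :=
          Nat.mul_le_mul_left _ (Nat.pow_le_pow_left (by norm_num) _)
      _ = (2 ^ 2) ^ (J * k + k₁) * 2 ^ 1 := by ring
      _ ≤ (2 ^ 2) ^ (J * k + k₁) * 2 ^ Dp K J k :=
          Nat.mul_le_mul_left _ (Nat.pow_le_pow_right (by norm_num) hDp)
  have hcnt := Evt_cnt (X := X) hp hpq (Ev σ A n (2 * Dp K J k))
  set p := 3 ^ (J * k + k₁) with hpdef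
  set q := 2 ^ tt K J k k₁ with hqdef
  have hzzX : zz K J k k₁ X = p * X / q := rfl
  rw [hzzX] at hres g6
  have hp0 : (0 : ℝ) < (p : ℝ) := by exact_mod_cast (show 0 < p by omega)
  have hq0 : (0 : ℝ) < (q : ℝ) := by exact_mod_cast (show 0 < q by omega)
  have hZr : (p : ℝ) * X / q ≤ ((p * X / q + 1 : ℕ) : ℝ) := by
    rw [div_le_iff₀ hq0]
    have h1 : p * X < q * (p * X / q + 1) := Nat.lt_mul_div_succ _ (by omega)
    have h2 : ((p * X : ℕ) : ℝ) < ((q * (p * X / q + 1) : ℕ) : ℝ) := by exact_mod_cast h1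
    rw [Nat.cast_mul, Nat.cast_mul q] at h2
    linarith
  have hZM : (4 : ℝ) ≤ (d - ε) * c' * ((p * X / q + 1 : ℕ) : ℝ) := by
    have h1 : M ≤ p * X / q + 1 := by
      have h2 : (M + 1) * 1 ≤ (M + 1) * 2 ^ (n + mm B X) :=
        Nat.mul_le_mul_left _ (Nat.one_le_pow _ _ (by norm_num))
      omega
    have h3 : (M : ℝ) ≤ ((p * X / q + 1 : ℕ) : ℝ) := by exact_mod_cast h1
    have h4 : 0 < (d - ε) * c' := mul_pos ht hc'
    rw [div_le_iff₀ h4] at hM
    nlinarith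
  set Zr : ℝ := ((p * X / q + 1 : ℕ) : ℝ) with hZrdef
  have h10 : (d - ε) * c' * Zr / 2 ≤ ((((Ico (p * X / q + 1) (2 * (p * X / q + 1))).filter
      fun z => Ev σ A n (2 * Dp K J k) z).card : ℝ) - 2) := by
    have : (d - ε) * Zr * c' = (d - ε) * c' * Zr := by ring
    rw [this] at hres
    linarith
  have h11 : c' / 4 * (d - ε) * X ≤ (d - ε) * c' * Zr / 2 * ((q : ℝ) / (2 * p)) := by
    have h12 : (d - ε) * c' * ((p : ℝ) * X / q) / 2 * ((q : ℝ) / (2 * p)) =
        c' / 4 * (d - ε) * X := by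
      field_simp
      ring
    rw [← h12]
    apply mul_le_mul_of_nonneg_right _ (by positivity)
    have h13 : 0 < (d - ε) * c' := mul_pos ht hc'
    have := mul_le_mul_of_nonneg_left hZr h13.le
    linarith
  calc c' / 4 * (d - ε) * X ≤ (d - ε) * c' * Zr / 2 * ((q : ℝ) / (2 * p)) := h11
    _ ≤ ((((Ico (p * X / q + 1) (2 * (p * X / q + 1))).filter
      fun z => Ev σ A n (2 * Dp K J k) z).card : ℝ) - 2) * ((q : ℝ) / (2 * p)) :=
        mul_le_mul_of_nonneg_right h10 (by positivity)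
    _ ≤ _ := hcnt

end Pool.Agent.ZOL
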