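import Mathlib
import Pool.Agent.ZOL.Avg
import Pool.Agent.SI.Asm

set_option autoImplicit false

/-!
# ZOL, module Gap: primes in almost all intervals `(x, x + X^θ]`, `θ > 1/4`
-/

namespace Pool.Agent.ZOL

open Finset Filter

open Classical in
/-- the count of `SI.gap` is at most `cn` -/
theorem Gap_le (X x : ℕ) (L : ℝ) :
    (((Icc X (3 * X)).filter (fun p : ℕ => p.Prime ∧ x < p ∧ (p : ℝ) ≤ x + L)).card : ℝ) ≤
      (cn {n | n.Prime} x L : ℝ) := by
  have hf : Set.Finite {n : ℕ | x < n ∧ (n : ℝ) ≤ x + L ∧ n ∈ {n : ℕ | n.Prime}} := by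
    apply (Set.finite_Iic ⌈(x : ℝ) + L⌉₊).subset
    intro n hn
    rw [Set.mem_Iic]
    have h1 : (n : ℝ) ≤ ⌈(x : ℝ) + L⌉₊ := hn.2.1.trans (Nat.le_ceil _)
    exact_mod_cast h1
  have h2 : ((Icc X (3 * X)).filter (fun p : ℕ => p.Prime ∧ x < p ∧ (p : ℝ) ≤ x + L)).card ≤
      cn {n | n.Prime} x L := by
    unfold cn
    rw [← Set.ncard_coe_finset]
    apply Set.ncard_le_ncard _ hf
    intro n hn
    rw [mem_coe, mem_filter] at hn
    exact ⟨hn.2.2.1, hn.2.2.2, hn.2.1⟩
  exact_mod_cast h2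

theorem Gap_log : Tendsto (fun X : ℕ => Real.log (X : ℝ)) atTop atTop :=
  Real.tendsto_log_atTop.comp tendsto_natCast_atTop_atTop

/-- `C log X ≤ X ^ r` for large `X`. -/
theorem Gap_rpow (C r : ℝ) (hr : 0 < r) : ∀ᶠ X : ℕ in atTop, C * Real.log X ≤ (X : ℝ) ^ r := by
  have h1 := (isLittleO_log_rpow_atTop hr).comp_tendsto tendsto_natCast_atTop_atTop
  have h2 := h1.bound (show (0 : ℝ) < 1 / (|C| + 1) by positivity)
  filter_upwards [h2, Gap_log.eventually_ge_atTop 1, eventually_ge_atTop 1] with X hX h3 h4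
  simp only [Function.comp_apply] at hX
  have hX0 : (0 : ℝ) ≤ (X : ℝ) ^ r := by positivity
  rw [Real.norm_of_nonneg (by linarith), Real.norm_of_nonneg hX0] at hX
  have h5 : C ≤ |C| + 1 := (le_abs_self C).trans (by linarith)
  calc C * Real.log X ≤ (|C| + 1) * Real.log X := mul_le_mul_of_nonneg_right h5 (by linarith)
    _ ≤ (|C| + 1) * (1 / (|C| + 1) * (X : ℝ) ^ r) := mul_le_mul_of_nonneg_left hX (by positivity)
    _ = (X : ℝ) ^ r := by field_simp

/-- `C X ^ a ≤ X ^ b` for large `X`, `a < b`. -/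
theorem Gap_pow (C a b : ℝ) (hab : a < b) : ∀ᶠ X : ℕ in atTop, C * (X : ℝ) ^ a ≤ (X : ℝ) ^ b := by
  have h1 := ((tendsto_rpow_atTop (sub_pos.2 hab)).comp
    tendsto_natCast_atTop_atTop).eventually_ge_atTop C
  filter_upwards [h1, eventually_ge_atTop 1] with X hX h4
  have hX0 : (0 : ℝ) < X := by exact_mod_cast h4
  simp only [Function.comp_apply] at hX
  calc C * (X : ℝ) ^ a ≤ (X : ℝ) ^ (b - a) * (X : ℝ) ^ a :=
        mul_le_mul_of_nonneg_right hX (by positivity)
    _ = (X : ℝ) ^ b := by rw [← Real.rpow_add hX0]; congr 1; ring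

open Classical in
/-- the case `1/2 ≤ θ` -/
theorem Gap_long (c₀ : ℝ) (hc : 0 < c₀) (X : ℕ) (L l : ℝ) (hX : 1 ≤ Real.log X) (hl : 1 ≤ l)
    (hLl : 8 * l ≤ L) (hL0 : 0 < L)
    (hgap : ∀ F : Finset ℕ, F ⊆ Ico X (2 * X) → (∀ x ∈ F, (cn {n | n.Prime} x l : ℝ) ≤
      c₀ * l / Real.log X) → (F.card : ℝ) ≤ X / Real.log X ^ 2)
    (F : Finset ℕ) (hF : F ⊆ Ico X (2 * X))
    (h : ∀ x ∈ F, (cn {n | n.Prime} x L : ℝ) ≤ c₀ / 4 * L / Real.log X) :
    (F.card : ℝ) ≤ 2 * (X / Real.log X ^ 2 + L) := by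
  have hlog : 0 < Real.log X := by linarith
  set M : ℕ := ⌊L - l⌋₊ with hM
  have hLl0 : 0 ≤ L - l := by linarith
  have hM1 : (M : ℝ) ≤ L - l := Nat.floor_le hLl0
  have hM2 : L - l < M + 1 := Nat.lt_floor_add_one _
  have hM3 : 3 / 4 * L ≤ M := by linarith
  have hM4 : 1 ≤ M := by
    have : (0 : ℝ) < M := by linarith
    exact_mod_cast this
  set τ : ℝ := c₀ * l / Real.log X with hτ
  have hτ0 : 0 < τ := by positivity
  set Y : Set ℕ := {y | (cn {n | n.Prime} y l : ℝ) ≤ τ} with hY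
  have hYc : (((Ico X (2 * X)).filter fun y => y ∈ Y).card : ℝ) ≤ X / Real.log X ^ 2 := by
    apply hgap _ (filter_subset _ _)
    intro x hx
    exact (mem_filter.1 hx).2
  have hx : ∀ x ∈ F, L / 2 ≤ (((Ioc x (x + M)).filter fun y => y ∈ Y).card : ℝ) := by
    intro x hx
    have h1 := thm_Mark {n | n.Prime} x M l τ (by linarith) hτ0.le
    have h2 : (cn {n | n.Prime} x (M + l) : ℝ) ≤ c₀ / 4 * L / Real.log X := by
      refine le_trans ?_ (h x hx)
      have : cn {n | n.Prime} x ((M : ℝ) + l) ≤ cn {n | n.Prime} x L :=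
        cn_mono _ _ (by positivity) (by linarith)
      exact_mod_cast this
    have h3 : τ * (((Ioc x (x + M)).filter fun y => τ < (cn {n | n.Prime} y l : ℝ)).card : ℝ) ≤
        τ * (L / 4) := by
      refine h1.trans ((mul_le_mul_of_nonneg_left h2 (by linarith)).trans (le_of_eq ?_))
      rw [hτ]
      field_simp
    have h4 := le_of_mul_le_mul_left h3 hτ0
    have h5 : ((Ioc x (x + M)).filter fun y => y ∈ Y).card +
        ((Ioc x (x + M)).filter fun y => τ < (cn {n | n.Prime} y l : ℝ)).card = M := by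
      have h6 := Finset.card_filter_add_card_filter_not (s := Ioc x (x + M)) (fun y => y ∈ Y)
      rw [Nat.card_Ioc, Nat.add_sub_cancel_left] at h6
      have h13 : ((Ioc x (x + M)).filter fun y => τ < (cn {n | n.Prime} y l : ℝ)) =
          (Ioc x (x + M)).filter fun y => ¬ y ∈ Y := by
        apply filter_congr
        intro y _
        rw [hY, Set.mem_ofPred_eq, not_le]
      rw [h13]
      exact h6
    have h7 : (((Ioc x (x + M)).filter fun y => y ∈ Y).card : ℝ) +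
        (((Ioc x (x + M)).filter fun y => τ < (cn {n | n.Prime} y l : ℝ)).card : ℝ) = M := by
      exact_mod_cast h5
    linarith
  have h8 := thm_Dbl Y X M F (L / 2) hM4 hF hx
  have h9 : L / 2 * F.card ≤ L * (X / Real.log X ^ 2 + L) := by
    refine h8.trans ?_
    have h10 : (M : ℝ) ≤ L := by linarith
    have h11 : (0 : ℝ) ≤ X / Real.log X ^ 2 := by positivity
    apply mul_le_mul h10 (by linarith) (by positivity) hL0.le
  have h12 : L / 2 * F.card ≤ L / 2 * (2 * (X / Real.log X ^ 2 + L)) := by linarith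
  exact le_of_mul_le_mul_left h12 (by positivity)

theorem thm_Gap : St_Gap := by
  classical
  obtain ⟨c₀, hc, hg⟩ := Pool.Agent.SI.gap
  refine ⟨c₀ / 4, by positivity, ?_⟩
  intro θ h1 h2
  rcases lt_or_ge θ (1 / 2) with h3 | h3
  · obtain ⟨X₀, hX₀⟩ := hg (θ - 1 / 4) 1 (by linarith) (by linarith)
    filter_upwards [eventually_ge_atTop X₀, Gap_log.eventually_ge_atTop 1] with X hX hlog F hF h
    have h4 := hX₀ X hX F (fun x hx => ?_)
    · rw [pow_one] at h4
      exact h4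
    have h5 := mem_Ico.1 (hF hx)
    refine ⟨h5.1, h5.2.le, ?_⟩
    have h6 : (1 / 4 + (θ - 1 / 4) : ℝ) = θ := by ring
    rw [h6]
    refine (Gap_le X x _).trans ((h x hx).trans ?_)
    have h7 : (0 : ℝ) ≤ (X : ℝ) ^ θ := by positivity
    apply div_le_div_of_nonneg_right _ (by linarith)
    apply mul_le_mul_of_nonneg_right _ h7
    linarith
  · obtain ⟨X₀, hX₀⟩ := hg (1 / 20) 2 (by norm_num) (by norm_num)
    filter_upwards [eventually_ge_atTop X₀, Gap_log.eventually_ge_atTop 8, eventually_ge_atTop 1,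
      Gap_pow 8 (3 / 10) θ (by linarith), Gap_rpow 4 (1 - θ) (by linarith)]
      with X hX hlog hX1 hp hq F hF h
    have hXR : (1 : ℝ) ≤ X := by exact_mod_cast hX1
    have hX0 : (0 : ℝ) < X := by linarith
    have hl1 : (1 : ℝ) ≤ (X : ℝ) ^ (3 / 10 : ℝ) := Real.one_le_rpow hXR (by norm_num)
    have hL0 : (0 : ℝ) < (X : ℝ) ^ θ := Real.rpow_pos_of_pos hX0 _
    have h4 := Gap_long c₀ hc X ((X : ℝ) ^ θ) ((X : ℝ) ^ (3 / 10 : ℝ)) (by linarith) hl1 hp hL0
      (fun G hG hG2 => hX₀ X hX G fun x hx => by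
        have h5 := mem_Ico.1 (hG hx)
        refine ⟨h5.1, h5.2.le, ?_⟩
        have h6 : (1 / 4 + 1 / 20 : ℝ) = 3 / 10 := by norm_num
        rw [h6]
        exact (Gap_le X x _).trans (hG2 x hx)) F hF h
    refine h4.trans ?_
    have e1 : (X : ℝ) / Real.log X ^ 2 ≤ X / Real.log X / 8 := by
      rw [div_div]
      apply div_le_div_of_nonneg_left hX0.le (by positivity)
      nlinarith
    have e2 : (X : ℝ) ^ θ ≤ X / Real.log X / 4 := by
      rw [div_div, le_div_iff₀ (by positivity)]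
      calc (X : ℝ) ^ θ * (Real.log X * 4) = (X : ℝ) ^ θ * (4 * Real.log X) := by ring
        _ ≤ (X : ℝ) ^ θ * (X : ℝ) ^ (1 - θ) := mul_le_mul_of_nonneg_left hq hL0.le
        _ = X := by rw [← Real.rpow_add hX0]; norm_num
    have e3 : (0 : ℝ) ≤ X / Real.log X := by positivity
    linarith

end Pool.Agent.ZOL
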