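import Mathlib
import Pool.Agent.ZOL.St2
import Pool.Agent.ZOL.Avg
import Pool.Agent.ZOL.Pers
import Pool.Agent.CPR.Fin

set_option autoImplicit false

/-!
# ZOL, module Joint: one set of starting points for integers and primes
-/

namespace Pool.Agent.ZOL

open Finset Filter
open Pool.Agent.CPR hiding ll Rel St_Par St_Ptw St_AvB St_Est St_Evt St_Pers St_SvB
open Pool.Agent.Collatz3.DN (EvInv)
open Pool.Agent.Collatz3.Mix (words)
open Pool.Agent.Collatz3.PD (rd en)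

/-- The `n` with `n`, `n + 1` in different classes. -/
def bad1 (σ : ℤ) (A : Set ℤ) : Set ℕ :=
  {n : ℕ | ¬ (σ * (n : ℤ) ∈ A ↔ σ * ((n : ℤ) + 1) ∈ A)}

theorem ll_le {B X : ℕ} (hX : 1 ≤ X) : ll B X ≤ X := by
  unfold ll
  have h1 : (1 : ℝ) ≤ X := by exact_mod_cast hX
  calc (X : ℝ) ^ (1 - 1 / (B : ℝ)) ≤ (X : ℝ) ^ (1 : ℝ) := by
        apply Real.rpow_le_rpow_of_exponent_le h1
        have : (0 : ℝ) ≤ 1 / (B : ℝ) := by positivity
        linarith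
    _ = X := Real.rpow_one _

open Classical in
/-- Odd elements of the block outside `A`. -/
theorem Joint_odd {σ : ℤ} (hσ : σ = 1 ∨ σ = -1) (A F : Set ℤ) (hF : F = Aᶜ) (x : ℕ) {ℓ : ℝ}
    (hℓ : 0 ≤ ℓ) :
    ((Ioc x (x + ⌊ℓ⌋₊)).filter fun n : ℕ => n % 2 = 1 ∧ σ * (n : ℤ) ∉ A).card ≤
      ((Ob σ x (x + ℓ)).filter fun n => n ∈ F).card := by
  have hσ2 := sig_sq hσ
  apply card_le_card_of_injOn (fun n : ℕ => σ * (n : ℤ))
  · intro n hn
    rw [mem_coe, mem_filter, mem_Ioc] at hn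
    obtain ⟨⟨h1, h2⟩, h3, h4⟩ := hn
    rw [mem_coe, mem_filter, mem_Ob hσ]
    have e1 : σ * (σ * (n : ℤ)) = n := by rw [← mul_assoc, hσ2, one_mul]
    refine ⟨⟨?_, ?_, ?_⟩, by rw [hF]; exact h4⟩
    · show σ * (n : ℤ) % 2 = 1
      rcases hσ with h | h <;> rw [h] <;> omega
    · rw [e1]
      push_cast
      exact_mod_cast h1
    · rw [e1]
      push_cast
      have h5 : (n : ℝ) ≤ x + (⌊ℓ⌋₊ : ℝ) := by exact_mod_cast h2
      have h6 := Nat.floor_le hℓ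
      linarith
  · intro n _ m _ hnm
    have h2 : σ * (n : ℤ) = σ * (m : ℤ) := hnm
    have h3 : σ * (σ * (n : ℤ)) = σ * (σ * (m : ℤ)) := by rw [h2]
    rw [← mul_assoc, ← mul_assoc, hσ2, one_mul, one_mul] at h3
    exact_mod_cast h3

open Classical in
/-- From the odd elements to all elements. -/
theorem Joint_all {σ : ℤ} (hσ : σ = 1 ∨ σ = -1) (A F : Set ℤ) (hF : F = Aᶜ) (x : ℕ) {ℓ : ℝ}
    (hℓ : 0 ≤ ℓ) : (cn (outE σ A) x ℓ : ℝ) ≤
      2 * (((Ob σ x (x + ℓ)).filter fun n => n ∈ F).card : ℝ) + 1 + cn (bad1 σ A) x ℓ := by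
  have h1 := Joint_odd hσ A F hF x hℓ
  rw [cn_eq _ x hℓ, cn_eq _ x hℓ]
  obtain ⟨O, hO⟩ : ∃ O, O = (Ioc x (x + ⌊ℓ⌋₊)).filter
    fun n : ℕ => n % 2 = 1 ∧ σ * (n : ℤ) ∉ A := ⟨_, rfl⟩
  rw [← hO] at h1
  have h2 : ((Ioc x (x + ⌊ℓ⌋₊)).filter fun n => n ∈ outE σ A) ⊆
      O ∪ ((O.image fun n => n - 1) ∪ ({x + ⌊ℓ⌋₊} ∪
        ((Ioc x (x + ⌊ℓ⌋₊)).filter fun n => n ∈ bad1 σ A))) := by
    intro n hn
    rw [mem_filter, mem_Ioc] at hn
    obtain ⟨⟨g1, g2⟩, g3⟩ := hn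
    have g4 : σ * (n : ℤ) ∉ A := g3
    simp only [mem_union, mem_image, mem_singleton, mem_filter, mem_Ioc]
    rcases Nat.mod_two_eq_zero_or_one n with h | h
    · right
      rcases Nat.lt_or_ge n (x + ⌊ℓ⌋₊) with h5 | h5
      · by_cases h6 : σ * ((n : ℤ) + 1) ∈ A
        · right
          right
          refine ⟨⟨g1, g2⟩, ?_⟩
          intro h7
          exact g4 (h7.2 h6)
        · left
          refine ⟨n + 1, ?_, by omega⟩
          rw [hO, mem_filter, mem_Ioc]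
          refine ⟨⟨by omega, by omega⟩, by omega, ?_⟩
          push_cast
          exact h6
      · right
        left
        omega
    · left
      rw [hO, mem_filter, mem_Ioc]
      exact ⟨⟨g1, g2⟩, h, g4⟩
  have h3 := card_le_card h2
  have h4 := card_union_le O ((O.image fun n => n - 1) ∪ ({x + ⌊ℓ⌋₊} ∪
        ((Ioc x (x + ⌊ℓ⌋₊)).filter fun n => n ∈ bad1 σ A)))
  have h5 := card_union_le (O.image fun n => n - 1) ({x + ⌊ℓ⌋₊} ∪
        ((Ioc x (x + ⌊ℓ⌋₊)).filter fun n => n ∈ bad1 σ A))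
  have h6 := card_union_le ({x + ⌊ℓ⌋₊} : Finset ℕ)
        ((Ioc x (x + ⌊ℓ⌋₊)).filter fun n => n ∈ bad1 σ A)
  have h7 : (O.image fun n => n - 1).card ≤ O.card := card_image_le
  rw [card_singleton] at h6
  have h8 : ((Ioc x (x + ⌊ℓ⌋₊)).filter fun n => n ∈ outE σ A).card ≤
      2 * ((Ob σ x (x + ℓ)).filter fun n => n ∈ F).card + 1 +
        ((Ioc x (x + ⌊ℓ⌋₊)).filter fun n => n ∈ bad1 σ A).card := by omega
  exact_mod_cast h8

open Classical in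
/-- The primes outside `A`. -/
theorem Joint_primes (σ : ℤ) (A F : Set ℤ) (hF : F = Aᶜ) {X x : ℕ} {ℓ : ℝ} (hℓ : 0 ≤ ℓ) (hℓX : ℓ ≤ X)
    (hx : X ≤ x) (hx2 : x < 2 * X) :
    cn (outP σ A) x ℓ ≤ ((Icc X (3 * X)).filter (fun p : ℕ => p.Prime ∧ x < p ∧
      (p : ℝ) ≤ x + ℓ ∧ σ * (p : ℤ) ∈ F)).card := by
  rw [cn_eq _ x hℓ]
  apply card_le_card
  intro p hp
  rw [mem_filter, mem_Ioc] at hp
  obtain ⟨⟨h1, h2⟩, h3, h4⟩ := hp
  have h5 : (p : ℝ) ≤ x + ℓ := by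
    have h5 : (p : ℝ) ≤ x + (⌊ℓ⌋₊ : ℝ) := by exact_mod_cast h2
    have h6 := Nat.floor_le hℓ
    linarith
  rw [mem_filter, mem_Icc]
  refine ⟨⟨by omega, ?_⟩, h3, h1, h5, by rw [hF]; exact h4⟩
  have h6 : (x : ℝ) < 2 * X := by exact_mod_cast hx2
  have h7 : (p : ℝ) < ((3 * X : ℕ) : ℝ) := by
    push_cast
    linarith
  exact_mod_cast h7.le

/-- The sum of the exceptional counts. -/
theorem Joint_sum (E : Set ℕ) {X : ℕ} {ℓ : ℝ} (hX : 1 ≤ X) (hℓ : 0 ≤ ℓ) (hℓX : ℓ ≤ X) :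
    ∑ x ∈ Ico X (2 * X), (cn E x ℓ : ℝ) ≤ ℓ * cn E 0 ((4 * X - 1 : ℕ) : ℝ) := by
  classical
  have h1 := thm_Avg E (X - 1) X ℓ hℓ
  have e : Ioc (X - 1) (X - 1 + X) = Ico X (2 * X) := by
    ext y
    rw [mem_Ioc, mem_Ico]
    omega
  rw [e] at h1
  refine h1.trans (mul_le_mul_of_nonneg_left ?_ hℓ)
  have h2 : cn E (X - 1) (X + ℓ) ≤ cn E 0 ((4 * X - 1 : ℕ) : ℝ) := by
    rw [cn_eq _ _ (by positivity), cn_eq _ _ (by positivity)]
    apply card_le_card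
    intro n hn
    rw [mem_filter, mem_Ioc] at hn ⊢
    refine ⟨⟨by omega, ?_⟩, hn.2⟩
    have h3 : ⌊(X : ℝ) + ℓ⌋₊ ≤ 2 * X := by
      apply Nat.floor_le_of_le
      push_cast
      linarith
    rw [Nat.floor_natCast]
    omega
  exact_mod_cast h2

open Classical in
theorem thm_Joint (hS : St_SvB) (hP : St_Pers) (hE : St_Even) : St_Joint := by
  intro B hB η hη
  obtain ⟨l, δ, hl, hδ, hSv⟩ := hS B hB (η / 8) (by positivity)
  have hlR : (1 : ℝ) ≤ l := by exact_mod_cast hl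
  obtain ⟨c₂, hc₂, hPe⟩ := hP B hB (δ / (6 * l)) (by positivity)
  refine ⟨c₂ / 4, by positivity, ?_⟩
  intro C A σ d hσ hA hD hd
  have hlog : Tendsto (fun X : ℕ => Real.log (X : ℝ)) atTop atTop :=
    Real.tendsto_log_atTop.comp tendsto_natCast_atTop_atTop
  have hlog2 : Tendsto (fun X : ℕ => Nat.log 2 X) atTop atTop :=
    tendsto_atTop_atTop_of_monotone Nat.log_monotone fun b =>
      ⟨2 ^ b, by rw [Nat.log_pow (by norm_num)]⟩
  have hllt : Tendsto (fun X : ℕ => (X : ℝ) ^ (3 / 10 : ℝ)) atTop atTop :=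
    (tendsto_rpow_atTop (by norm_num)).comp tendsto_natCast_atTop_atTop
  have hev := hE C A σ hσ hA (c₂ * d * η / 256) (by positivity)
  have hev4 : ∀ᶠ X : ℕ in atTop, (((range (4 * X)).filter
      fun n : ℕ => ¬ (σ * (n : ℤ) ∈ A ↔ σ * ((n : ℤ) + 1) ∈ A)).card : ℝ) ≤
      c₂ * d * η / 256 * ((4 * X : ℕ) : ℝ) := by
    have t : Tendsto (fun X : ℕ => 4 * X) atTop atTop :=
      tendsto_id.const_mul_atTop' (by norm_num)
    exact t.eventually hev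
  filter_upwards [hSv, hPe C A σ d hσ hA hD hd, eventually_ge_atTop 3,
    hlog2.eventually_ge_atTop (2 * C + 2), hlog.eventually_ge_atTop 1,
    hllt.eventually_ge_atTop (4 / η), hev4] with X h1 h2 h4 h5 h6 h7 h8
  obtain ⟨k, hk4, hlk, h1⟩ := h1
  obtain ⟨G, hG, hGc, h2⟩ := h2 k hk4
  have hX1 : 1 ≤ X := by omega
  have hXR : (3 : ℝ) ≤ X := by exact_mod_cast h4
  have hX0 : (0 : ℝ) < X := by linarith
  obtain ⟨ℓ, hℓ⟩ : ∃ ℓ, ℓ = ll B X := ⟨_, rfl⟩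
  have hll : 0 < ℓ := by rw [hℓ]; exact Real.rpow_pos_of_pos hX0 _
  have hℓX : ℓ ≤ X := by rw [hℓ]; exact ll_le hX1
  have hℓη : 1 ≤ η / 4 * ℓ := by
    have e1 : 4 / η ≤ ℓ := by rw [hℓ]; exact h7.trans (ll_ge hB hX1)
    rw [div_le_iff₀ hη] at e1
    linarith
  rw [← hℓ] at h1 h2 ⊢
  have hk1 : 1 ≤ k := le_trans (Nat.one_le_pow _ _ hl) hlk
  have hkR : (1 : ℝ) ≤ k := by exact_mod_cast hk1
  have hs1 : (1 : ℝ) ≤ √k := Real.one_le_sqrt.mpr hkR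
  obtain ⟨hset, hsetc⟩ := Fin_set l k hl hlk
  -- the sums
  obtain ⟨SS, hSS⟩ : ∃ SS, SS = (range (3 * k + 1)).filter
    (fun s : ℕ => |(s : ℝ) - 2 * k| ≤ l * √k) := ⟨_, rfl⟩
  rw [← hSS] at hset hsetc
  obtain ⟨F, hF⟩ : ∃ F : Set ℤ, F = Aᶜ := ⟨_, rfl⟩
  obtain ⟨Sg, hSg⟩ : ∃ Sg : ℕ → ℝ, Sg = fun (x : ℕ) => ∑ s ∈ SS,
    (((Ob σ (3 ^ k * x / 2 ^ s) (3 ^ k * x / 2 ^ s + 3 ^ k * ℓ / 2 ^ s)).filter
      fun b => b ∈ F).card : ℝ) / (3 ^ k * ℓ / 2 ^ s) := ⟨_, rfl⟩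
  have hSg0 : ∀ x ∈ G, 0 ≤ Sg x := by
    intro x _
    rw [hSg]
    exact Finset.sum_nonneg fun s _ => by positivity
  have hsum : ∑ x ∈ G, Sg x ≤ δ * √k / 2 * G.card := by
    rw [hSg, Finset.sum_comm]
    have e1 : ∀ s ∈ SS, ∑ x ∈ G, (((Ob σ (3 ^ k * x / 2 ^ s)
        (3 ^ k * x / 2 ^ s + 3 ^ k * ℓ / 2 ^ s)).filter
        fun b => b ∈ F).card : ℝ) / (3 ^ k * ℓ / 2 ^ s) ≤ δ / (6 * l) * G.card := by
      intro s hs
      rw [← Finset.sum_div, div_le_iff₀ (by positivity)]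
      have e2 := h2 s (hset s hs).1 (hset s hs).2
      refine le_trans (le_of_eq ?_) e2
      refine Finset.sum_congr rfl fun x _ => ?_
      refine congrArg (fun t : Finset ℤ => (t.card : ℝ)) (Finset.ext fun b => ?_)
      rw [mem_filter, mem_filter]
      have e15 : b ∈ F ↔ b ∉ A := by rw [hF, Set.mem_compl_iff]
      rw [e15]
    calc ∑ s ∈ SS, ∑ x ∈ G, (((Ob σ (3 ^ k * x / 2 ^ s)
        (3 ^ k * x / 2 ^ s + 3 ^ k * ℓ / 2 ^ s)).filter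
        fun b => b ∈ F).card : ℝ) / (3 ^ k * ℓ / 2 ^ s)
        ≤ ∑ s ∈ SS, δ / (6 * l) * G.card := Finset.sum_le_sum e1
      _ = SS.card * (δ / (6 * l) * G.card) := by rw [Finset.sum_const, nsmul_eq_mul]
      _ ≤ (3 * l * √k) * (δ / (6 * l) * G.card) :=
          mul_le_mul_of_nonneg_right hsetc (by positivity)
      _ = δ * √k / 2 * G.card := by
          have hl0 : (l : ℝ) ≠ 0 := by positivity
          field_simp
          ring
  have hG1 := Fin_half G Sg (δ * √k) (by positivity) hSg0 hsum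
  obtain ⟨G₁, hG₁⟩ : ∃ G₁, G₁ = G.filter fun x => Sg x ≤ δ * √k := ⟨_, rfl⟩
  rw [← hG₁] at hG1
  have hG1G : ∀ x ∈ G₁, x ∈ Ico X (2 * X) := by
    intro x hx
    rw [hG₁, mem_filter] at hx
    exact hG hx.1
  -- the pairs in different classes
  obtain ⟨E, hEd⟩ : ∃ E, E = bad1 σ A := ⟨_, rfl⟩
  have hEs : ∑ x ∈ Ico X (2 * X), (cn E x ℓ : ℝ) ≤ ℓ * (c₂ * d * η / 64 * X) := by
    refine (Joint_sum E hX1 hll.le hℓX).trans (mul_le_mul_of_nonneg_left ?_ hll.le)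
    have e1 : cn E 0 ((4 * X - 1 : ℕ) : ℝ) ≤ ((range (4 * X)).filter
      fun n : ℕ => ¬ (σ * (n : ℤ) ∈ A ↔ σ * ((n : ℤ) + 1) ∈ A)).card := by
      rw [cn_eq _ _ (by positivity)]
      apply card_le_card
      intro n hn
      rw [mem_filter, mem_Ioc, Nat.floor_natCast, hEd] at hn
      rw [mem_filter, mem_range]
      exact ⟨by omega, hn.2⟩
    have e2 : (cn E 0 ((4 * X - 1 : ℕ) : ℝ) : ℝ) ≤ c₂ * d * η / 256 * ((4 * X : ℕ) : ℝ) :=
      (Nat.cast_le.mpr e1).trans h8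
    refine e2.trans (le_of_eq ?_)
    push_cast
    ring
  have hEb : ((G₁.filter fun x => ¬ ((cn E x ℓ : ℝ) ≤ η / 4 * ℓ)).card : ℝ) ≤ c₂ * d / 16 * X := by
    have e1 : ((G₁.filter fun x => ¬ ((cn E x ℓ : ℝ) ≤ η / 4 * ℓ)).card : ℝ) * (η / 4 * ℓ) ≤
        ∑ x ∈ Ico X (2 * X), (cn E x ℓ : ℝ) := by
      calc ((G₁.filter fun x => ¬ ((cn E x ℓ : ℝ) ≤ η / 4 * ℓ)).card : ℝ) * (η / 4 * ℓ)
          ≤ ∑ x ∈ G₁.filter (fun x => ¬ ((cn E x ℓ : ℝ) ≤ η / 4 * ℓ)), (cn E x ℓ : ℝ) := by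
            have h3 := Finset.card_nsmul_le_sum
              (G₁.filter fun x => ¬ ((cn E x ℓ : ℝ) ≤ η / 4 * ℓ)) (fun x => (cn E x ℓ : ℝ))
              (η / 4 * ℓ) (fun x hx => (not_le.mp (mem_filter.mp hx).2).le)
            rw [nsmul_eq_mul] at h3
            exact h3
        _ ≤ ∑ x ∈ Ico X (2 * X), (cn E x ℓ : ℝ) :=
            Finset.sum_le_sum_of_subset_of_nonneg
              (fun x hx => hG1G x (mem_filter.1 hx).1) fun x _ _ => Nat.cast_nonneg _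
    have e2 := e1.trans hEs
    have e3 : ((G₁.filter fun x => ¬ ((cn E x ℓ : ℝ) ≤ η / 4 * ℓ)).card : ℝ) * (η / 4 * ℓ) ≤
        c₂ * d / 16 * X * (η / 4 * ℓ) := by
      refine e2.trans (le_of_eq ?_)
      ring
    exact le_of_mul_le_mul_right e3 (by positivity)
  refine ⟨G₁.filter fun x => (cn E x ℓ : ℝ) ≤ η / 4 * ℓ, ?_, ?_, ?_⟩
  · intro x hx
    exact hG1G x (mem_filter.1 hx).1
  · have e1 : (G₁.filter fun x => (cn E x ℓ : ℝ) ≤ η / 4 * ℓ).card +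
        (G₁.filter fun x => ¬ ((cn E x ℓ : ℝ) ≤ η / 4 * ℓ)).card = G₁.card :=
      Finset.card_filter_add_card_filter_not _
    have e2 : ((G₁.filter fun x => (cn E x ℓ : ℝ) ≤ η / 4 * ℓ).card : ℝ) +
        (G₁.filter fun x => ¬ ((cn E x ℓ : ℝ) ≤ η / 4 * ℓ)).card = G₁.card := by exact_mod_cast e1
    have e3 : 0 < c₂ * d * X := by positivity
    linarith
  · intro x hx
    rw [mem_filter, hG₁, mem_filter] at hx
    obtain ⟨⟨hx1, hx2⟩, hx3⟩ := hx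
    have hxG := Finset.mem_Ico.mp (hG hx1)
    have hx4 := h1 x hxG.1 hxG.2.le σ hσ F (by rw [hF]; exact Fin_inv hA hk4 h5) (by
      rw [hSg, hSS] at hx2
      exact hx2)
    obtain ⟨hp, ho⟩ := hx4
    constructor
    · have e1 := Joint_all hσ A F hF x hll.le
      rw [← hEd] at e1
      linarith
    · have e1 := Joint_primes σ A F hF hll.le hℓX hxG.1 hxG.2
      have e2 : (cn (outP σ A) x ℓ : ℝ) ≤ η / 8 * ℓ / Real.log X := (Nat.cast_le.mpr e1).trans hp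
      refine e2.trans ?_
      apply div_le_div_of_nonneg_right _ (by linarith)
      have : 0 ≤ η * ℓ := by positivity
      linarith

end Pool.Agent.ZOL
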