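import Pool.Agent.ZOL.St

/-!
# ZOL: sizes of the parameters
-/

set_option autoImplicit false
set_option linter.unusedVariables false

namespace Pool.Agent.ZOL

open Finset Filter
open Pool.Agent.CPR (Dp tt zz)

theorem Par_exp {B : ℕ} (hB : 2 ≤ B) : 0 ≤ 1 / (B : ℝ) ∧ 1 / (B : ℝ) ≤ 1 / 2 := by
  have h : (2 : ℝ) ≤ B := by exact_mod_cast hB
  refine ⟨by positivity, ?_⟩
  rw [div_le_div_iff₀ (by linarith) (by norm_num)]
  linarith

theorem Par_ll1 {B X : ℕ} (hB : 2 ≤ B) (hX : 1 ≤ X) : 1 ≤ ll B X := ll_one (by omega) hX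

theorem Par_A1 {B X : ℕ} (_hB : 2 ≤ B) (hX : 1 ≤ X) : 1 ≤ aa B X := aa_one B hX

theorem Par_le {B X : ℕ} (hB : 2 ≤ B) (hX : 1 ≤ X) : ll B X ≤ X := by
  have h := ll_mul_aa B hX
  have h1 := Par_A1 hB hX
  have h2 := Par_ll1 hB hX
  nlinarith

theorem Par_sq {B X : ℕ} (hB : 2 ≤ B) (hX : 1 ≤ X) : (X : ℝ) ≤ (ll B X) ^ 2 := by
  unfold ll
  obtain ⟨h1, h2⟩ := Par_exp hB
  rw [← Real.rpow_natCast, ← Real.rpow_mul (Nat.cast_nonneg X)]
  calc (X : ℝ) = (X : ℝ) ^ (1 : ℝ) := (Real.rpow_one _).symm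
    _ ≤ _ := by
      refine Real.rpow_le_rpow_of_exponent_le (by exact_mod_cast hX) ?_
      push_cast
      linarith

theorem Par_core {B J M' k k₁ X : ℕ} (hB : 2 ≤ B) (hX : 1 ≤ X) (h4 : k₁ ^ 4 ≤ Nat.log 2 X)
    (hR : Rel B J k k₁ X) (hC : (10 * (J + 6) * M' + 20) ^ 2 ≤ Nat.log 2 X) :
    M' * (k₁ ^ 2 + 1) ≤ k := by
  by_contra hk
  rw [not_le] at hk
  have hX0 : X ≠ 0 := by omega
  have h2N : 2 ^ Nat.log 2 X ≤ X := Nat.pow_log_le_self 2 hX0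
  set N := Nat.log 2 X with hN
  have hb : (4 / 3 : ℝ) ^ J * 64 ≤ 2 ^ (J + 6) := by
    rw [pow_add]
    have : (4 / 3 : ℝ) ^ J ≤ 2 ^ J := pow_le_pow_left₀ (by norm_num) (by norm_num) J
    have e : (2 : ℝ) ^ 6 = 64 := by norm_num
    rw [e]
    exact mul_le_mul_of_nonneg_right this (by norm_num)
  have hb0 : (0 : ℝ) ≤ (4 / 3 : ℝ) ^ J * 64 := by positivity
  have h1 : ll B X < 2 ^ ((J + 6) * (k + 1) + 2 * k₁) := by
    refine hR.2.trans_le ?_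
    have e : (2 : ℝ) ^ ((J + 6) * (k + 1) + 2 * k₁) = (2 ^ (J + 6)) ^ (k + 1) * 4 ^ k₁ := by
      have e0 : (4 : ℝ) = 2 ^ 2 := by norm_num
      rw [e0, ← pow_mul, ← pow_mul, ← pow_add]
    rw [e]
    exact mul_le_mul_of_nonneg_right (pow_le_pow_left₀ hb0 hb _) (by positivity)
  have h2 : (ll B X) ^ 2 < (2 ^ ((J + 6) * (k + 1) + 2 * k₁)) ^ 2 :=
    pow_lt_pow_left₀ h1 (zero_le_one.trans (Par_ll1 hB hX)) (by norm_num)
  rw [← pow_mul] at h2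
  have h3 : (2 : ℝ) ^ N ≤ (X : ℝ) := by exact_mod_cast h2N
  have h5 : 5 * N < ((J + 6) * (k + 1) + 2 * k₁) * 10 := by
    have h3' := h3.trans_lt ((Par_sq hB hX).trans_lt h2)
    have h3'' := (pow_lt_pow_iff_right₀ (by norm_num : (1 : ℝ) < 2)).1 h3'
    omega
  obtain ⟨C, hCe⟩ : ∃ C, C = 10 * (J + 6) * M' + 20 := ⟨_, rfl⟩
  rw [← hCe] at hC
  have h6 : ((J + 6) * (k + 1) + 2 * k₁) * 10 ≤ C * (k₁ ^ 2 + 1) := by
    have a1 : (J + 6) * (k + 1) ≤ (J + 6) * (M' * (k₁ ^ 2 + 1)) := Nat.mul_le_mul_left _ hk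
    have a2 : k₁ ≤ k₁ ^ 2 + 1 := by nlinarith [sq_nonneg (k₁ : ℤ), Nat.zero_le k₁]
    rw [hCe]
    nlinarith [a1, a2]
  have h7 : C * k₁ ^ 2 ≤ N := by
    have b1 : (C * k₁ ^ 2) ^ 2 ≤ N ^ 2 := by
      calc (C * k₁ ^ 2) ^ 2 = C ^ 2 * k₁ ^ 4 := by ring
        _ ≤ N * N := Nat.mul_le_mul hC h4
        _ = N ^ 2 := by ring
    exact (Nat.pow_le_pow_iff_left (by norm_num)).1 b1
  have h8 : C ≤ N := by
    refine le_trans ?_ hC
    exact Nat.le_self_pow (by norm_num) C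
  have h9 : C * (k₁ ^ 2 + 1) = C * k₁ ^ 2 + C := by ring
  omega

theorem Par_up {B J k k₁ X : ℕ} (hB : 2 ≤ B) (hX : 1 ≤ X) (hR : Rel B J k k₁ X) :
    4 * (J * k) + 60 * k < 10 * (Nat.log 2 X + 1) := by
  have h2N : X < 2 ^ (Nat.log 2 X + 1) := Nat.lt_pow_succ_log_self (by norm_num) X
  set N := Nat.log 2 X with hN
  have h1 : (2 : ℝ) ^ (4 * (J * k) + 60 * k) ≤ (X : ℝ) ^ 10 := by
    have h2 : (((4 / 3 : ℝ) ^ J * 64) ^ k * 4 ^ k₁) ^ 10 ≤ (X : ℝ) ^ 10 :=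
      pow_le_pow_left₀ (by positivity) (hR.1.trans (Par_le hB hX)) 10
    refine le_trans ?_ h2
    have h3 : ((4 / 3 : ℝ) ^ J * 64) ^ k ≤ ((4 / 3 : ℝ) ^ J * 64) ^ k * 4 ^ k₁ :=
      le_mul_of_one_le_right (by positivity) (one_le_pow₀ (by norm_num))
    refine le_trans ?_ (pow_le_pow_left₀ (by positivity) h3 10)
    have e1 : (((4 / 3 : ℝ) ^ J * 64) ^ k) ^ 10 = ((4 / 3 : ℝ) ^ 5) ^ (2 * (J * k)) *
        2 ^ (60 * k) := by
      rw [mul_pow, mul_pow, ← pow_mul, ← pow_mul, ← pow_mul, ← pow_mul]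
      have e2 : (64 : ℝ) = 2 ^ 6 := by norm_num
      rw [e2, ← pow_mul]
      congr 1 <;> ring_nf
    rw [e1, pow_add]
    refine mul_le_mul_of_nonneg_right ?_ (by positivity)
    have e3 : (2 : ℝ) ^ (4 * (J * k)) = 4 ^ (2 * (J * k)) := by
      have e4 : (4 : ℝ) = 2 ^ 2 := by norm_num
      rw [e4, ← pow_mul]
      congr 1
      ring
    rw [e3]
    exact pow_le_pow_left₀ (by norm_num) (by norm_num) _
  have h5 : (X : ℝ) ^ 10 < 2 ^ (10 * (N + 1)) := by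
    rw [mul_comm, pow_mul]
    exact pow_lt_pow_left₀ (by exact_mod_cast h2N) (Nat.cast_nonneg X) (by norm_num)
  exact (pow_lt_pow_iff_right₀ (by norm_num : (1 : ℝ) < 2)).1 (h1.trans_lt h5)

theorem Par_Dp {K J M₁ k : ℕ} (h1 : 4 * M₁ ^ 2 * K ^ 2 * J ≤ k) (h2 : 2 * (M₁ * K) ≤ k) :
    M₁ * Dp K J k ≤ k := by
  unfold Dp
  obtain ⟨r, hr⟩ : ∃ r, r = Nat.sqrt (J * k) := ⟨_, rfl⟩
  have hr2 : r * r ≤ J * k := by rw [hr]; exact Nat.sqrt_le _
  rw [← hr]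
  have h3 : 2 * (M₁ * K) * r ≤ k := by
    have b1 : (2 * (M₁ * K) * r) ^ 2 ≤ k ^ 2 := by
      calc (2 * (M₁ * K) * r) ^ 2 = 4 * M₁ ^ 2 * K ^ 2 * (r * r) := by ring
        _ ≤ 4 * M₁ ^ 2 * K ^ 2 * (J * k) := Nat.mul_le_mul_left _ hr2
        _ = (4 * M₁ ^ 2 * K ^ 2 * J) * k := by ring
        _ ≤ k * k := Nat.mul_le_mul_right _ h1
        _ = k ^ 2 := by ring
    exact (Nat.pow_le_pow_iff_left (by norm_num)).1 b1
  have h4 : 2 * (M₁ * (K * (r + 1))) = 2 * (M₁ * K) * r + 2 * (M₁ * K) := by ring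
  omega

theorem Par_kpow (k : ℕ) : k ≤ 2 ^ k := Nat.lt_two_pow_self.le

/-- the position is large -/
theorem Par_zz {B K J k k₁ X x : ℕ} (hB : 2 ≤ B) (hX : 1 ≤ X) (hR : Rel B J k k₁ X)
    (hD : Dp K J k ≤ k) (hk : 1 ≤ k) (hx : X ≤ x) :
    (16 : ℝ) ^ k * aa B X ≤ (zz K J k k₁ x : ℝ) := by
  have hA := Par_A1 hB hX
  have hL := Par_ll1 hB hX
  have hLA := ll_mul_aa B hX
  obtain ⟨A, hAe⟩ : ∃ A, A = aa B X := ⟨_, rfl⟩
  rw [← hAe] at hA hLA ⊢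
  have hL0 : 0 < ll B X := lt_of_lt_of_le one_pos hL
  -- the real quotient
  have h1 : (32 : ℝ) ^ k * A * 2 ^ tt K J k k₁ ≤ 3 ^ (J * k + k₁) * (x : ℝ) := by
    have hxr : ll B X * A ≤ (x : ℝ) := by rw [hLA]; exact_mod_cast hx
    have h2 : ((4 / 3 : ℝ) ^ J * 64) ^ k * 4 ^ k₁ ≤ ll B X := hR.1
    have h3 : (32 : ℝ) ^ k * 2 ^ tt K J k k₁ ≤ 3 ^ (J * k + k₁) * ll B X := by
      have h4 : (2 : ℝ) ^ tt K J k k₁ ≤ 4 ^ (J * k + k₁) * 2 ^ k := by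
        unfold tt
        rw [pow_add, pow_mul]
        have e : (2 : ℝ) ^ 2 = 4 := by norm_num
        rw [e]
        exact mul_le_mul_of_nonneg_left (pow_le_pow_right₀ (by norm_num) hD) (by positivity)
      have h5 : (3 : ℝ) ^ (J * k + k₁) * (((4 / 3 : ℝ) ^ J * 64) ^ k * 4 ^ k₁) ≤
          3 ^ (J * k + k₁) * ll B X := mul_le_mul_of_nonneg_left h2 (by positivity)
      refine le_trans ?_ h5
      have e1 : (3 : ℝ) ^ (J * k + k₁) * (((4 / 3 : ℝ) ^ J * 64) ^ k * 4 ^ k₁) =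
          4 ^ (J * k) * 64 ^ k * (4 ^ k₁ * 3 ^ k₁) := by
        have e2 : (3 : ℝ) ^ (J * k) * (4 / 3) ^ (J * k) = 4 ^ (J * k) := by
          rw [← mul_pow]; norm_num
        rw [mul_pow, ← pow_mul, pow_add]
        calc (3 : ℝ) ^ (J * k) * 3 ^ k₁ * ((4 / 3) ^ (J * k) * 64 ^ k * 4 ^ k₁) =
            (3 ^ (J * k) * (4 / 3) ^ (J * k)) * 64 ^ k * (4 ^ k₁ * 3 ^ k₁) := by ring
          _ = _ := by rw [e2]
      rw [e1]
      have e3 : (64 : ℝ) ^ k = 32 ^ k * 2 ^ k := by rw [← mul_pow]; norm_num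
      calc (32 : ℝ) ^ k * 2 ^ tt K J k k₁ ≤ 32 ^ k * (4 ^ (J * k + k₁) * 2 ^ k) :=
            mul_le_mul_of_nonneg_left h4 (by positivity)
        _ = 4 ^ (J * k) * 64 ^ k * (4 ^ k₁ * 1) := by rw [e3, pow_add]; ring
        _ ≤ 4 ^ (J * k) * 64 ^ k * (4 ^ k₁ * 3 ^ k₁) := by
            refine mul_le_mul_of_nonneg_left ?_ (by positivity)
            exact mul_le_mul_of_nonneg_left (one_le_pow₀ (by norm_num)) (by positivity)
    calc (32 : ℝ) ^ k * A * 2 ^ tt K J k k₁ = (32 ^ k * 2 ^ tt K J k k₁) * A := by ring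
      _ ≤ (3 ^ (J * k + k₁) * ll B X) * A := mul_le_mul_of_nonneg_right h3 (by linarith)
      _ = 3 ^ (J * k + k₁) * (ll B X * A) := by ring
      _ ≤ 3 ^ (J * k + k₁) * (x : ℝ) := mul_le_mul_of_nonneg_left hxr (by positivity)
  have h6 : (3 : ℝ) ^ (J * k + k₁) * (x : ℝ) < 2 ^ tt K J k k₁ * ((zz K J k k₁ x : ℝ) + 1) := by
    have h7 : 3 ^ (J * k + k₁) * x < 2 ^ tt K J k k₁ * (zz K J k k₁ x + 1) := by
      unfold zz
      have := Nat.lt_mul_div_succ (3 ^ (J * k + k₁) * x)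
        (Nat.pos_of_ne_zero (pow_ne_zero (tt K J k k₁) (by norm_num : (2 : ℕ) ≠ 0)))
      exact this
    exact_mod_cast h7
  have h8 : (32 : ℝ) ^ k * A < (zz K J k k₁ x : ℝ) + 1 := by
    have h9 : (2 : ℝ) ^ tt K J k k₁ * ((32 : ℝ) ^ k * A) <
        2 ^ tt K J k k₁ * ((zz K J k k₁ x : ℝ) + 1) := by
      calc (2 : ℝ) ^ tt K J k k₁ * ((32 : ℝ) ^ k * A) = 32 ^ k * A * 2 ^ tt K J k k₁ := by ring
        _ ≤ _ := h1
        _ < _ := h6
    exact lt_of_mul_lt_mul_left h9 (by positivity)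
  have h10 : (32 : ℝ) ^ k = 16 ^ k * 2 ^ k := by rw [← mul_pow]; norm_num
  have h11 : (2 : ℝ) ≤ 2 ^ k := by
    calc (2 : ℝ) = 2 ^ 1 := by norm_num
      _ ≤ 2 ^ k := pow_le_pow_right₀ (by norm_num) hk
  have h12 : (1 : ℝ) ≤ 16 ^ k := one_le_pow₀ (by norm_num)
  have h13 : (1 : ℝ) ≤ 16 ^ k * A := by nlinarith
  have h14 : 16 ^ k * A * 2 ≤ 16 ^ k * A * 2 ^ k := mul_le_mul_of_nonneg_left h11 (by linarith)
  have h15 : (32 : ℝ) ^ k * A = 16 ^ k * A * 2 ^ k := by rw [h10]; ring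
  linarith

theorem thm_Par : St_Par := by
  intro B K J M hB hK hJ
  obtain ⟨M₁, hM₁⟩ : ∃ M₁, M₁ = M + 1 := ⟨_, rfl⟩
  obtain ⟨M', hM'⟩ : ∃ M', M' = 4 * M₁ ^ 2 * K ^ 2 * J + 2 * (M₁ * K) + M₁ + 2 * J + 30 := ⟨_, rfl⟩
  filter_upwards [eventually_ge_atTop (2 ^ ((10 * (J + 6) * M' + 20) ^ 2))] with X hX
  intro k₁ k h4 hR
  have hX1 : 1 ≤ X := le_trans Nat.one_le_two_pow hX
  have hX0 : X ≠ 0 := by omega
  have hN : (10 * (J + 6) * M' + 20) ^ 2 ≤ Nat.log 2 X := Nat.le_log_of_pow_le (by norm_num) hX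
  have hcore := Par_core hB hX1 h4 hR hN
  have hup := Par_up hB hX1 hR
  have h2N : 2 ^ Nat.log 2 X ≤ X := Nat.pow_log_le_self 2 hX0
  have hkM : M' + M' * k₁ ^ 2 ≤ k := by
    have : M' * (k₁ ^ 2 + 1) = M' + M' * k₁ ^ 2 := by ring
    omega
  have hM'k : M' ≤ k := by
    have := Nat.zero_le (M' * k₁ ^ 2)
    omega
  have h30 : 30 ≤ k := by
    have := Nat.zero_le (4 * M₁ ^ 2 * K ^ 2 * J)
    omega
  have hD : M₁ * Dp K J k ≤ k := Par_Dp (by omega) (by omega)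
  have hD1 : Dp K J k ≤ k := by
    refine le_trans ?_ hD
    rw [hM₁]
    exact Nat.le_mul_of_pos_left _ (Nat.succ_pos M)
  have hMk : M ≤ k := by omega
  have hk1 : 1 ≤ k := by omega
  have h24 : B * (7 * k) ≤ Nat.log 2 X := by
    have h1 : 40 * B * k ≤ J * k := Nat.mul_le_mul_right k hJ
    have h2 : 40 * B * k = 40 * (B * k) := by ring
    have h3 : B * (7 * k) = 7 * (B * k) := by ring
    omega
  have hMr : (M : ℝ) ≤ 2 ^ k := by
    have : M ≤ 2 ^ k := hMk.trans (Par_kpow k)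
    exact_mod_cast this
  have hL1 := Par_ll1 hB hX1
  have hA1 := Par_A1 hB hX1
  have hLA := ll_mul_aa B hX1
  have hL0 : 0 < ll B X := lt_of_lt_of_le one_pos hL1
  refine ⟨hMk, ?_, ?_, by omega, ?_, ?_⟩
  · have : M * k₁ ^ 2 ≤ M' * k₁ ^ 2 := Nat.mul_le_mul_right _ (by omega)
    omega
  · exact (Nat.mul_le_mul_right _ (by omega : M ≤ M₁)).trans hD
  · intro x hx
    have hz := Par_zz hB hX1 hR hD1 hk1 hx
    have e16 : (16 : ℝ) ^ k = 2 ^ k * 2 ^ (3 * k) := by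
      rw [← pow_add]
      have : (16 : ℝ) = 2 ^ 4 := by norm_num
      rw [this, ← pow_mul]
      congr 1
      ring
    have h16 : (2 : ℝ) ^ k ≤ 16 ^ k := pow_le_pow_left₀ (by norm_num) (by norm_num) k
    have hA0 : (0 : ℝ) ≤ aa B X := by linarith
    refine ⟨?_, ?_, ?_⟩
    · have h1 : (2 : ℝ) ^ (nn B X + mm B X) ≤ aa B X := by
        refine le_aa (by omega) ?_ hX0
        have := B_nm B X
        omega
      have h2 : (M : ℝ) * 2 ^ (nn B X + mm B X) ≤ (zz K J k k₁ x : ℝ) := by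
        refine le_trans ?_ hz
        exact mul_le_mul (hMr.trans h16) h1 (by positivity) (by positivity)
      exact_mod_cast h2
    · have h1 : (2 : ℝ) ^ (7 * k) ≤ aa B X := by
        exact le_aa (by omega) h24 hX0
      have h2 : (M : ℝ) * 2 ^ (10 * k) ≤ (zz K J k k₁ x : ℝ) := by
        refine le_trans ?_ hz
        have e : (2 : ℝ) ^ (10 * k) = 2 ^ (3 * k) * 2 ^ (7 * k) := by
          rw [← pow_add]; congr 1; ring
        rw [e, e16]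
        calc (M : ℝ) * (2 ^ (3 * k) * 2 ^ (7 * k)) = (M * 2 ^ (3 * k)) * 2 ^ (7 * k) := by ring
          _ ≤ (2 ^ k * 2 ^ (3 * k)) * aa B X :=
              mul_le_mul (mul_le_mul_of_nonneg_right hMr (by positivity)) h1 (by positivity)
                (by positivity)
      exact_mod_cast h2
    · refine le_trans ?_ hz
      exact le_mul_of_one_le_left hA0 (one_le_pow₀ (by norm_num))
  · intro s' hs1 hs2
    have h3 : ((4 / 3 : ℝ) ^ J * 64) ^ k * 4 ^ k₁ ≤ ll B X := hR.1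
    have e2 : (3 : ℝ) ^ (J * k) * (4 / 3) ^ (J * k) = 4 ^ (J * k) := by
      rw [← mul_pow]; norm_num
    -- first estimate
    have hF1 : (2 : ℝ) ^ ((2 * J + 6) * k) ≤ 3 ^ (J * k) * (3 ^ k₁ * ll B X / 2 ^ s') := by
      have h5 : (2 : ℝ) ^ s' ≤ 8 ^ k₁ := by
        have e : (8 : ℝ) = 2 ^ 3 := by norm_num
        rw [e, ← pow_mul]
        exact pow_le_pow_right₀ (by norm_num) hs2
      have h6 : (2 : ℝ) ^ ((2 * J + 6) * k) * 2 ^ s' ≤ 3 ^ (J * k) * (3 ^ k₁ * ll B X) := by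
        have e3 : (2 : ℝ) ^ ((2 * J + 6) * k) = 4 ^ (J * k) * 64 ^ k := by
          have e4 : (4 : ℝ) = 2 ^ 2 := by norm_num
          have e5 : (64 : ℝ) = 2 ^ 6 := by norm_num
          rw [e4, e5, ← pow_mul, ← pow_mul, ← pow_add]
          congr 1
          ring
        have h7 : (8 : ℝ) ^ k₁ ≤ 3 ^ k₁ * 4 ^ k₁ := by
          rw [← mul_pow]
          exact pow_le_pow_left₀ (by norm_num) (by norm_num) _
        calc (2 : ℝ) ^ ((2 * J + 6) * k) * 2 ^ s' ≤ 2 ^ ((2 * J + 6) * k) * (3 ^ k₁ * 4 ^ k₁) :=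
              mul_le_mul_of_nonneg_left (h5.trans h7) (by positivity)
          _ = 3 ^ (J * k) * (3 ^ k₁ * (((4 / 3 : ℝ) ^ J * 64) ^ k * 4 ^ k₁)) := by
              rw [e3, mul_pow, ← pow_mul, ← e2]
              ring
          _ ≤ 3 ^ (J * k) * (3 ^ k₁ * ll B X) := by
              refine mul_le_mul_of_nonneg_left ?_ (by positivity)
              exact mul_le_mul_of_nonneg_left h3 (by positivity)
      rw [← mul_div_assoc, le_div_iff₀ (by positivity)]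
      exact h6
    refine ⟨hF1, ?_⟩
    intro s hs3 hs4
    have hF2 : (2 : ℝ) ^ (5 * k) ≤ 3 ^ (J * k) * (3 ^ k₁ * ll B X / 2 ^ s') / 2 ^ s := by
      rw [le_div_iff₀ (by positivity)]
      refine le_trans ?_ hF1
      rw [← pow_add]
      refine pow_le_pow_right₀ (by norm_num) ?_
      have e : (2 * J + 6) * k = (2 * J + 1) * k + 5 * k := by ring
      omega
    refine ⟨hF2, ?_, ?_⟩
    · -- upper estimate
      have h5 : (2 : ℝ) ^ k₁ ≤ 2 ^ s' := pow_le_pow_right₀ (by norm_num) hs1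
      have h6 : (2 : ℝ) ^ ((2 * J - 1) * k) ≤ 2 ^ s := pow_le_pow_right₀ (by norm_num) hs3
      have h7 : ll B X ≤ ((4 / 3 : ℝ) ^ J * 64) ^ (k + 1) * 4 ^ k₁ := hR.2.le
      have h8 : (256 : ℝ) * (4 / 3) ^ J * 6 ^ k₁ ≤ 2 ^ k := by
        have a1 : (4 / 3 : ℝ) ^ J ≤ 2 ^ J := pow_le_pow_left₀ (by norm_num) (by norm_num) J
        have a2 : (6 : ℝ) ^ k₁ ≤ 2 ^ (3 * k₁) := by
          rw [pow_mul]
          exact pow_le_pow_left₀ (by norm_num) (by norm_num) _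
        calc (256 : ℝ) * (4 / 3) ^ J * 6 ^ k₁ ≤ 256 * 2 ^ J * 2 ^ (3 * k₁) :=
              mul_le_mul (mul_le_mul_of_nonneg_left a1 (by norm_num)) a2 (by positivity)
                (by positivity)
          _ = 2 ^ (8 + J + 3 * k₁) := by
              rw [pow_add, pow_add]
              norm_num
          _ ≤ 2 ^ k := by
              refine pow_le_pow_right₀ (by norm_num) ?_
              have b1 : k₁ ≤ k₁ ^ 2 := Nat.le_self_pow (by norm_num) k₁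
              have b2 : 3 * k₁ ≤ M' * k₁ ^ 2 := Nat.mul_le_mul (by omega) b1
              have b3 : 8 + J ≤ M' := by omega
              omega
      have h9 : (3 : ℝ) ^ (J * k) * (3 ^ k₁ * ll B X) * 4 ≤
          2 ^ (8 * k) * (2 ^ k₁ * 2 ^ ((2 * J - 1) * k)) := by
        have e3 : (2 : ℝ) ^ (8 * k) * (2 ^ k₁ * 2 ^ ((2 * J - 1) * k)) =
            4 ^ (J * k) * 2 ^ (7 * k) * 2 ^ k₁ := by
          have e4 : (4 : ℝ) = 2 ^ 2 := by norm_num
          rw [e4, ← pow_mul, ← pow_add, ← pow_add, ← pow_add, ← pow_add]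
          congr 1
          have e5 : (2 * J - 1) * k + k = 2 * (J * k) := by
            have e6 : 2 * J - 1 + 1 = 2 * J := by omega
            calc (2 * J - 1) * k + k = (2 * J - 1 + 1) * k := by ring
              _ = 2 * (J * k) := by rw [e6]; ring
          omega
        rw [e3]
        have h10 : (3 : ℝ) ^ (J * k) * (3 ^ k₁ * ll B X) * 4 ≤
            3 ^ (J * k) * (3 ^ k₁ * (((4 / 3 : ℝ) ^ J * 64) ^ (k + 1) * 4 ^ k₁)) * 4 := by
          refine mul_le_mul_of_nonneg_right ?_ (by norm_num)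
          refine mul_le_mul_of_nonneg_left ?_ (by positivity)
          exact mul_le_mul_of_nonneg_left h7 (by positivity)
        refine h10.trans ?_
        have e6 : (3 : ℝ) ^ (J * k) * (3 ^ k₁ * (((4 / 3 : ℝ) ^ J * 64) ^ (k + 1) * 4 ^ k₁)) * 4 =
            4 ^ (J * k) * 64 ^ k * 2 ^ k₁ * (256 * (4 / 3) ^ J * 6 ^ k₁) := by
          have e7 : (2 : ℝ) ^ k₁ * 6 ^ k₁ = 3 ^ k₁ * 4 ^ k₁ := by
            rw [← mul_pow, ← mul_pow]; norm_num
          rw [pow_succ, mul_pow, ← pow_mul, ← e2]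
          calc (3 : ℝ) ^ (J * k) * (3 ^ k₁ * ((4 / 3) ^ (J * k) * 64 ^ k * ((4 / 3) ^ J * 64) *
                4 ^ k₁)) * 4 = 3 ^ (J * k) * (4 / 3) ^ (J * k) * 64 ^ k * (3 ^ k₁ * 4 ^ k₁) *
                (256 * (4 / 3) ^ J) := by ring
            _ = _ := by rw [← e7]; ring
        rw [e6]
        have e8 : (2 : ℝ) ^ (7 * k) = 64 ^ k * 2 ^ k := by
          have e9 : (64 : ℝ) = 2 ^ 6 := by norm_num
          rw [e9, ← pow_mul, ← pow_add]
          congr 1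
          ring
        rw [e8]
        calc (4 : ℝ) ^ (J * k) * 64 ^ k * 2 ^ k₁ * (256 * (4 / 3) ^ J * 6 ^ k₁) ≤
              4 ^ (J * k) * 64 ^ k * 2 ^ k₁ * 2 ^ k :=
              mul_le_mul_of_nonneg_left h8 (by positivity)
          _ = _ := by ring
      have h11 : (3 : ℝ) ^ (J * k) * (3 ^ k₁ * ll B X) * 4 ≤ 2 ^ (8 * k) * (2 ^ s' * 2 ^ s) := by
        refine h9.trans (mul_le_mul_of_nonneg_left ?_ (by positivity))
        exact mul_le_mul h5 h6 (by positivity) (by positivity)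
      have e10 : 4 * (3 ^ (J * k) * (3 ^ k₁ * ll B X / 2 ^ s') / 2 ^ s) =
          (3 : ℝ) ^ (J * k) * (3 ^ k₁ * ll B X) * 4 / (2 ^ s' * 2 ^ s) := by
        field_simp
      rw [e10, div_le_iff₀ (by positivity)]
      exact h11
    · intro x hx
      have hxr : ll B X * aa B X ≤ (x : ℝ) := by rw [hLA]; exact_mod_cast hx
      have h5 : ll B X ≤ (x : ℝ) := by nlinarith
      have h6 : (3 : ℝ) ^ (J * k) * (3 ^ k₁ * ll B X / 2 ^ s') / 2 ^ s ≤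
          3 ^ (J * k) * (3 ^ k₁ * (x : ℝ) / 2 ^ s') / 2 ^ s := by
        gcongr
      refine le_trans ?_ (hF2.trans h6)
      have e : (2 : ℝ) ^ (5 * k) = 2 ^ k * 2 ^ (4 * k) := by
        rw [← pow_add]; congr 1; ring
      rw [e]
      exact mul_le_mul_of_nonneg_right hMr (by positivity)

end Pool.Agent.ZOL
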