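import Pool.Agent.ZOL.St
import Pool.Agent.CPR.Ptw

set_option autoImplicit false

/-!
# ZOL, module Ptw: the pointwise statement
-/

namespace Pool.Agent.ZOL

open Finset Filter
open Pool.Agent.Collatz3.DN (EvInv)
open Pool.Agent.Helper14 (T)
open Pool.Agent.CPR (Dp tt zz Ob Wi Ev bad Dens St_Extr St_Per Ptw_off Ptw_core)

theorem thm_Ptw (hE : St_Extr) (hP : St_Per) (hA : St_Par) : St_Ptw := by
  intro B K J hB hK hJ C A σ hσ hinv
  filter_upwards [hA B K J (2 * C + J + 4) hB hK hJ] with X hX k₁ k s s' x hk₁ hRel hs1 hs2 hs3 hs4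
    hs5 hs6 hx1 hx2 hEv b hb hbA
  obtain ⟨h1, -, h3, -, h5, h6⟩ := hX k₁ k hk₁ hRel
  obtain ⟨h7, h8, -⟩ := h5 x hx1
  obtain ⟨-, h9⟩ := h6 s' hs1 hs2
  obtain ⟨-, h10, -⟩ := h9 s hs3 hs4
  have hD : 2 * Dp K J k ≤ k := by
    have h11 : 2 * Dp K J k ≤ (2 * C + J + 4) * Dp K J k := Nat.mul_le_mul_right _ (by omega)
    omega
  have htt : tt K J k k₁ = 2 * (J * k + k₁) + Dp K J k := rfl
  have hr : tt K J k k₁ - s - s' ≤ 2 * Dp K J k := by omega
  have hl : 0 ≤ ll B X := by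
    unfold ll
    positivity
  have ho := Ptw_off hσ hl (by omega : s + s' ≤ tt K J k k₁) (hr.trans hD) (by omega : J ≤ k)
    (by omega) h10 hb
  refine ⟨ho, Ptw_core hE hP hσ hinv hr hD (le_trans ?_ h7) (le_trans ?_ h8) hEv hbA ho⟩
  · exact Nat.mul_le_mul_right _ (by omega)
  · exact Nat.mul_le_mul_right _ (by omega)

end Pool.Agent.ZOL
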