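import Mathlib
import Pool.Agent.ZOL.St
import Pool.Agent.CPR.SvB

set_option autoImplicit false

/-!
# ZOL: module SvB, primes in intervals of length `X ^ (1 - 1/B)`
-/

namespace Pool.Agent.ZOL

open Finset Filter
open Pool.Agent.Collatz3 (cw)
open Pool.Agent.Collatz3.Mix (words mem_words)
open Pool.Agent.Collatz3.PD (rd en Fw II P Per)
open Pool.Agent.Collatz3.FW (Hit)
open Pool.Agent.Collatz3.PR (Sf VV W2 mem_W2 W1 mem_W1 Odd_G Odd_P Odd_card Odd_two_pow VV_pos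
  sys_zero VV_zero_le VV_le_one prime_Sf thm_Tail1 thm_Tail2 thm_Tail3 thm_VL)
open Pool.Agent.Helper90.Straus (Sys)
open Pool.Agent.CPR (Ob mem_Ob card_Ob_le sig_sq SvB_num SvB_win SvB_cover SvB_primes SvB_cauchy)

/-- Sizes. -/
theorem SvB_size {B X k : ℕ} (hB : 2 ≤ B) (hk : 10 ≤ k) (hN : k ^ 4 ≤ Nat.log 2 X) :
    2 ^ Nat.log 2 X ≤ X ∧ (2 : ℝ) ^ (6 * k) ≤ ll B X ∧ ll B X ≤ X ∧ 2 ≤ ⌊ll B X⌋₊ ∧
    1 / Real.log ⌊ll B X⌋₊ ≤ 4 / Real.log X ∧ 0 < Real.log X ∧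
    Real.log ⌊ll B X⌋₊ ≤ Nat.log 2 X + 1 := by
  have hBr : (2 : ℝ) ≤ B := by exact_mod_cast hB
  have hB0 : (0 : ℝ) < B := by linarith
  obtain ⟨e, he⟩ : ∃ e : ℝ, e = 1 - 1 / (B : ℝ) := ⟨_, rfl⟩
  have hb1 : 1 / (B : ℝ) ≤ 1 / 2 := one_div_le_one_div_of_le (by norm_num) hBr
  have hb2 : 0 < 1 / (B : ℝ) := by positivity
  have he1 : 1 / 2 ≤ e := by linarith
  have he2 : e ≤ 1 := by linarith
  have hle : ll B X = (X : ℝ) ^ e := by rw [he]; rfl
  rw [hle]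
  obtain ⟨N, hNd⟩ : ∃ N, N = Nat.log 2 X := ⟨_, rfl⟩
  rw [← hNd] at hN ⊢
  have hk4 : 20 * k ≤ k ^ 4 := by
    have : k ^ 4 = k ^ 3 * k := by ring
    rw [this]
    apply Nat.mul_le_mul_right
    calc 20 ≤ 10 ^ 3 := by norm_num
      _ ≤ k ^ 3 := Nat.pow_le_pow_left hk 3
  have hN20 : 20 * k ≤ N := hk4.trans hN
  have hX0 : X ≠ 0 := by
    rintro rfl
    rw [Nat.log_zero_right] at hNd
    omega
  have hX1 : 2 ^ N ≤ X := by
    rw [hNd]
    exact Nat.pow_log_le_self 2 hX0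
  have hX2 : X < 2 ^ (N + 1) := by
    rw [hNd]
    exact Nat.lt_pow_succ_log_self (by norm_num) X
  have hX1r : (2 : ℝ) ^ N ≤ X := by exact_mod_cast hX1
  have hX2r : (X : ℝ) ≤ 2 ^ (N + 1) := by exact_mod_cast hX2.le
  have hXr1 : (1 : ℝ) ≤ X := by exact_mod_cast Nat.one_le_iff_ne_zero.2 hX0
  have hXr0 : (0 : ℝ) < X := by linarith
  have hl1 : (2 : ℝ) ^ (6 * k) ≤ (X : ℝ) ^ e := by
    calc (2 : ℝ) ^ (6 * k) ≤ 2 ^ (10 * k) := pow_le_pow_right₀ (by norm_num) (by omega)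
      _ = ((2 : ℝ) ^ (20 * k)) ^ (1 / 2 : ℝ) := by
          rw [← Real.rpow_natCast 2 (20 * k), ← Real.rpow_mul (by norm_num),
            ← Real.rpow_natCast 2 (10 * k)]
          congr 1
          push_cast
          ring
      _ ≤ ((2 : ℝ) ^ N) ^ (1 / 2 : ℝ) := by
          apply Real.rpow_le_rpow (by positivity) _ (by norm_num)
          exact pow_le_pow_right₀ (by norm_num) hN20
      _ ≤ (X : ℝ) ^ (1 / 2 : ℝ) := Real.rpow_le_rpow (by positivity) hX1r (by norm_num)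
      _ ≤ (X : ℝ) ^ e := Real.rpow_le_rpow_of_exponent_le hXr1 he1
  have hl2 : (X : ℝ) ^ e ≤ X := by
    calc (X : ℝ) ^ e ≤ (X : ℝ) ^ (1 : ℝ) :=
          Real.rpow_le_rpow_of_exponent_le hXr1 he2
      _ = X := Real.rpow_one _
  obtain ⟨L, hL⟩ : ∃ L : ℝ, L = (X : ℝ) ^ e := ⟨_, rfl⟩
  have hll : Real.log L = e * Real.log X := by
    rw [hL, Real.log_rpow hXr0]
  rw [← hL] at hl1 hl2 ⊢
  have hl4 : (2 : ℝ) ≤ L := by
    calc (2 : ℝ) = 2 ^ 1 := (pow_one _).symm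
      _ ≤ 2 ^ (6 * k) := pow_le_pow_right₀ (by norm_num) (by omega)
      _ ≤ L := hl1
  have hz2 : 2 ≤ ⌊L⌋₊ := Nat.le_floor (by exact_mod_cast hl4)
  have hz2r : (2 : ℝ) ≤ (⌊L⌋₊ : ℝ) := by exact_mod_cast hz2
  have hzl : (⌊L⌋₊ : ℝ) ≤ L := Nat.floor_le (by linarith)
  have hzl' : L / 2 ≤ (⌊L⌋₊ : ℝ) := by
    have := Nat.lt_floor_add_one L
    linarith
  have hlogz : 0 < Real.log ⌊L⌋₊ := Real.log_pos (by linarith)
  have hlog2 : 0 < Real.log 2 := Real.log_pos (by norm_num)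
  have hlX : (N : ℝ) * Real.log 2 ≤ Real.log X := by
    have := Real.log_le_log (by positivity) hX1r
    rwa [Real.log_pow] at this
  have hN200 : (200 : ℝ) ≤ N := by exact_mod_cast (by omega : 200 ≤ N)
  have hlX0 : 0 < Real.log X := by nlinarith
  refine ⟨hX1, hl1, hl2, hz2, ?_, hlX0, ?_⟩
  · rw [div_le_div_iff₀ hlogz hlX0, one_mul]
    have h1 := Real.log_le_log (by linarith) hzl'
    rw [Real.log_div (by linarith) (by norm_num), hll] at h1
    have h2 : 1 / 2 * Real.log X ≤ e * Real.log X := mul_le_mul_of_nonneg_right he1 hlX0.le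
    nlinarith
  · have h1 := Real.log_le_log (by linarith) (hzl.trans (hl2.trans hX2r))
    rw [Real.log_pow] at h1
    push_cast at h1
    have h2 := Real.log_two_lt_d9
    nlinarith

open Classical in
theorem thm_SvB (hR : Pool.Agent.CPR.St_ResB) (hC : Pool.Agent.CPR.St_CSB) : St_SvB := by
  intro B hB2 η hη
  obtain ⟨ρ, B₁, hρ0, hρ1, hB₁, hP⟩ := Odd_P thm_Tail1 thm_Tail2 thm_Tail3
  obtain ⟨cV, A, hcV, hVL⟩ := thm_VL 1 le_rfl
  obtain ⟨CR, hCR, hRes⟩ := hR 1 le_rfl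
  obtain ⟨CS, I₀, hCS0, hCS⟩ := hC 1 le_rfl
  obtain ⟨θ, hθ⟩ : ∃ θ : ℝ, θ = η / (20 * CR) := ⟨_, rfl⟩
  have hθ0 : 0 < θ := by rw [hθ]; positivity
  -- the parameters
  obtain ⟨u, hu⟩ : ∃ u : ℝ, u = 1 + 1 / θ := ⟨_, rfl⟩
  have hu1 : 1 ≤ u := by
    rw [hu]
    have : 0 ≤ 1 / θ := by positivity
    linarith
  have huθ : 1 / u ≤ θ := by
    rw [div_le_iff₀ (by linarith), hu, mul_add, mul_one_div_cancel hθ0.ne']
    linarith
  obtain ⟨R, hRθ⟩ : ∃ R : ℕ, B₁ * ρ ^ R ≤ θ := by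
    obtain ⟨R, hR⟩ := exists_pow_lt_of_lt_one (show 0 < θ / B₁ by positivity) hρ1
    refine ⟨R, ?_⟩
    rw [lt_div_iff₀ hB₁] at hR
    linarith
  obtain ⟨l, hl1, hlθ⟩ : ∃ l : ℕ, 1 ≤ l ∧ B₁ * Real.exp (-((l : ℝ) / 2)) ≤ θ := by
    have h1 : Tendsto (fun l : ℕ => B₁ * Real.exp (-((l : ℝ) / 2))) atTop (nhds (B₁ * 0)) := by
      apply Tendsto.const_mul
      apply Real.tendsto_exp_atBot.comp
      apply tendsto_neg_atTop_atBot.comp
      exact tendsto_natCast_atTop_atTop.atTop_div_const (by norm_num)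
    rw [mul_zero] at h1
    obtain ⟨l, hl⟩ := ((h1.eventually_lt_const hθ0).and (eventually_ge_atTop 1)).exists
    exact ⟨l, hl.2, hl.1.le⟩
  have hl1r : (1 : ℝ) ≤ l := by exact_mod_cast hl1
  obtain ⟨τ, hτ⟩ : ∃ τ : ℝ, τ = η / (20 * CS * ((R : ℝ) + 1) ^ 4) := ⟨_, rfl⟩
  have hτ0 : 0 < τ := by rw [hτ]; positivity
  obtain ⟨δ, hδ⟩ : ∃ δ : ℝ, δ = τ ^ 2 / (6 * l * u) := ⟨_, rfl⟩
  have hδ0 : 0 < δ := by rw [hδ]; positivity
  have hδτ : √(6 * l * δ * u) = τ := by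
    have : 6 * l * δ * u = τ ^ 2 := by
      rw [hδ]
      field_simp
    rw [this, Real.sqrt_sq hτ0.le]
  refine ⟨l, δ, hl1, hδ0, ?_⟩
  -- small terms
  have e1 : ∀ᶠ k : ℕ in atTop, (k : ℝ) * (1 / 2) ^ k + (1 / 2) ^ (k / 2) ≤ θ := by
    have h1 : Tendsto (fun k : ℕ => (k : ℝ) * (1 / 2) ^ k) atTop (nhds 0) :=
      tendsto_self_mul_const_pow_of_lt_one (by norm_num) (by norm_num)
    have h2 : Tendsto (fun k : ℕ => (1 / 2 : ℝ) ^ (k / 2)) atTop (nhds 0) :=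
      (tendsto_pow_atTop_nhds_zero_of_lt_one (by norm_num) (by norm_num)).comp
        (Nat.tendsto_div_const_atTop (by norm_num))
    have h3 := h1.add h2
    rw [add_zero] at h3
    filter_upwards [h3.eventually_lt_const hθ0] with k hk
    exact hk.le
  have e2 : ∀ᶠ k : ℕ in atTop, (3 * (k : ℝ) + 1) * (4 * (1 / 12) ^ k) ≤ δ := by
    have h1 : Tendsto (fun k : ℕ => (k : ℝ) * (1 / 12) ^ k) atTop (nhds 0) :=
      tendsto_self_mul_const_pow_of_lt_one (by norm_num) (by norm_num)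
    have h2 : Tendsto (fun k : ℕ => (1 / 12 : ℝ) ^ k) atTop (nhds 0) :=
      tendsto_pow_atTop_nhds_zero_of_lt_one (by norm_num) (by norm_num)
    have h3 := (h1.const_mul 12).add (h2.const_mul 4)
    rw [mul_zero, mul_zero, add_zero] at h3
    filter_upwards [h3.eventually_lt_const hδ0] with k hk
    have e : (3 * (k : ℝ) + 1) * (4 * (1 / 12) ^ k) =
      12 * ((k : ℝ) * (1 / 12) ^ k) + 4 * (1 / 12) ^ k := by ring
    rw [e]
    exact hk.le
  obtain ⟨K₁, hK₁⟩ := eventually_atTop.1 (e1.and e2)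
  obtain ⟨K₀, hK₀⟩ : ∃ K₀, K₀ = K₁ + I₀ + 10 + 10000 * l ^ 2 + 2 * R := ⟨_, rfl⟩
  filter_upwards [SvB_num A hcV K₀] with X hX
  obtain ⟨k, hkK, hk4, hkB, hkV⟩ := hX
  obtain ⟨hsm1, hsm2⟩ := hK₁ k (by omega)
  have hk10 : 10 ≤ k := by omega
  have hk1 : 1 ≤ k := by omega
  have hkr : (1 : ℝ) ≤ k := by exact_mod_cast hk1
  have hlk : 10000 * l ^ 2 ≤ k := by omega
  refine ⟨k, hk4, by omega, ?_⟩
  intro x hXx hx2 σ hσ F hF hsum
  obtain ⟨hXN, hℓ6, hℓX, hz2, hzlog, hlogX, hlogz⟩ := SvB_size hB2 hk10 hk4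
  obtain ⟨ℓ, hℓ⟩ : ∃ ℓ, ℓ = ll B X := ⟨_, rfl⟩
  rw [← hℓ] at hℓ6 hℓX hz2 hzlog hlogz hsum ⊢
  have hℓ0 : 0 < ℓ := lt_of_lt_of_le (by positivity) hℓ6
  have hxr : (X : ℝ) ≤ x := by exact_mod_cast hXx
  obtain ⟨N, hN⟩ : ∃ N, N = Nat.log 2 X := ⟨_, rfl⟩
  rw [← hN] at hkB hkV hlogz hk4 hXN
  have hcore : ∀ z : ℕ, 2 ≤ z → (z : ℝ) ≤ ℓ → z ≤ 2 ^ (N + 1) → Real.log z ≤ N + 1 →
      (((Ob σ x (x + ℓ)).filter fun n => Sf (fun _ => {0}) z n ∧ n ∈ F).card : ℝ) ≤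
        ℓ * VV (fun _ => {0}) z * (η / 5) + ℓ * VV (fun _ => {0}) z * (η / 20) := by
    intro z hz2 hzℓ hzN hlogz
    obtain ⟨V, hV⟩ : ∃ V, V = VV (fun _ => {0}) z := ⟨_, rfl⟩
    rw [← hV]
    have hV0 : 0 < V := by rw [hV]; exact VV_pos sys_zero z
    -- the density is not too small
    have hkV' : (k : ℝ) * 3 ^ k ≤ (397 / 100) ^ k * V := by
      have h0 := hVL z (fun _ => {0}) hz2 sys_zero
      rw [← hV] at h0
      have hlz0 : 0 < Real.log z := Real.log_pos (by exact_mod_cast (by omega : 1 < z))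
      have h1 : (Real.log z + 1) ^ A ≤ ((N : ℝ) + 2) ^ A :=
        pow_le_pow_left₀ (by linarith) (by linarith) _
      have hcV' : cV ≤ ((N : ℝ) + 2) ^ A * V := h0.trans (mul_le_mul_of_nonneg_right h1 hV0.le)
      have h2 : (397 / 300 : ℝ) ^ k = (397 / 100) ^ k / 3 ^ k := by
        rw [← div_pow]
        norm_num
      have hlA : 0 < ((N : ℝ) + 2) ^ A := by positivity
      have h3 : k * ((N : ℝ) + 2) ^ A ≤ ((N : ℝ) + 2) ^ A * V * ((397 / 100) ^ k / 3 ^ k) := by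
        rw [← h2]
        exact hkV.trans (mul_le_mul_of_nonneg_right hcV' (by positivity))
      have h4 : ((N : ℝ) + 2) ^ A * (k * 3 ^ k) ≤ ((N : ℝ) + 2) ^ A * ((397 / 100) ^ k * V) := by
        calc ((N : ℝ) + 2) ^ A * (k * 3 ^ k) = k * ((N : ℝ) + 2) ^ A * 3 ^ k := by ring
          _ ≤ ((N : ℝ) + 2) ^ A * V * ((397 / 100) ^ k / 3 ^ k) * 3 ^ k :=
              mul_le_mul_of_nonneg_right h3 (by positivity)
          _ = ((N : ℝ) + 2) ^ A * ((397 / 100) ^ k * V) := by field_simp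
      exact le_of_mul_le_mul_left h4 hlA
    -- the sums
    obtain ⟨S, hS⟩ : ∃ S : Finset ℕ, S = (range (3 * k + 1)).filter
      (fun s : ℕ => |(s : ℝ) - 2 * k| ≤ l * √k) := ⟨_, rfl⟩
    rw [← hS] at hsum
    have hsk : √(k : ℝ) * √k = k := Real.mul_self_sqrt (by linarith)
    have hsk1 : 1 ≤ √(k : ℝ) := by
      rw [Real.one_le_sqrt]
      exact hkr
    have hlsk : 100 * ((l : ℝ) * √k) ≤ k := by
      have h1 : 100 * (l : ℝ) ≤ √k := by
        apply Real.le_sqrt_of_sq_le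
        have : (10000 * l ^ 2 : ℝ) ≤ k := by exact_mod_cast hlk
        nlinarith
      calc 100 * ((l : ℝ) * √k) = 100 * l * √k := by ring
        _ ≤ √k * √k := mul_le_mul_of_nonneg_right h1 (by linarith)
        _ = k := hsk
    have hSb : ∀ s : ℕ, |(s : ℝ) - 2 * k| ≤ l * √k → 199 * k ≤ 100 * s ∧ 100 * s ≤ 201 * k := by
      intro s hs
      have h1 := abs_le.1 hs
      constructor
      · have : (199 * k : ℝ) ≤ 100 * s := by linarith
        exact_mod_cast this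
      · have : (100 * s : ℝ) ≤ 201 * k := by linarith
        exact_mod_cast this
    have hGS : ∀ w ∈ Odd_G u l k k R, w.sum ∈ S := by
      intro w hw
      rw [Odd_G, mem_filter] at hw
      have h1 := hSb w.sum hw.2
      rw [hS, mem_filter, mem_range]
      exact ⟨by omega, hw.2⟩
    have hSc : (S.card : ℝ) ≤ 2 * (l * √k) + 1 := by
      apply Odd_card (a := 2 * k) (by positivity)
      intro s hs
      rw [hS, mem_filter] at hs
      exact hs.2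
    have hGw : ∀ w ∈ Odd_G u l k k R, w ∈ words k k ∧ 100 * w.sum ≤ 201 * k := by
      intro w hw
      rw [Odd_G, mem_filter] at hw
      refine ⟨?_, (hSb w.sum hw.2).2⟩
      have h1 := hw.1
      rw [mem_W2, mem_W1] at h1
      exact h1.1.1
    -- the residual part
    have hres := hRes z x ℓ k k (Odd_G u l k k R) σ (fun _ => {0}) (fun w hw => (hGw w hw).1)
      (fun w hw => (hGw w hw).2) hk10 hz2 hzℓ hℓ6 sys_zero hσ
    rw [← hV] at hres
    have hPb := hP k k R u l (by omega) (by linarith) (by linarith)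
    have hres2 : (((Ob σ x (x + ℓ)).filter fun n => Sf (fun _ => {0}) z n ∧
          ¬ Hit (Odd_G u l k k R) (fun _ => Set.univ) n).card : ℝ) ≤ ℓ * V * (η / 5) := by
      refine hres.trans ?_
      have h1 : 1 - P (Odd_G u l k k R) + (1 / 2) ^ (k / 2) ≤ 4 * θ := by linarith
      calc CR * ℓ * V * (1 - P (Odd_G u l k k R) + (1 / 2) ^ (k / 2)) ≤ CR * ℓ * V * (4 * θ) :=
            mul_le_mul_of_nonneg_left h1 (by positivity)
        _ = ℓ * V * (η / 5) := by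
            rw [hθ]
            field_simp
            norm_num
    -- the parts with given sums
    obtain ⟨d, hd⟩ : ∃ d : ℕ → ℝ, d = fun s => (((Ob σ (3 ^ k * x / 2 ^ s)
      (3 ^ k * x / 2 ^ s + 3 ^ k * ℓ / 2 ^ s)).filter fun b => b ∈ F).card : ℝ) /
        (3 ^ k * ℓ / 2 ^ s) + 4 * (1 / 12) ^ k := ⟨_, rfl⟩
    have hd0 : ∀ s ∈ S, 0 ≤ d s := by
      intro s _
      rw [hd]
      positivity
    have hx0 : (0 : ℝ) ≤ x := Nat.cast_nonneg x
    have hcs : ∀ s ∈ S, (((Ob σ x (x + ℓ)).filter fun n => Sf (fun _ => {0}) z n ∧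
          Hit ((W2 u k k R).filter fun w => w.sum = s) (fun _ => F) n).card : ℝ) ≤
          CS * ℓ * V * (√(d s * u / k) * ((R : ℝ) + 1) ^ (4 * 1)) := by
      intro s hs
      have hs' := hs
      rw [hS, mem_filter, mem_range] at hs'
      obtain ⟨s1, s2⟩ := hSb s hs'.2
      rw [hV]
      refine hCS k k s R (N + 1) z u x ℓ (d s) σ F (fun _ => {0}) (by omega) hk1 hu1 (by omega) s2
        hz2 hzℓ hzN ?_ hℓ6 sys_zero ?_ hσ hx0 (hd0 s hs) ?_
      · exact hkB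
      · rw [← hV]
        exact hkV'.trans (mul_le_mul_of_nonneg_right (Odd_two_pow s1) hV0.le)
      · have hW : (24 : ℝ) ^ k ≤ 3 ^ k * ℓ / 2 ^ s := by
          rw [le_div_iff₀ (by positivity)]
          have h1 : (2 : ℝ) ^ s ≤ 2 ^ (3 * k) := pow_le_pow_right₀ (by norm_num) (by omega)
          calc (24 : ℝ) ^ k * 2 ^ s ≤ 24 ^ k * 2 ^ (3 * k) :=
                mul_le_mul_of_nonneg_left h1 (by positivity)
            _ = 3 ^ k * 2 ^ (6 * k) := by
                rw [pow_mul, pow_mul, ← mul_pow, ← mul_pow]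
                norm_num
            _ ≤ 3 ^ k * ℓ := mul_le_mul_of_nonneg_left hℓ6 (by positivity)
        have hW0 : 0 < 3 ^ k * ℓ / 2 ^ s := by positivity
        have h1 := SvB_win hσ F (α := 3 ^ k * x / 2 ^ s) (β := 3 ^ k * x / 2 ^ s + 3 ^ k * ℓ / 2 ^ s)
          (g := 2 ^ k) (one_le_pow₀ (by norm_num))
        have e : 3 ^ k * ((x : ℝ) + ℓ) / 2 ^ s = 3 ^ k * x / 2 ^ s + 3 ^ k * ℓ / 2 ^ s := by ring
        rw [e]
        refine h1.trans ?_
        have h2 : 4 * (2 : ℝ) ^ k ≤ 4 * (1 / 12) ^ k * (3 ^ k * ℓ / 2 ^ s) := by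
          have h3 : (2 : ℝ) ^ k = (1 / 12) ^ k * 24 ^ k := by
            rw [← mul_pow]
            norm_num
          rw [h3, mul_assoc]
          exact mul_le_mul_of_nonneg_left (mul_le_mul_of_nonneg_left hW (by positivity)) (by norm_num)
        have h3 : d s * (3 ^ k * ℓ / 2 ^ s) = (((Ob σ (3 ^ k * x / 2 ^ s)
            (3 ^ k * x / 2 ^ s + 3 ^ k * ℓ / 2 ^ s)).filter fun b => b ∈ F).card : ℝ) +
            4 * (1 / 12) ^ k * (3 ^ k * ℓ / 2 ^ s) := by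
          rw [hd]
          dsimp only
          rw [add_mul, div_mul_cancel₀ _ hW0.ne']
        have h4 : 0 ≤ d s * (2 * 2 ^ k) := mul_nonneg (hd0 s hs) (by positivity)
        rw [mul_add, h3]
        linarith
    have hdsum : ∑ s ∈ S, d s ≤ 2 * δ * √k := by
      have h1 : ∑ s ∈ S, d s = ∑ s ∈ S, (((Ob σ (3 ^ k * x / 2 ^ s)
          (3 ^ k * x / 2 ^ s + 3 ^ k * ℓ / 2 ^ s)).filter fun b => b ∈ F).card : ℝ) /
          (3 ^ k * ℓ / 2 ^ s) + S.card * (4 * (1 / 12) ^ k) := by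
        rw [hd, sum_add_distrib, sum_const, nsmul_eq_mul]
      have h2 : (S.card : ℝ) ≤ 3 * k + 1 := by
        have : S.card ≤ 3 * k + 1 := by
          rw [hS]
          exact (card_filter_le _ _).trans (card_range _).le
        exact_mod_cast this
      have h3 : (S.card : ℝ) * (4 * (1 / 12) ^ k) ≤ δ :=
        (mul_le_mul_of_nonneg_right h2 (by positivity)).trans hsm2
      have h4 : δ ≤ δ * √k := le_mul_of_one_le_right hδ0.le hsk1
      rw [h1]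
      linarith
    have hcau := SvB_cauchy (u := u) hd0 hkr (by linarith) hl1r hSc hdsum
    rw [hδτ] at hcau
    have hmain : ∑ s ∈ S, (((Ob σ x (x + ℓ)).filter fun n => Sf (fun _ => {0}) z n ∧
          Hit ((W2 u k k R).filter fun w => w.sum = s) (fun _ => F) n).card : ℝ) ≤
          ℓ * V * (η / 20) := by
      calc ∑ s ∈ S, (((Ob σ x (x + ℓ)).filter fun n => Sf (fun _ => {0}) z n ∧
          Hit ((W2 u k k R).filter fun w => w.sum = s) (fun _ => F) n).card : ℝ)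
          ≤ ∑ s ∈ S, CS * ℓ * V * (√(d s * u / k) * ((R : ℝ) + 1) ^ (4 * 1)) := sum_le_sum hcs
        _ = CS * ℓ * V * ((R : ℝ) + 1) ^ 4 * ∑ s ∈ S, √(d s * u / k) := by
            rw [mul_sum]
            apply sum_congr rfl
            intro s _
            ring
        _ ≤ CS * ℓ * V * ((R : ℝ) + 1) ^ 4 * τ := mul_le_mul_of_nonneg_left hcau (by positivity)
        _ = ℓ * V * (η / 20) := by
            rw [hτ]
            field_simp
    have hcov := SvB_cover hσ (ℓ := ℓ) hxr z (fun _ => {0}) hGS F hF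
    linarith
  constructor
  · -- primes
    obtain ⟨z, hz⟩ : ∃ z, z = ⌊ℓ⌋₊ := ⟨_, rfl⟩
    rw [← hz] at hz2 hzlog hlogz
    have hzℓ : (z : ℝ) ≤ ℓ := by rw [hz]; exact Nat.floor_le hℓ0.le
    have hX2 : 2 ≤ X := by
      have h1 : (2 : ℝ) ≤ z := by exact_mod_cast hz2
      have h2 : (2 : ℝ) ≤ X := by linarith
      exact_mod_cast h2
    have hzX : z ≤ X := by
      have h2 : (z : ℝ) ≤ X := by linarith
      exact_mod_cast h2
    have hzN : z ≤ 2 ^ (N + 1) := by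
      rw [hN]
      exact hzX.trans (Nat.lt_pow_succ_log_self (by norm_num) X).le
    have h1 := hcore z hz2 hzℓ hzN hlogz
    have hp := SvB_primes hσ (ℓ := ℓ) hXx hX2 hzX F
    obtain ⟨V, hV⟩ : ∃ V, V = VV (fun _ => {0}) z := ⟨_, rfl⟩
    have hVlog : V ≤ 4 / Real.log X := by
      rw [hV]
      exact (VV_zero_le hz2).trans hzlog
    rw [← hV] at h1
    have hfin : ℓ * V * (η / 5) + ℓ * V * (η / 20) ≤ η * ℓ / Real.log X := by
      calc ℓ * V * (η / 5) + ℓ * V * (η / 20) = ℓ * (η / 4) * V := by ring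
        _ ≤ ℓ * (η / 4) * (4 / Real.log X) := mul_le_mul_of_nonneg_left hVlog (by positivity)
        _ = η * ℓ / Real.log X := by
            ring
    linarith
  · -- odd integers
    have h2ℓ : ((2 : ℕ) : ℝ) ≤ ℓ := by
      have h1 : (2 : ℝ) ≤ (⌊ℓ⌋₊ : ℝ) := by exact_mod_cast hz2
      have h2 : (⌊ℓ⌋₊ : ℝ) ≤ ℓ := Nat.floor_le hℓ0.le
      push_cast
      linarith
    have h2N : 2 ≤ 2 ^ (N + 1) := by
      calc 2 = 2 ^ 1 := (pow_one _).symm
        _ ≤ 2 ^ (N + 1) := Nat.pow_le_pow_right (by norm_num) (by omega)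
    have h2log : Real.log ((2 : ℕ) : ℝ) ≤ N + 1 := by
      have h2 := Real.log_two_lt_d9
      have h3 : (0 : ℝ) ≤ N := Nat.cast_nonneg N
      push_cast
      linarith
    have h1 := hcore 2 le_rfl h2ℓ h2N h2log
    have e1 : ((Ob σ x (x + ℓ)).filter fun n => Sf (fun _ => {0}) 2 n ∧ n ∈ F) =
        (Ob σ x (x + ℓ)).filter fun n => n ∈ F := by
      apply filter_congr
      intro n _
      constructor
      · exact fun h => h.2
      · intro h
        refine ⟨?_, h⟩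
        intro p hp hp2
        have := hp.two_le
        omega
    rw [e1] at h1
    have hV1 : VV (fun _ => {0}) 2 ≤ 1 := VV_le_one sys_zero 2
    obtain ⟨V, hV⟩ : ∃ V, V = VV (fun _ => {0}) 2 := ⟨_, rfl⟩
    rw [← hV] at h1 hV1
    have h3 : ℓ * V * (η / 5) + ℓ * V * (η / 20) ≤ η * ℓ := by
      calc ℓ * V * (η / 5) + ℓ * V * (η / 20) = ℓ * (η / 4) * V := by ring
        _ ≤ ℓ * (η / 4) * 1 := mul_le_mul_of_nonneg_left hV1 (by positivity)
        _ ≤ η * ℓ := by nlinarith [mul_pos hη hℓ0]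
    exact h1.trans h3

end Pool.Agent.ZOL
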