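import Mathlib
import Pool.Agent.CPR.All
import Pool.Agent.ZOL.AvB
import Pool.Agent.ZOL.Avg
import Pool.Agent.ZOL.Block
import Pool.Agent.ZOL.Equiv
import Pool.Agent.ZOL.Est
import Pool.Agent.ZOL.Even
import Pool.Agent.ZOL.Evt
import Pool.Agent.ZOL.Gap
import Pool.Agent.ZOL.Joint
import Pool.Agent.ZOL.Par
import Pool.Agent.ZOL.Pers
import Pool.Agent.ZOL.Ptw
import Pool.Agent.ZOL.SvB

set_option autoImplicit false

/-!
# ZOL: assembly of the 0-1 law in long intervals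
-/

namespace Pool.Agent.ZOL

open Pool.Agent.Collatz3.PR (St_Chain thm_Chain thm_Loc thm_Pt thm_Err thm_Avg thm_Div thm_Sing
  thm_S1 thm_S2 thm_Tail3)

theorem all_Est : St_Est := thm_Est CPR.all_Blk CPR.thm_Inv CPR.all_Sum1 CPR.thm_Mass thm_Tail3
  (thm_Ptw CPR.thm_Extr CPR.thm_Per thm_Par) (thm_AvB CPR.thm_Cross CPR.thm_Per thm_Par)
  CPR.thm_Mix2 CPR.thm_Per thm_Par

theorem all_Pers : St_Pers :=
  thm_Pers all_Est (thm_Evt CPR.all_D (CPR.thm_Hit CPR.thm_Win) CPR.thm_Per thm_Par)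

theorem all_SvB : St_SvB :=
  have hCh : St_Chain := Pool.Agent.Collatz3.PR.thm_Chain thm_Loc thm_Pt thm_Err
  thm_SvB (CPR.thm_ResB thm_S1)
    (CPR.thm_CSB (Pool.Agent.Collatz3.PR.thm_Avg hCh (thm_Div hCh) thm_Sing) thm_S2)

theorem all_Joint : St_Joint := thm_Joint all_SvB all_Pers thm_Even

theorem all_Block : St_Block := thm_Block all_Joint thm_Mark thm_Dbl thm_Gap

theorem all_Equiv : St_Equiv := thm_Equiv all_Block thm_Gap

end Pool.Agent.ZOL
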