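import Mathlib
import Pool.Agent.Helper14.FatouDefs
import Pool.Agent.Helper14.Fatou
import Pool.Agent.Collatz3.ND
import Pool.Agent.ZOL.All

set_option autoImplicit false

/-!
# ZOL: the 0-1 law, final form
-/

namespace Pool.Agent.ZOL

open Filter Topology
open Pool.Agent.Helper14 (T f₀ fatouComponent IsWanderingDomain)

theorem Main_sign {σ : ℤ} (h : |σ| = 1) : σ = 1 ∨ σ = -1 := by
  rcases abs_choice σ with h1 | h1
  · left
    rw [← h1]
    exact h
  · right
    have h2 : -σ = 1 := by rw [← h1]; exact h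
    linarith

theorem Main_zero : (0 : ℤ) ∉ Pool.Agent.Collatz3.ND.W := by
  have h : T^[0] (0 : ℤ) = T^[1] (0 : ℤ) := by
    show (0 : ℤ) = T 0
    decide
  exact Pool.Agent.Helper14.not_intWandering (i := 0) (j := 1) (by norm_num) h

/-- Invariance of the integers that do not reach `1`. -/
theorem Main_one (n : ℤ) : (∃ k : ℕ, T^[k] (T n) = 1) ↔ (∃ k : ℕ, T^[k] n = 1) := by
  constructor
  · rintro ⟨k, hk⟩
    exact ⟨k + 1, by rw [Function.iterate_succ_apply]; exact hk⟩
  · rintro ⟨k, hk⟩
    cases k with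
    | zero =>
      have h1 : n = 1 := hk
      refine ⟨1, ?_⟩
      rw [h1]
      decide
    | succ k =>
      exact ⟨k, by rw [Function.iterate_succ_apply] at hk; exact hk⟩

end Pool.Agent.ZOL
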